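import Mathlib
import Pool.Agent.Lib.MP_8f66f0_al_Plus.ReRep
import Pool.Agent.Lib.MP_8f66f0_al_Plus.Spec

/-! Determinants of invertible matrices over integral group rings in all representations:
restriction, induction, the determinant over the abelianization. -/

set_option autoImplicit false
set_option linter.unusedSectionVars false

namespace Pool.Agent.Lib.MP_8f66f0_al_Wall

open Pool.Agent.Lib.MP_8f66f0_al_Dennis Pool.Agent.Lib.MP_8f66f0_al_FinQ
open Pool.Agent.Lib.MP_8f66f0_al_Plus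

section defs

variable {H : Type*} [Group H] {ι : Type*} [Fintype ι] [DecidableEq ι]

/-- The determinant over the integral group ring of the abelianization. -/
noncomputable def uEl (A : Matrix ι ι (MonoidAlgebra ℤ H)) : MonoidAlgebra ℤ (Abelianization H) :=
  (mapMat (Abelianization.of (G := H)) A).det

/-- The homomorphism into monomial matrices induced from a homomorphism on a subgroup. -/
noncomputable def indHom (M : Subgroup H) [Fintype (H ⧸ M)] [DecidableEq (H ⧸ M)] {S : Type*}
    [Semiring S] (φ : M →* S) : H →* Matrix (H ⧸ M) (H ⧸ M) S where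
  toFun g := Matrix.of fun x' x =>
    if x' = g • x then φ ⟨(g • x).out⁻¹ * g * x.out, out_mem M g x⟩ else 0
  map_one' := by
    ext x' x
    rw [Matrix.of_apply, Matrix.one_apply]
    refine if_congr (by rw [one_smul]) ?_ rfl
    rw [← map_one φ]
    congr 1
    apply Subtype.ext
    change ((1 : H) • x).out⁻¹ * 1 * x.out = 1
    rw [one_smul, mul_one, inv_mul_cancel]
  map_mul' g h := by
    ext x' x
    rw [Matrix.mul_apply, Finset.sum_eq_single (h • x)]
    · rw [Matrix.of_apply, Matrix.of_apply, Matrix.of_apply, if_pos rfl]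
      by_cases hx : x' = (g * h) • x
      · rw [if_pos hx, if_pos (by rw [hx, mul_smul]), ← map_mul]
        congr 1
        apply Subtype.ext
        change ((g * h) • x).out⁻¹ * (g * h) * x.out =
          ((g • h • x).out⁻¹ * g * (h • x).out) * ((h • x).out⁻¹ * h * x.out)
        rw [mul_smul]
        group
      · rw [if_neg hx, if_neg (by rwa [← mul_smul]), zero_mul]
    · intro v _ hv
      rw [Matrix.of_apply, Matrix.of_apply, if_neg hv, mul_zero]
    · intro h'
      exact absurd (Finset.mem_univ _) h'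

lemma indHom_apply (M : Subgroup H) [Fintype (H ⧸ M)] [DecidableEq (H ⧸ M)] {S : Type*}
    [Semiring S] (φ : M →* S) (g : H) (x' x : H ⧸ M) :
    indHom M φ g x' x =
      if x' = g • x then φ ⟨(g • x).out⁻¹ * g * x.out, out_mem M g x⟩ else 0 := rfl

/-- Restriction to a subgroup of finite index. -/
noncomputable def resMat (M : Subgroup H) [Fintype (H ⧸ M)] [DecidableEq (H ⧸ M)] :
    Matrix ι ι (MonoidAlgebra ℤ H) →+* Matrix (ι × (H ⧸ M)) (ι × (H ⧸ M)) (MonoidAlgebra ℤ M) :=
  (Matrix.compRingEquiv ι (H ⧸ M) (MonoidAlgebra ℤ M)).toRingHom.comp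
    (MonoidAlgebra.lift ℤ (Matrix (H ⧸ M) (H ⧸ M) (MonoidAlgebra ℤ M)) H
      (indHom M (MonoidAlgebra.of ℤ M))).toRingHom.mapMatrix

/-- The induced representation. -/
noncomputable def indRep (M : Subgroup H) [Fintype (H ⧸ M)] [DecidableEq (H ⧸ M)] {κ : Type*}
    [Fintype κ] [DecidableEq κ] {F : Type*} [CommRing F] (ρ : M →* Matrix κ κ F) :
    H →* Matrix ((H ⧸ M) × κ) ((H ⧸ M) × κ) F :=
  (Matrix.compRingEquiv (H ⧸ M) κ F).toMonoidHom.comp (indHom M ρ)

lemma indRep_apply (M : Subgroup H) [Fintype (H ⧸ M)] [DecidableEq (H ⧸ M)] {κ : Type*}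
    [Fintype κ] [DecidableEq κ] {F : Type*} [CommRing F] (ρ : M →* Matrix κ κ F) (g : H)
    (x' x : (H ⧸ M) × κ) :
    indRep M ρ g x' x = if x'.1 = g • x.1 then
      ρ ⟨(g • x.1).out⁻¹ * g * x.1.out, out_mem M g x.1⟩ x'.2 x.2 else 0 := by
  change indHom M ρ g x'.1 x.1 x'.2 x.2 = _
  rw [indHom_apply]
  split_ifs <;> rfl

/-- Permutation representations. -/
def permRep (F : Type*) [CommRing F] (Ω : Type*) [Fintype Ω] [DecidableEq Ω] [MulAction H Ω] :
    H →* Matrix Ω Ω F where
  toFun g := Matrix.of fun x' x => if x' = g • x then 1 else 0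
  map_one' := by
    ext x' x
    rw [Matrix.of_apply, Matrix.one_apply, one_smul]
  map_mul' g h := by
    ext x' x
    rw [Matrix.mul_apply, Finset.sum_eq_single (h • x)]
    · rw [Matrix.of_apply, Matrix.of_apply, Matrix.of_apply, if_pos rfl, mul_smul, mul_one]
    · intro v _ hv
      rw [Matrix.of_apply, Matrix.of_apply, if_neg hv, mul_zero]
    · intro h'
      exact absurd (Finset.mem_univ _) h'

lemma permRep_apply (F : Type*) [CommRing F] (Ω : Type*) [Fintype Ω] [DecidableEq Ω]
    [MulAction H Ω] (g : H) (x' x : Ω) :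
    permRep F Ω g x' x = if x' = g • x then 1 else 0 := rfl

/-- All determinants of complex representations are roots of unity. -/
def RootHyp (A : Matrix ι ι (MonoidAlgebra ℤ H)) : Prop :=
  ∀ (k : ℕ) (ρ : H →* Matrix (Fin k) (Fin k) ℂ), ∃ N : ℕ, 0 < N ∧ (mapRep ρ A).det ^ N = 1

/-- The group has an abelian normal subgroup whose quotient is a `p`-group. -/
def QE (p : ℕ) (H : Type*) [Group H] : Prop :=
  ∃ C : Subgroup H, C.Normal ∧ (∀ x ∈ C, ∀ y ∈ C, x * y = y * x) ∧ ∀ h : H, ∃ k : ℕ, h ^ (p ^ k) ∈ C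

/-- Enlarging a matrix by an element `ε γ`. -/
noncomputable def stab (A : Matrix ι ι (MonoidAlgebra ℤ H)) (γ : H) (ε : ℤ) :
    Matrix (ι ⊕ Unit) (ι ⊕ Unit) (MonoidAlgebra ℤ H) :=
  Matrix.fromBlocks A 0 0 (Matrix.of fun _ _ => MonoidAlgebra.single γ ε)

/-- The evaluation of the integral group ring of the abelianization at a one-dimensional
representation. -/
noncomputable def abEval {F : Type*} [CommRing F] (ρ : H →* Matrix (Fin 1) (Fin 1) F) :
    MonoidAlgebra ℤ (Abelianization H) →+* F :=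
  (MonoidAlgebra.lift ℤ F (Abelianization H) ((Units.coeHom F).comp
    (Abelianization.lift (MonoidHom.toHomUnits
      ((Matrix.detMonoidHom (n := Fin 1) (R := F)).comp ρ))))).toRingHom

end defs

section aux

variable {H : Type*} [Group H] {ι : Type*} [Fintype ι] [DecidableEq ι] {F : Type*} [CommRing F]

lemma mapHom_single {κ : Type*} [Fintype κ] [DecidableEq κ] (ρ : H →* Matrix κ κ F) (g : H)
    (m : ℤ) : mapHom ρ (MonoidAlgebra.single g m) = m • ρ g := by
  rw [mapHom, MonoidAlgebra.lift_single]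

lemma kron_mul_apply {κ κ' : Type*} [Fintype κ] [DecidableEq κ] [Fintype κ'] [DecidableEq κ']
    {μ : Type*} (T : Matrix κ' κ F) (N : Matrix (ι × κ) μ F) (x : ι × κ') (y : μ) :
    (Matrix.kroneckerMap (· * ·) (1 : Matrix ι ι F) T * N) x y = ∑ c, T x.2 c * N (x.1, c) y := by
  rw [Matrix.mul_apply, Fintype.sum_prod_type, Finset.sum_eq_single x.1]
  · refine Finset.sum_congr rfl fun c _ => ?_
    rw [Matrix.kroneckerMap_apply, Matrix.one_apply_eq, one_mul]
  · intro i _ hi
    refine Finset.sum_eq_zero fun c _ => ?_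
    rw [Matrix.kroneckerMap_apply, Matrix.one_apply_ne (Ne.symm hi), zero_mul, zero_mul]
  · intro h
    exact absurd (Finset.mem_univ _) h

lemma mul_kron_apply {κ κ' : Type*} [Fintype κ] [DecidableEq κ] [Fintype κ'] [DecidableEq κ']
    {μ : Type*} (T : Matrix κ κ' F) (N : Matrix μ (ι × κ) F) (x : μ) (y : ι × κ') :
    (N * Matrix.kroneckerMap (· * ·) (1 : Matrix ι ι F) T) x y = ∑ c, N x (y.1, c) * T c y.2 := by
  rw [Matrix.mul_apply, Fintype.sum_prod_type, Finset.sum_eq_single y.1]
  · refine Finset.sum_congr rfl fun c _ => ?_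
    rw [Matrix.kroneckerMap_apply, Matrix.one_apply_eq, one_mul]
  · intro i _ hi
    refine Finset.sum_eq_zero fun c _ => ?_
    rw [Matrix.kroneckerMap_apply, Matrix.one_apply_ne hi, zero_mul, mul_zero]
  · intro h
    exact absurd (Finset.mem_univ _) h

lemma kron_mul_kron {κ κ' : Type*} [Fintype κ] [DecidableEq κ] [Fintype κ'] [DecidableEq κ']
    {T : Matrix κ κ' F} {T' : Matrix κ' κ F} (h : T * T' = 1) :
    Matrix.kroneckerMap (· * ·) (1 : Matrix ι ι F) T *
      Matrix.kroneckerMap (· * ·) (1 : Matrix ι ι F) T' = 1 := by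
  ext x y
  rw [kron_mul_apply]
  have h1 : ∀ c, T x.2 c * Matrix.kroneckerMap (· * ·) (1 : Matrix ι ι F) T' (x.1, c) y =
      (1 : Matrix ι ι F) x.1 y.1 * (T x.2 c * T' c y.2) := by
    intro c
    rw [Matrix.kroneckerMap_apply]
    ring
  rw [Finset.sum_congr rfl fun c _ => h1 c, ← Finset.mul_sum, ← Matrix.mul_apply, h,
    Matrix.one_apply, Matrix.one_apply, Matrix.one_apply]
  by_cases h2 : x.1 = y.1
  · by_cases h3 : x.2 = y.2
    · rw [if_pos h2, if_pos h3, if_pos (Prod.ext h2 h3), one_mul]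
    · rw [if_neg h3, if_neg (fun e => h3 (congrArg Prod.snd e)), mul_zero]
  · rw [if_neg h2, if_neg (fun e => h2 (congrArg Prod.fst e)), zero_mul]

lemma mapHom_conj {κ κ' : Type*} [Fintype κ] [DecidableEq κ] [Fintype κ'] [DecidableEq κ']
    {ρ : H →* Matrix κ κ F} {ρ' : H →* Matrix κ' κ' F} {T : Matrix κ κ' F} {T' : Matrix κ' κ F}
    (h : ∀ g, T' * ρ g * T = ρ' g) (x : MonoidAlgebra ℤ H) :
    T' * mapHom ρ x * T = mapHom ρ' x := by
  induction x using MonoidAlgebra.induction_linear with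
  | zero => rw [map_zero, map_zero, Matrix.mul_zero, Matrix.zero_mul]
  | add x y hx hy => rw [map_add, map_add, Matrix.mul_add, Matrix.add_mul, hx, hy]
  | single g m =>
    rw [mapHom_single, mapHom_single, Matrix.mul_smul, Matrix.smul_mul, h g]

end aux

section basic

variable {H : Type*} [Group H] {ι : Type*} [Fintype ι] [DecidableEq ι] {F : Type*} [CommRing F]

/-- Equivalent representations. -/
lemma det_mapRep_equiv {κ κ' : Type*} [Fintype κ] [DecidableEq κ] [Fintype κ'] [DecidableEq κ']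
    {ρ : H →* Matrix κ κ F} {ρ' : H →* Matrix κ' κ' F} {T : Matrix κ κ' F} {T' : Matrix κ' κ F}
    (h1 : T * T' = 1) (h2 : T' * T = 1) (h : ∀ g, T' * ρ g * T = ρ' g)
    (A : Matrix ι ι (MonoidAlgebra ℤ H)) : (mapRep ρ' A).det = (mapRep ρ A).det := by
  have key : mapRep ρ' A = Matrix.kroneckerMap (· * ·) (1 : Matrix ι ι F) T' * mapRep ρ A *
      Matrix.kroneckerMap (· * ·) (1 : Matrix ι ι F) T := by
    ext x y
    rw [mul_kron_apply, mapRep_apply, ← mapHom_conj h, Matrix.mul_apply]
    refine Finset.sum_congr rfl fun c _ => ?_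
    rw [kron_mul_apply, Matrix.mul_apply]
    rfl
  rw [key]
  exact Matrix.det_conj_of_mul_eq_one (kron_mul_kron h2) (kron_mul_kron h1)

/-- Block triangular representations. -/
lemma det_mapRep_block {κ κ₁ κ₂ : Type*} [Fintype κ] [DecidableEq κ] [Fintype κ₁]
    [DecidableEq κ₁] [Fintype κ₂] [DecidableEq κ₂] {ρ : H →* Matrix κ κ F}
    {ρ₁ : H →* Matrix κ₁ κ₁ F} {ρ₂ : H →* Matrix κ₂ κ₂ F} {T : Matrix κ (κ₁ ⊕ κ₂) F}
    {T' : Matrix (κ₁ ⊕ κ₂) κ F} (h1 : T * T' = 1) (h2 : T' * T = 1)
    (h : ∀ g, ∃ X, T' * ρ g * T = Matrix.fromBlocks (ρ₁ g) X 0 (ρ₂ g))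
    (A : Matrix ι ι (MonoidAlgebra ℤ H)) :
    (mapRep ρ A).det = (mapRep ρ₁ A).det * (mapRep ρ₂ A).det := by
  set ρ' : H →* Matrix (κ₁ ⊕ κ₂) (κ₁ ⊕ κ₂) F :=
    { toFun := fun g => T' * ρ g * T
      map_one' := by rw [map_one, Matrix.mul_one, h2]
      map_mul' := fun g k => by
        have : T' * ρ g * T * (T' * ρ k * T) = T' * ρ g * (T * T') * ρ k * T := by
          simp only [Matrix.mul_assoc]
        rw [this, h1, Matrix.mul_one, map_mul, Matrix.mul_assoc T' (ρ g) (ρ k)] } with hρ'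
  rw [← det_mapRep_equiv (ρ' := ρ') h1 h2 (fun g => rfl) A]
  have hx : ∀ x : MonoidAlgebra ℤ H, ∃ X,
      mapHom ρ' x = Matrix.fromBlocks (mapHom ρ₁ x) X 0 (mapHom ρ₂ x) := by
    intro x
    induction x using MonoidAlgebra.induction_linear with
    | zero => exact ⟨0, by rw [map_zero, map_zero, map_zero, Matrix.fromBlocks_zero]⟩
    | add x y hx hy =>
      obtain ⟨X, hX⟩ := hx
      obtain ⟨Y, hY⟩ := hy
      exact ⟨X + Y, by rw [map_add, map_add, map_add, hX, hY, Matrix.fromBlocks_add, add_zero]⟩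
    | single g m =>
      obtain ⟨X, hX⟩ := h g
      refine ⟨m • X, ?_⟩
      rw [mapHom_single, mapHom_single, mapHom_single]
      have : ρ' g = Matrix.fromBlocks (ρ₁ g) X 0 (ρ₂ g) := hX
      rw [this, Matrix.fromBlocks_smul, smul_zero]
  choose X hX using hx
  have key : (mapRep ρ' A).submatrix (Equiv.prodSumDistrib ι κ₁ κ₂).symm
      (Equiv.prodSumDistrib ι κ₁ κ₂).symm = Matrix.fromBlocks (mapRep ρ₁ A)
        (Matrix.of fun x y => X (A x.1 y.1) x.2 y.2) 0 (mapRep ρ₂ A) := by
    ext x y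
    rw [Matrix.submatrix_apply, mapRep_apply, hX]
    rcases x with ⟨i, a⟩ | ⟨i, a⟩ <;> rcases y with ⟨j, b⟩ | ⟨j, b⟩ <;> rfl
  rw [← Matrix.det_submatrix_equiv_self (Equiv.prodSumDistrib ι κ₁ κ₂).symm (mapRep ρ' A), key,
    Matrix.det_fromBlocks_zero₂₁]

lemma resMat_apply (M : Subgroup H) [Fintype (H ⧸ M)] [DecidableEq (H ⧸ M)]
    (A : Matrix ι ι (MonoidAlgebra ℤ H)) (x y : ι × (H ⧸ M)) :
    resMat M A x y = (MonoidAlgebra.lift ℤ (Matrix (H ⧸ M) (H ⧸ M) (MonoidAlgebra ℤ M)) H
      (indHom M (MonoidAlgebra.of ℤ M))) (A x.1 y.1) x.2 y.2 := rfl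

/-- Induction and restriction. -/
lemma det_mapRep_ind (M : Subgroup H) [Fintype (H ⧸ M)] [DecidableEq (H ⧸ M)] {κ : Type*}
    [Fintype κ] [DecidableEq κ] (ρ : M →* Matrix κ κ F) (A : Matrix ι ι (MonoidAlgebra ℤ H)) :
    (mapRep (indRep M ρ) A).det = (mapRep ρ (resMat M A)).det := by
  have hx : ∀ (x : MonoidAlgebra ℤ H) (s t : H ⧸ M) (a b : κ),
      mapHom (indRep M ρ) x (s, a) (t, b) = mapHom ρ ((MonoidAlgebra.lift ℤ
        (Matrix (H ⧸ M) (H ⧸ M) (MonoidAlgebra ℤ M)) H (indHom M (MonoidAlgebra.of ℤ M))) x s t)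
          a b := by
    intro x s t a b
    induction x using MonoidAlgebra.induction_linear with
    | zero => simp
    | add x y hx hy =>
      rw [map_add, map_add, Matrix.add_apply, Matrix.add_apply, map_add, Matrix.add_apply, hx, hy]
    | single g m =>
      rw [mapHom_single, MonoidAlgebra.lift_single, Matrix.smul_apply, Matrix.smul_apply,
        map_zsmul, Matrix.smul_apply, indRep_apply, indHom_apply]
      congr 1
      split_ifs
      · rw [MonoidAlgebra.of_apply, mapHom_single, one_smul]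
      · rw [map_zero, Matrix.zero_apply]
  have key : mapRep (indRep M ρ) A = (mapRep ρ (resMat M A)).submatrix
      (Equiv.prodAssoc ι (H ⧸ M) κ).symm (Equiv.prodAssoc ι (H ⧸ M) κ).symm := by
    ext x y
    rw [mapRep_apply, Matrix.submatrix_apply, mapRep_apply, resMat_apply]
    exact hx _ _ _ _ _
  rw [key, Matrix.det_submatrix_equiv_self]

/-- The tensor product with a transitive permutation representation. -/
lemma det_mapRep_tens_perm (M : Subgroup H) [Fintype (H ⧸ M)] [DecidableEq (H ⧸ M)] {κ : Type*}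
    [Fintype κ] [DecidableEq κ] (ρ : H →* Matrix κ κ F) (A : Matrix ι ι (MonoidAlgebra ℤ H)) :
    (mapRep (tens ρ (permRep F (H ⧸ M))) A).det =
      (mapRep (ρ.comp M.subtype) (resMat M A)).det := by
  rw [← det_mapRep_ind]
  set T : Matrix (κ × (H ⧸ M)) ((H ⧸ M) × κ) F := Matrix.of fun x y =>
    if x.2 = y.1 then ρ y.1.out x.1 y.2 else 0 with hT
  set T' : Matrix ((H ⧸ M) × κ) (κ × (H ⧸ M)) F := Matrix.of fun x y =>
    if x.1 = y.2 then ρ x.1.out⁻¹ x.2 y.1 else 0 with hT'
  have mulT : ∀ {μ : Type _} (N : Matrix μ (κ × (H ⧸ M)) F) (x : μ) (y : (H ⧸ M) × κ),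
      (N * T) x y = ∑ c, N x (c, y.1) * ρ y.1.out c y.2 := by
    intro μ N x y
    rw [Matrix.mul_apply, Fintype.sum_prod_type]
    refine Finset.sum_congr rfl fun c _ => ?_
    rw [Finset.sum_eq_single y.1]
    · rw [hT, Matrix.of_apply, if_pos rfl]
    · intro s _ hs
      rw [hT, Matrix.of_apply, if_neg hs, mul_zero]
    · intro h; exact absurd (Finset.mem_univ _) h
  have Tmul : ∀ {μ : Type _} (N : Matrix (κ × (H ⧸ M)) μ F) (x : (H ⧸ M) × κ) (y : μ),
      (T' * N) x y = ∑ c, ρ x.1.out⁻¹ x.2 c * N (c, x.1) y := by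
    intro μ N x y
    rw [Matrix.mul_apply, Fintype.sum_prod_type]
    refine Finset.sum_congr rfl fun c _ => ?_
    rw [Finset.sum_eq_single x.1]
    · rw [hT', Matrix.of_apply, if_pos rfl]
    · intro s _ hs
      rw [hT', Matrix.of_apply, if_neg (Ne.symm hs), zero_mul]
    · intro h; exact absurd (Finset.mem_univ _) h
  have h2 : T' * T = 1 := by
    ext x y
    rw [mulT]
    have e1 : ∀ c, T' x (c, y.1) * ρ y.1.out c y.2 =
        if x.1 = y.1 then ρ x.1.out⁻¹ x.2 c * ρ y.1.out c y.2 else 0 := by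
      intro c
      rw [hT', Matrix.of_apply]
      split_ifs
      · rfl
      · rw [zero_mul]
    rw [Finset.sum_congr rfl fun c _ => e1 c]
    by_cases h : x.1 = y.1
    · rw [Finset.sum_congr rfl fun c _ => if_pos h, ← Matrix.mul_apply, h, ← map_mul,
        inv_mul_cancel, map_one, Matrix.one_apply, Matrix.one_apply]
      by_cases h' : x.2 = y.2
      · rw [if_pos h', if_pos (Prod.ext h h')]
      · rw [if_neg h', if_neg (fun e => h' (congrArg Prod.snd e))]
    · rw [Finset.sum_congr rfl fun c _ => if_neg h, Finset.sum_const_zero,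
        Matrix.one_apply_ne (fun e => h (congrArg Prod.fst e))]
  have h1 : T * T' = 1 := by
    ext x y
    rw [Matrix.mul_apply, Fintype.sum_prod_type, Finset.sum_eq_single x.2]
    · have e1 : ∀ c, T x (x.2, c) * T' (x.2, c) y =
          if x.2 = y.2 then ρ x.2.out x.1 c * ρ x.2.out⁻¹ c y.1 else 0 := by
        intro c
        rw [hT, hT', Matrix.of_apply, Matrix.of_apply, if_pos rfl]
        split_ifs
        · rfl
        · rw [mul_zero]
      rw [Finset.sum_congr rfl fun c _ => e1 c]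
      by_cases h : x.2 = y.2
      · rw [Finset.sum_congr rfl fun c _ => if_pos h, ← Matrix.mul_apply, ← map_mul,
          mul_inv_cancel, map_one, Matrix.one_apply, Matrix.one_apply]
        by_cases h' : x.1 = y.1
        · rw [if_pos h', if_pos (Prod.ext h' h)]
        · rw [if_neg h', if_neg (fun e => h' (congrArg Prod.fst e))]
      · rw [Finset.sum_congr rfl fun c _ => if_neg h, Finset.sum_const_zero,
          Matrix.one_apply_ne (fun e => h (congrArg Prod.snd e))]
    · intro s _ hs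
      refine Finset.sum_eq_zero fun c _ => ?_
      rw [hT, Matrix.of_apply, if_neg (Ne.symm hs), zero_mul]
    · intro h; exact absurd (Finset.mem_univ _) h
  refine (det_mapRep_equiv h1 h2 (fun g => ?_) A).symm
  ext x y
  rw [mulT, indRep_apply]
  have e1 : ∀ c, (T' * tens ρ (permRep F (H ⧸ M)) g) x (c, y.1) * ρ y.1.out c y.2 =
      if x.1 = g • y.1 then (∑ d, ρ x.1.out⁻¹ x.2 d * ρ g d c) * ρ y.1.out c y.2 else 0 := by
    intro c
    rw [Tmul]
    have e2 : ∀ d, ρ x.1.out⁻¹ x.2 d * tens ρ (permRep F (H ⧸ M)) g (d, x.1) (c, y.1) =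
        if x.1 = g • y.1 then ρ x.1.out⁻¹ x.2 d * ρ g d c else 0 := by
      intro d
      rw [tens_apply, permRep_apply]
      split_ifs
      · rw [mul_one]
      · rw [mul_zero, mul_zero]
    rw [Finset.sum_congr rfl fun d _ => e2 d]
    split_ifs
    · rfl
    · rw [Finset.sum_const_zero, zero_mul]
  rw [Finset.sum_congr rfl fun c _ => e1 c]
  by_cases h : x.1 = g • y.1
  · rw [Finset.sum_congr rfl fun c _ => if_pos h, if_pos h]
    have e3 : ∀ c, (∑ d, ρ x.1.out⁻¹ x.2 d * ρ g d c) * ρ y.1.out c y.2 =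
        (ρ x.1.out⁻¹ * ρ g) x.2 c * ρ y.1.out c y.2 := fun c => rfl
    rw [Finset.sum_congr rfl fun c _ => e3 c, ← Matrix.mul_apply, ← map_mul, ← map_mul, h]
    rfl
  · rw [Finset.sum_congr rfl fun c _ => if_neg h, if_neg h, Finset.sum_const_zero]

lemma rootHyp_res (M : Subgroup H) [Fintype (H ⧸ M)] [DecidableEq (H ⧸ M)]
    {A : Matrix ι ι (MonoidAlgebra ℤ H)} (hA : RootHyp A) : RootHyp (resMat M A) := by
  intro k ρ
  obtain ⟨N, hN0, hN⟩ := hA _ (reRep (Fintype.equivFin ((H ⧸ M) × Fin k)) (indRep M ρ))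
  rw [det_reRep, det_mapRep_ind] at hN
  exact ⟨N, hN0, hN⟩

lemma abEval_single (ρ : H →* Matrix (Fin 1) (Fin 1) F) (h : H) (a : ℤ) :
    abEval ρ (MonoidAlgebra.single (Abelianization.of h) a) = (a : F) * (ρ h).det := by
  rw [abEval]
  change (MonoidAlgebra.lift ℤ F (Abelianization H) _) _ = _
  rw [MonoidAlgebra.lift_single, zsmul_eq_mul]
  rfl

/-- One-dimensional representations. -/
lemma det_mapRep_fin_one (ρ : H →* Matrix (Fin 1) (Fin 1) F) (A : Matrix ι ι (MonoidAlgebra ℤ H)) :
    (mapRep ρ A).det = abEval ρ (uEl A) := by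
  have hx : ∀ x : MonoidAlgebra ℤ H,
      abEval ρ (MonoidAlgebra.mapDomainRingHom ℤ (Abelianization.of (G := H)) x) =
        mapHom ρ x 0 0 := by
    intro x
    induction x using MonoidAlgebra.induction_linear with
    | zero => simp
    | add x y hx hy => rw [map_add, map_add, map_add, Matrix.add_apply, hx, hy]
    | single g m =>
      have e1 : MonoidAlgebra.mapDomainRingHom ℤ (Abelianization.of (G := H))
          (MonoidAlgebra.single g m) = MonoidAlgebra.single (Abelianization.of g) m :=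
        MonoidAlgebra.mapDomain_single
      rw [e1, abEval_single, mapHom_single, Matrix.smul_apply, zsmul_eq_mul,
        Matrix.det_fin_one]
  have key : mapRep ρ A = ((abEval ρ).mapMatrix (mapMat (Abelianization.of (G := H)) A)).submatrix
      (Equiv.prodUnique ι (Fin 1)) (Equiv.prodUnique ι (Fin 1)) := by
    ext x y
    rw [mapRep_apply, Matrix.submatrix_apply]
    have e1 : x.2 = 0 := Subsingleton.elim _ _
    have e2 : y.2 = 0 := Subsingleton.elim _ _
    rw [e1, e2]
    exact (hx _).symm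
  rw [key, Matrix.det_submatrix_equiv_self, uEl, RingHom.map_det]

lemma stab_mul {A B : Matrix ι ι (MonoidAlgebra ℤ H)} (hAB : A * B = 1) (γ : H) {ε : ℤ}
    (hε : ε = 1 ∨ ε = -1) : stab A γ ε * stab B γ⁻¹ ε = 1 := by
  have h1 : (Matrix.of fun _ _ : Unit => MonoidAlgebra.single γ ε : Matrix Unit Unit
      (MonoidAlgebra ℤ H)) * (Matrix.of fun _ _ : Unit => MonoidAlgebra.single γ⁻¹ ε) = 1 := by
    ext i j : 1
    rw [Matrix.mul_apply, Subsingleton.elim j i, Matrix.one_apply_eq]
    simp only [Finset.univ_unique, Finset.sum_const, Finset.card_singleton, one_smul,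
      Matrix.of_apply]
    rw [MonoidAlgebra.single_mul_single, mul_inv_cancel]
    rcases hε with h | h
    · rw [h, one_mul]; rfl
    · rw [h, neg_mul_neg, one_mul]; rfl
  rw [stab, stab, Matrix.fromBlocks_multiply, hAB, h1, Matrix.mul_zero, Matrix.zero_mul,
    Matrix.mul_zero, Matrix.zero_mul, Matrix.mul_zero, Matrix.zero_mul, add_zero, add_zero,
    zero_add (1 : Matrix Unit Unit (MonoidAlgebra ℤ H)), add_zero, Matrix.fromBlocks_one]

lemma uEl_stab (A : Matrix ι ι (MonoidAlgebra ℤ H)) (γ : H) (ε : ℤ) :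
    uEl (stab A γ ε) = uEl A * MonoidAlgebra.single (Abelianization.of γ) ε := by
  have h : mapMat (Abelianization.of (G := H)) (stab A γ ε) =
      Matrix.fromBlocks (mapMat (Abelianization.of (G := H)) A) 0 0
        (Matrix.of fun _ _ : Unit => MonoidAlgebra.single (Abelianization.of γ) ε) := by
    ext x y : 1
    rcases x with i | i <;> rcases y with j | j
    · rfl
    · exact map_zero (MonoidAlgebra.mapDomainRingHom ℤ (Abelianization.of (G := H)))
    · exact map_zero (MonoidAlgebra.mapDomainRingHom ℤ (Abelianization.of (G := H)))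
    · exact MonoidAlgebra.mapDomain_single
  rw [uEl, h, Matrix.det_fromBlocks_zero₂₁, Matrix.det_unique (n := Unit), Matrix.of_apply, uEl]

lemma det_mapRep_stab {κ : Type*} [Fintype κ] [DecidableEq κ] (ρ : H →* Matrix κ κ F)
    (A : Matrix ι ι (MonoidAlgebra ℤ H)) (γ : H) (ε : ℤ) :
    (mapRep ρ (stab A γ ε)).det =
      (mapRep ρ A).det * ((ε : F) ^ Fintype.card κ * (ρ γ).det) := by
  have h : (mapRep ρ (stab A γ ε)).submatrix (Equiv.sumProdDistrib ι Unit κ).symm
      (Equiv.sumProdDistrib ι Unit κ).symm = Matrix.fromBlocks (mapRep ρ A) 0 0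
        (((ε : F) • ρ γ).submatrix (Equiv.punitProd κ) (Equiv.punitProd κ)) := by
    ext x y
    rcases x with ⟨i, a⟩ | ⟨i, a⟩ <;> rcases y with ⟨j, b⟩ | ⟨j, b⟩
    · rfl
    · change mapHom ρ 0 a b = 0
      rw [map_zero, Matrix.zero_apply]
    · change mapHom ρ 0 a b = 0
      rw [map_zero, Matrix.zero_apply]
    · change mapHom ρ (MonoidAlgebra.single γ ε) a b = ((ε : F) • ρ γ) a b
      rw [mapHom_single, Matrix.smul_apply, Matrix.smul_apply, zsmul_eq_mul, smul_eq_mul]
  rw [← Matrix.det_submatrix_equiv_self (Equiv.sumProdDistrib ι Unit κ).symm, h,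
    Matrix.det_fromBlocks_zero₂₁, Matrix.det_submatrix_equiv_self, Matrix.det_smul]

lemma rootHyp_stab [Finite H] {A : Matrix ι ι (MonoidAlgebra ℤ H)} (hA : RootHyp A) (γ : H)
    {ε : ℤ} (hε : ε = 1 ∨ ε = -1) : RootHyp (stab A γ ε) := by
  intro k ρ
  obtain ⟨N, hN0, hN⟩ := hA k ρ
  refine ⟨N * (2 * orderOf γ), by
    have := orderOf_pos γ
    positivity, ?_⟩
  rw [det_mapRep_stab, mul_pow, mul_pow, pow_mul _ N, hN, one_pow, one_mul]
  have h1 : ((ε : ℂ) ^ Fintype.card (Fin k)) ^ (N * (2 * orderOf γ)) = 1 := by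
    have h2 : (ε : ℂ) ^ 2 = 1 := by
      rcases hε with h | h
      · rw [h]; simp
      · rw [h]; simp
    have : ((ε : ℂ) ^ Fintype.card (Fin k)) ^ (N * (2 * orderOf γ)) =
        ((ε : ℂ) ^ 2) ^ (Fintype.card (Fin k) * N * orderOf γ) := by
      rw [← pow_mul, ← pow_mul]; congr 1; ring
    rw [this, h2, one_pow]
  have h3 : (ρ γ).det ^ (N * (2 * orderOf γ)) = 1 := by
    have : (ρ γ).det ^ (N * (2 * orderOf γ)) = ((ρ γ).det ^ orderOf γ) ^ (N * 2) := by
      rw [← pow_mul]; congr 1; ring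
    rw [this, ← Matrix.det_pow, ← map_pow, pow_orderOf_eq_one, map_one, Matrix.det_one, one_pow]
  rw [h1, h3, one_mul]

/-- Change of groups. -/
lemma mapRep_mapMat {Q : Type*} [Group Q] (π : H →* Q) {κ : Type*} [Fintype κ] [DecidableEq κ]
    (ρ : Q →* Matrix κ κ F) (A : Matrix ι ι (MonoidAlgebra ℤ H)) :
    mapRep ρ (mapMat π A) = mapRep (ρ.comp π) A := by
  have hx : ∀ x : MonoidAlgebra ℤ H,
      mapHom ρ (MonoidAlgebra.mapDomainRingHom ℤ π x) = mapHom (ρ.comp π) x := by
    intro x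
    induction x using MonoidAlgebra.induction_linear with
    | zero => simp
    | add x y hx hy => rw [map_add, map_add, map_add, hx, hy]
    | single g m =>
      have e1 : MonoidAlgebra.mapDomainRingHom ℤ π
          (MonoidAlgebra.single g m) = MonoidAlgebra.single (π g) m :=
        MonoidAlgebra.mapDomain_single
      rw [e1, mapHom_single, mapHom_single]
      rfl
  ext x y
  rw [mapRep_apply, mapRep_apply, ← hx]
  rfl

lemma uEl_mapMat {Q : Type*} [Group Q] (π : H →* Q) (A : Matrix ι ι (MonoidAlgebra ℤ H)) :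
    uEl (mapMat π A) = MonoidAlgebra.mapDomainRingHom ℤ (Abelianization.map π) (uEl A) := by
  have hx : ∀ x : MonoidAlgebra ℤ H,
      MonoidAlgebra.mapDomainRingHom ℤ (Abelianization.of (G := Q))
        (MonoidAlgebra.mapDomainRingHom ℤ π x) =
      MonoidAlgebra.mapDomainRingHom ℤ (Abelianization.map π)
        (MonoidAlgebra.mapDomainRingHom ℤ (Abelianization.of (G := H)) x) := by
    intro x
    induction x using MonoidAlgebra.induction_linear with
    | zero => simp
    | add x y hx hy => rw [map_add, map_add, map_add, map_add, hx, hy]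
    | single g m =>
      have e1 : MonoidAlgebra.mapDomainRingHom ℤ π
          (MonoidAlgebra.single g m) = MonoidAlgebra.single (π g) m :=
        MonoidAlgebra.mapDomain_single
      have e2 : MonoidAlgebra.mapDomainRingHom ℤ (Abelianization.of (G := Q))
          (MonoidAlgebra.single (π g) m) = MonoidAlgebra.single (Abelianization.of (π g)) m :=
        MonoidAlgebra.mapDomain_single
      have e3 : MonoidAlgebra.mapDomainRingHom ℤ (Abelianization.of (G := H))
          (MonoidAlgebra.single g m) = MonoidAlgebra.single (Abelianization.of g) m :=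
        MonoidAlgebra.mapDomain_single
      have e4 : MonoidAlgebra.mapDomainRingHom ℤ (Abelianization.map π)
          (MonoidAlgebra.single (Abelianization.of g) m) =
            MonoidAlgebra.single (Abelianization.map π (Abelianization.of g)) m :=
        MonoidAlgebra.mapDomain_single
      rw [e1, e2, e3, e4, Abelianization.map_of]
  rw [uEl, uEl, RingHom.map_det]
  congr 1
  ext i j : 1
  exact hx (A i j)

end basic

end Pool.Agent.Lib.MP_8f66f0_al_Wall
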