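import Mathlib
import Pool.Agent.Lib.MP_8f66f0_al_Wall.Basic

/-! Units of the integral group ring of a finite abelian group all of whose values are roots of
unity. -/

set_option autoImplicit false
set_option linter.unusedSectionVars false

namespace Pool.Agent.Lib.MP_8f66f0_al_Wall

open Pool.Agent.Lib.MP_8f66f0_al_Dennis Pool.Agent.Lib.MP_8f66f0_al_FinQ
open Pool.Agent.Lib.MP_8f66f0_al_Plus

/-- An additive character of the additive version of `X`, as a homomorphism on `X`. -/
noncomputable def higmanHom {X : Type*} [CommGroup X] (ψ : AddChar (Additive X) ℂ) : X →* ℂ where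
  toFun x := ψ (Additive.ofMul x)
  map_one' := by rw [ofMul_one]; exact AddChar.map_zero_eq_one ψ
  map_mul' x y := by rw [ofMul_mul]; exact AddChar.map_add_eq_mul ψ _ _

/-- Parseval for integral group rings. -/
theorem higman_parseval {X : Type*} [CommGroup X] [Fintype X] (u : MonoidAlgebra ℤ X) :
    ∑ ψ : AddChar (Additive X) ℂ, (MonoidAlgebra.lift ℤ ℂ X (higmanHom ψ) u *
      (starRingEnd ℂ) (MonoidAlgebra.lift ℤ ℂ X (higmanHom ψ) u)) =
      (Fintype.card X : ℂ) * ((∑ x : X, u.coeff x ^ 2 : ℤ) : ℂ) := by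
  classical
  have hval : ∀ ψ : AddChar (Additive X) ℂ, MonoidAlgebra.lift ℤ ℂ X (higmanHom ψ) u =
      ∑ x : X, (u.coeff x : ℂ) * ψ (Additive.ofMul x) := by
    intro ψ
    rw [MonoidAlgebra.lift_apply, Finsupp.sum_fintype]
    · refine Finset.sum_congr rfl fun x _ => ?_
      rw [zsmul_eq_mul]
      rfl
    · intro x
      rw [zero_smul]
  have hprod : ∀ ψ : AddChar (Additive X) ℂ, (MonoidAlgebra.lift ℤ ℂ X (higmanHom ψ) u *
      (starRingEnd ℂ) (MonoidAlgebra.lift ℤ ℂ X (higmanHom ψ) u)) =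
      ∑ x : X, ∑ y : X, (u.coeff x : ℂ) * (u.coeff y : ℂ) *
        ψ (Additive.ofMul x - Additive.ofMul y) := by
    intro ψ
    rw [hval, map_sum, Finset.sum_mul_sum]
    refine Finset.sum_congr rfl fun x _ => Finset.sum_congr rfl fun y _ => ?_
    rw [map_mul, map_intCast, sub_eq_add_neg, AddChar.map_add_eq_mul,
      AddChar.map_neg_eq_conj]
    ring
  rw [Finset.sum_congr rfl fun ψ _ => hprod ψ, Finset.sum_comm]
  have h1 : ∀ x : X, ∑ ψ : AddChar (Additive X) ℂ, ∑ y : X, (u.coeff x : ℂ) * (u.coeff y : ℂ) *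
      ψ (Additive.ofMul x - Additive.ofMul y) = (Fintype.card X : ℂ) * (u.coeff x : ℂ) ^ 2 := by
    intro x
    rw [Finset.sum_comm, Finset.sum_eq_single x]
    · rw [← Finset.mul_sum, AddChar.sum_apply_eq_ite, if_pos (sub_self _)]
      rw [show Fintype.card (Additive X) = Fintype.card X from Fintype.card_congr Additive.toMul]
      ring
    · intro y _ hy
      rw [← Finset.mul_sum, AddChar.sum_apply_eq_ite, if_neg, mul_zero]
      intro h
      exact hy (Additive.ofMul.injective (sub_eq_zero.mp h)).symm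
    · intro h; exact absurd (Finset.mem_univ _) h
  rw [Finset.sum_congr rfl fun x _ => h1 x, ← Finset.mul_sum]
  push_cast
  rfl

/-- Higman. Proof: let `u' = ∑ u_x x⁻¹`. For every character `ψ` the value `ψ u'` is the complex
conjugate of `ψ u`, so `ψ (u u') = |ψ u| ^ 2 = 1`; the characters separate the elements of the
complex group algebra of a finite abelian group, so `u u' = 1` and the coefficient at `1` is
`∑ u_x ^ 2 = 1`. -/
theorem higman {X : Type*} [CommGroup X] [Finite X] (u : MonoidAlgebra ℤ X)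
    (hu : ∀ ψ : X →* ℂ, ∃ N : ℕ, 0 < N ∧ (MonoidAlgebra.lift ℤ ℂ X ψ u) ^ N = 1) :
    ∃ x : X, u = MonoidAlgebra.single x 1 ∨ u = MonoidAlgebra.single x (-1) := by
  classical
  have : Fintype X := Fintype.ofFinite X
  have h1 : ∀ ψ : AddChar (Additive X) ℂ, (MonoidAlgebra.lift ℤ ℂ X (higmanHom ψ) u *
      (starRingEnd ℂ) (MonoidAlgebra.lift ℤ ℂ X (higmanHom ψ) u)) = 1 := by
    intro ψ
    obtain ⟨N, hN, hN1⟩ := hu (higmanHom ψ)
    have h2 : ‖MonoidAlgebra.lift ℤ ℂ X (higmanHom ψ) u‖ = 1 :=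
      Complex.norm_eq_one_of_pow_eq_one hN1 hN.ne'
    rw [Complex.mul_conj, Complex.normSq_eq_norm_sq, h2]
    norm_num
  have h3 := higman_parseval u
  rw [Finset.sum_congr rfl fun ψ _ => h1 ψ, Finset.sum_const, Finset.card_univ, AddChar.card_eq,
    show Fintype.card (Additive X) = Fintype.card X from Fintype.card_congr Additive.toMul,
    nsmul_eq_mul, mul_one] at h3
  have hcard : (Fintype.card X : ℂ) ≠ 0 := by
    rw [Nat.cast_ne_zero]
    exact Fintype.card_ne_zero
  have h4 : ((∑ x : X, u.coeff x ^ 2 : ℤ) : ℂ) = 1 := by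
    have h5 : (Fintype.card X : ℂ) * ((∑ x : X, u.coeff x ^ 2 : ℤ) : ℂ) =
        (Fintype.card X : ℂ) * 1 := by rw [← h3, mul_one]
    exact mul_left_cancel₀ hcard h5
  have h6 : (∑ x : X, u.coeff x ^ 2 : ℤ) = 1 := by exact_mod_cast h4
  obtain ⟨x, hx⟩ : ∃ x, u.coeff x ≠ 0 := by
    by_contra hcon
    push Not at hcon
    rw [Finset.sum_congr rfl fun x _ => by rw [hcon x]] at h6
    simp at h6
  have h7 : u.coeff x ^ 2 + ∑ y ∈ Finset.univ.erase x, u.coeff y ^ 2 = 1 := by
    rw [← h6]
    exact Finset.add_sum_erase Finset.univ (fun y => u.coeff y ^ 2) (Finset.mem_univ x)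
  have h8 : 1 ≤ u.coeff x ^ 2 := by
    have : 0 < u.coeff x ^ 2 := by positivity
    omega
  have h9 : ∑ y ∈ Finset.univ.erase x, u.coeff y ^ 2 = 0 := by
    have : 0 ≤ ∑ y ∈ Finset.univ.erase x, u.coeff y ^ 2 :=
      Finset.sum_nonneg fun y _ => sq_nonneg _
    omega
  have h10 : ∀ y, y ≠ x → u.coeff y = 0 := by
    intro y hy
    have := (Finset.sum_eq_zero_iff_of_nonneg fun z _ => sq_nonneg (u.coeff z)).mp h9 y
      (Finset.mem_erase.mpr ⟨hy, Finset.mem_univ y⟩)
    exact pow_eq_zero_iff two_ne_zero |>.mp this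
  have h11 : u.coeff x ^ 2 = 1 := by omega
  have h12 : u = MonoidAlgebra.single x (u.coeff x) := by
    apply MonoidAlgebra.ext
    ext y
    rw [MonoidAlgebra.coeff_single, Finsupp.single_apply]
    split_ifs with h
    · rw [h]
    · exact h10 y (Ne.symm h)
  refine ⟨x, ?_⟩
  rcases sq_eq_one_iff.mp h11 with h | h
  · left; rw [h12, h]
  · right; rw [h12, h]

/-- The determinant over the abelianization is trivial when all complex determinants are roots of
unity. (`det_mapRep_fin_one`: a character `ψ` of the abelianization gives the one-dimensional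
representation `g ↦ ψ [g]`, and its determinant on `A` is the value of `ψ` at `uEl A`.) -/
theorem uEl_eq_single {H : Type*} [Group H] [Finite H] {ι : Type*} [Fintype ι] [DecidableEq ι]
    {A : Matrix ι ι (MonoidAlgebra ℤ H)} (hroot : RootHyp A) :
    ∃ (h : H) (ε : ℤ), (ε = 1 ∨ ε = -1) ∧
      uEl A = MonoidAlgebra.single (Abelianization.of h) ε := by
  have h1 : ∃ x : Abelianization H, uEl A = MonoidAlgebra.single x 1 ∨
      uEl A = MonoidAlgebra.single x (-1) := by
    apply higman
    intro ψ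
    let ρ : H →* Matrix (Fin 1) (Fin 1) ℂ :=
      { toFun := fun g => Matrix.of fun _ _ => ψ (Abelianization.of g)
        map_one' := by
          ext i j
          rw [Matrix.of_apply, map_one, map_one, Subsingleton.elim i j, Matrix.one_apply_eq]
        map_mul' := fun g h => by
          ext i j
          rw [Matrix.of_apply, map_mul, map_mul, Matrix.mul_apply]
          simp }
    obtain ⟨N, hN, hN1⟩ := hroot 1 ρ
    refine ⟨N, hN, ?_⟩
    rw [det_mapRep_fin_one] at hN1
    have h2 : (Units.coeHom ℂ).comp (Abelianization.lift (MonoidHom.toHomUnits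
      ((Matrix.detMonoidHom (n := Fin 1) (R := ℂ)).comp ρ))) = ψ := by
      refine MonoidHom.ext fun x => ?_
      obtain ⟨h, rfl⟩ := QuotientGroup.mk_surjective x
      change ((Abelianization.lift (MonoidHom.toHomUnits
        ((Matrix.detMonoidHom (n := Fin 1) (R := ℂ)).comp ρ)) (Abelianization.of h) : ℂˣ) : ℂ) =
        ψ (Abelianization.of h)
      rw [Abelianization.lift_apply_of]
      change (ρ h).det = _
      rw [Matrix.det_fin_one]
      rfl
    unfold abEval at hN1
    rw [h2] at hN1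
    exact hN1
  obtain ⟨x, hx⟩ := h1
  obtain ⟨h, rfl⟩ := QuotientGroup.mk_surjective x
  rcases hx with hx | hx
  · exact ⟨h, 1, Or.inl rfl, hx⟩
  · exact ⟨h, -1, Or.inr rfl, hx⟩

end Pool.Agent.Lib.MP_8f66f0_al_Wall
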