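import Mathlib
import Pool.Agent.Lib.MP_8f66f0_al_Wall.Higman

/-! The determinant over the abelianization of a finitely generated group. -/

set_option autoImplicit false
set_option linter.unusedSectionVars false

namespace Pool.Agent.Lib.MP_8f66f0_al_Wall

open Pool.Agent.Lib.MP_8f66f0_al_Dennis Pool.Agent.Lib.MP_8f66f0_al_FinQ
open Pool.Agent.Lib.MP_8f66f0_al_Plus

/-- Finitely generated abelian groups are residually finite. -/
theorem exists_finite_index_not_mem {X : Type*} [CommGroup X] [Group.FG X] {x : X} (hx : x ≠ 1) :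
    ∃ N : Subgroup X, N.FiniteIndex ∧ x ∉ N := by
  have hn1 : orderOf x ≠ 1 := by rwa [Ne, orderOf_eq_one_iff]
  obtain ⟨p, hp, hpn⟩ : ∃ p : ℕ, p.Prime ∧ p ∣ orderOf x :=
    ⟨_, Nat.minFac_prime hn1, Nat.minFac_dvd _⟩
  by_contra hcon
  push Not at hcon
  have hfin : ∀ i : ℕ, (powMonoidHom (p ^ i) : X →* X).range.FiniteIndex := fun i =>
    Subgroup.finiteIndex_range_powMonoidHom_of_fg X (pow_pos hp.pos i).ne'
  have key : Additive.ofMul x ∈
      (⨅ i : ℕ, (Ideal.span {(p : ℤ)}) ^ i • ⊤ : Submodule ℤ (Additive X)) := by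
    rw [Submodule.mem_iInf]
    intro i
    obtain ⟨y, hy⟩ := hcon _ (hfin i)
    have h1 : Additive.ofMul x = ((p : ℤ) ^ i) • Additive.ofMul y := by
      rw [← hy, powMonoidHom_apply, ofMul_pow, ← Nat.cast_pow, natCast_zsmul]
    rw [h1]
    exact Submodule.smul_mem_smul (Ideal.pow_mem_pow (Ideal.mem_span_singleton_self _) i)
      Submodule.mem_top
  have : Module.Finite ℤ (Additive X) := Module.Finite.iff_addGroup_fg.mpr inferInstance
  rw [Ideal.mem_iInf_smul_pow_eq_bot_iff] at key
  obtain ⟨⟨r, hr⟩, hrx⟩ := key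
  rw [Ideal.mem_span_singleton] at hr
  have h2 : x ^ (r - 1) = 1 := by
    apply Additive.ofMul.injective
    rw [ofMul_zpow, ofMul_one, sub_smul, one_smul, sub_eq_zero]
    exact hrx
  have h3 : (orderOf x : ℤ) ∣ r - 1 := orderOf_dvd_iff_zpow_eq_one.2 h2
  have h4 : (p : ℤ) ∣ r - 1 := (Int.natCast_dvd_natCast.2 hpn).trans h3
  have h5 : (p : ℤ) ∣ 1 := by
    have := dvd_sub hr h4
    simpa using this
  have h6 : p ∣ 1 := by exact_mod_cast h5
  exact hp.one_lt.ne' (Nat.dvd_one.1 h6)

/-- A finite set of a finitely generated abelian group injects into a finite quotient. -/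
theorem exists_finite_index_sep {X : Type*} [CommGroup X] [Group.FG X] (S : Finset X) :
    ∃ N : Subgroup X, N.FiniteIndex ∧ ∀ x ∈ S, ∀ y ∈ S, x⁻¹ * y ∈ N → x = y := by
  classical
  have h : ∀ q : X × X, ∃ N : Subgroup X, N.FiniteIndex ∧ (q.1 ≠ q.2 → q.1⁻¹ * q.2 ∉ N) := by
    rintro ⟨x, y⟩
    by_cases hxy : x = y
    · exact ⟨⊤, inferInstance, fun h => absurd hxy h⟩
    · obtain ⟨N, hN, hx⟩ := exists_finite_index_not_mem (x := x⁻¹ * y) (by
        rwa [Ne, inv_mul_eq_one])
      exact ⟨N, hN, fun _ => hx⟩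
  choose N hN hx using h
  refine ⟨⨅ q ∈ S ×ˢ S, N q, Subgroup.finiteIndex_iInf' _ fun q _ => hN q, ?_⟩
  intro x hxS y hyS hmem
  by_contra hne
  rw [Subgroup.mem_iInf] at hmem
  have h1 := hmem (x, y)
  rw [Subgroup.mem_iInf] at h1
  exact hx (x, y) hne (h1 (Finset.mem_product.2 ⟨hxS, hyS⟩))

/-- An element of a group ring with an injective image `± single` is `± single`. -/
theorem eq_single_of_mapDomain {X Y : Type*} {f : X → Y} {u : X →₀ ℤ}
    (hinj : ∀ x ∈ u.support, ∀ y ∈ u.support, f x = f y → x = y) {h : Y} {ε : ℤ}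
    (hε : ε ≠ 0) (hu : Finsupp.mapDomain f u = Finsupp.single h ε) :
    ∃ x : X, u = Finsupp.single x ε := by
  classical
  have hinj' : Set.InjOn f (u.support : Set X) := fun x hx y hy hxy =>
    hinj x (Finset.mem_coe.1 hx) y (Finset.mem_coe.1 hy) hxy
  have hval : ∀ x ∈ u.support, (Finsupp.mapDomain f u) (f x) = u x := by
    intro x hx
    rw [Finsupp.mapDomain, Finsupp.sum_apply, Finsupp.sum, Finset.sum_eq_single x]
    · rw [Finsupp.single_eq_same]
    · intro y hy hyx
      rw [Finsupp.single_apply, if_neg]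
      exact fun h => hyx (hinj y hy x hx h)
    · intro h
      rw [Finsupp.notMem_support_iff] at h
      rw [h, Finsupp.single_zero, Finsupp.zero_apply]
  have hfx : ∀ x ∈ u.support, f x = h ∧ u x = ε := by
    intro x hx
    have h1 := hval x hx
    rw [hu, Finsupp.single_apply] at h1
    have h2 : u x ≠ 0 := Finsupp.mem_support_iff.1 hx
    by_cases hh : h = f x
    · rw [if_pos hh] at h1
      exact ⟨hh.symm, h1.symm⟩
    · rw [if_neg hh] at h1
      exact absurd h1.symm h2
  have hne : u ≠ 0 := by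
    rintro rfl
    rw [Finsupp.mapDomain_zero] at hu
    exact hε (Finsupp.single_eq_zero.1 hu.symm)
  obtain ⟨x, hx⟩ := Finsupp.support_nonempty_iff.2 hne
  refine ⟨x, ?_⟩
  ext y
  rw [Finsupp.single_apply]
  by_cases hxy : x = y
  · subst hxy
    rw [if_pos rfl]
    exact (hfx x hx).2
  · rw [if_neg hxy]
    by_contra hy
    have hy' : y ∈ u.support := Finsupp.mem_support_iff.2 hy
    exact hxy (hinj x hx y hy' ((hfx x hx).1.trans (hfx y hy').1.symm))

/-- The determinant over the abelianization is `± γ` if this is so in all finite quotients.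
Proof. Let `u = uEl A`, let `N` be a subgroup of finite index of the abelianization which does not
contain `x y⁻¹` for distinct `x, y` in the support of `u`, and `N'` its preimage in `Γ`. The image
of `u` in the integral group ring of the abelianization of `Γ ⧸ N'` is `uEl` of the image of `A`
(`uEl_mapMat`), so it is `± single` by `uEl_eq_single`, and the support of `u` injects; so the
support has one element and the coefficient is `± 1`. -/
theorem exists_unit {Γ : Type*} [Group Γ] [Group.FG Γ] {ι : Type*} [Fintype ι] [DecidableEq ι]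
    {A : Matrix ι ι (MonoidAlgebra ℤ Γ)}
    (hroot : ∀ (N : Subgroup Γ) [N.Normal] [N.FiniteIndex],
      RootHyp (mapMat (QuotientGroup.mk' N) A)) :
    ∃ (γ : Γ) (ε : ℤ), (ε = 1 ∨ ε = -1) ∧
      uEl A = MonoidAlgebra.single (Abelianization.of γ) ε := by
  classical
  have hFG : Group.FG (Abelianization Γ) := QuotientGroup.fg (commutator Γ)
  obtain ⟨N, hN, hsep⟩ := exists_finite_index_sep (uEl A).coeff.support
  set N' : Subgroup Γ := N.comap (Abelianization.of (G := Γ)) with hN'
  have hfi : N'.FiniteIndex := ⟨by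
    rw [hN', Subgroup.index_comap_of_surjective _ QuotientGroup.mk_surjective]
    exact hN.index_ne_zero⟩
  have hnorm : N'.Normal := inferInstance
  have hfin : Finite (Γ ⧸ N') := Subgroup.finiteIndex_iff_finite_quotient.1 hfi
  obtain ⟨h, ε, hε, hu⟩ := uEl_eq_single (hroot N')
  rw [uEl_mapMat] at hu
  -- the homomorphism from the abelianization of the quotient to the quotient by `N`
  let g : (Γ ⧸ N') →* (Abelianization Γ ⧸ N) :=
    QuotientGroup.map N' N (Abelianization.of (G := Γ)) le_rfl
  let g' : Abelianization (Γ ⧸ N') →* (Abelianization Γ ⧸ N) := Abelianization.lift g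
  have hcomp : g'.comp (Abelianization.map (QuotientGroup.mk' N')) = QuotientGroup.mk' N := by
    ext γ
    rfl
  have hinj : ∀ x ∈ (uEl A).coeff.support, ∀ y ∈ (uEl A).coeff.support,
      Abelianization.map (QuotientGroup.mk' N') x = Abelianization.map (QuotientGroup.mk' N') y →
      x = y := by
    intro x hx y hy hxy
    apply hsep x hx y hy
    have h1 : QuotientGroup.mk' N x = QuotientGroup.mk' N y := by
      rw [← hcomp, MonoidHom.comp_apply, MonoidHom.comp_apply, hxy]
    exact QuotientGroup.eq.1 h1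
  have hε0 : ε ≠ 0 := by rcases hε with h | h <;> rw [h] <;> decide
  obtain ⟨x, hx⟩ := eq_single_of_mapDomain (u := (uEl A).coeff)
    (f := Abelianization.map (QuotientGroup.mk' N')) hinj hε0
    (congrArg MonoidAlgebra.coeff hu)
  obtain ⟨γ, rfl⟩ := QuotientGroup.mk_surjective x
  exact ⟨γ, ε, hε, MonoidAlgebra.coeff_injective hx⟩

end Pool.Agent.Lib.MP_8f66f0_al_Wall
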