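import Mathlib
import Pool.Agent.Lib.MP_8f66f0_al_Plus.Reduce

/-! From finite fields to all fields. -/

set_option autoImplicit false
set_option linter.unusedSectionVars false

namespace Pool.Agent.Lib.MP_8f66f0_al_Wall

open Pool.Agent.Lib.MP_8f66f0_al_Dennis Pool.Agent.Lib.MP_8f66f0_al_FinQ
open Pool.Agent.Lib.MP_8f66f0_al_Plus

/-- In a finitely generated domain a nonzero element avoids some maximal ideal, and the residue
field is finite. -/
lemma exists_finite_residue (R : Type*) [CommRing R] [IsDomain R] [Algebra.FiniteType ℤ R]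
    {δ : R} (hδ : δ ≠ 0) : ∃ m : Ideal R, m.IsMaximal ∧ δ ∉ m ∧ Finite (R ⧸ m) := by
  have := int_isJacobsonRing
  have hJ : IsJacobsonRing R := isJacobsonRing_of_finiteType (A := ℤ)
  have hbot : (⊥ : Ideal R).jacobson = ⊥ := by
    apply hJ.out
    exact Ideal.IsPrime.isRadical Ideal.isPrime_bot
  have h1 : δ ∉ (⊥ : Ideal R).jacobson := by
    rw [hbot, Ideal.mem_bot]
    exact hδ
  rw [Ideal.jacobson, Submodule.mem_sInf] at h1
  push Not at h1
  obtain ⟨m, ⟨_, hm⟩, hδm⟩ := h1
  refine ⟨m, hm, hδm, ?_⟩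
  have hft0 : Algebra.FiniteType ℤ (R ⧸ m) :=
    Algebra.FiniteType.of_surjective (Ideal.Quotient.mkₐ ℤ m) (Ideal.Quotient.mkₐ_surjective ℤ m)
  let _ : Field (R ⧸ m) := Ideal.Quotient.field m
  have hft : @Algebra.FiniteType ℤ (R ⧸ m) _ _ (Ring.toIntAlgebra _) := by
    convert! hft0
  exact (finite_field_of_finiteType (R ⧸ m)).1

lemma det_of_model.{u, v} {Γ : Type u} [Group Γ] {ι : Type*} [Fintype ι]
    [DecidableEq ι] {A : Matrix ι ι (MonoidAlgebra ℤ Γ)}
    (h : ∀ (F : Type v) [Field F] [IsAlgClosed F] (k : ℕ) (σ : Γ →* Matrix (Fin k) (Fin k) F),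
      (Set.range σ).Finite → (mapRep σ A).det = 1)
    {k : ℕ} (R : Type v) [CommRing R] [IsDomain R] [Algebra.FiniteType ℤ R]
    (σ : Γ →* Matrix (Fin k) (Fin k) R) : (mapRep σ A).det = 1 := by
  classical
  by_contra hne
  obtain ⟨m, hm, hδm, hfin⟩ := exists_finite_residue R (sub_ne_zero.2 hne)
  let _ : Field (R ⧸ m) := Ideal.Quotient.field m
  set s : R →+* AlgebraicClosure (R ⧸ m) :=
    (algebraMap (R ⧸ m) (AlgebraicClosure (R ⧸ m))).comp (Ideal.Quotient.mk m) with hs
  have hker : ∀ x, s x = 0 → x ∈ m := by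
    intro x hx
    rw [← Ideal.Quotient.eq_zero_iff_mem]
    apply (algebraMap (R ⧸ m) (AlgebraicClosure (R ⧸ m))).injective
    rw [map_zero]
    exact hx
  have hfinR : (Set.range ((s.mapMatrix : Matrix (Fin k) (Fin k) R →+*
      Matrix (Fin k) (Fin k) (AlgebraicClosure (R ⧸ m))).toMonoidHom.comp σ)).Finite := by
    have hfinM : Finite (Matrix (Fin k) (Fin k) (R ⧸ m)) := Pi.finite
    refine (Set.finite_range fun M : Matrix (Fin k) (Fin k) (R ⧸ m) =>
      M.map (algebraMap (R ⧸ m) (AlgebraicClosure (R ⧸ m)))).subset ?_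
    rintro _ ⟨g, rfl⟩
    exact ⟨(σ g).map (Ideal.Quotient.mk m), rfl⟩
  have h2 := h (AlgebraicClosure (R ⧸ m)) k _ hfinR
  apply hδm
  apply hker
  rw [map_sub, map_one, sub_eq_zero, RingHom.map_det, ← h2]
  congr 1
  exact mapRep_map s σ A

/-- From finite fields to all fields. Let `R` be the subring of `E` generated by the entries of the
images of generators of `Γ` and of their inverses; it is a finitely generated ring and all `ρ g`
have entries in `R` (compare `exists_fg_ring'` in Dennis/Separated.lean and Plus/Reduce.lean). If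
`δ = det ρ(A) - 1` is not zero in `R`, let `m` be a maximal ideal of `R[1/δ]` (or: `δ` is not in
the Jacobson radical of the finitely generated domain `R`, which is a Jacobson ring, so there is a
maximal ideal `m` of `R` with `δ ∉ m`); the residue field `R ⧸ m` is finite, the reduction of `ρ`
modulo `m` composed with the embedding into an algebraic closure has finite image, and its
determinant on `A` is the image of `1 + δ ≠ 1`. -/
theorem field_reduction.{u, v} {Γ : Type u} [Group Γ] [Group.FG Γ] {ι : Type*} [Fintype ι]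
    [DecidableEq ι] {A : Matrix ι ι (MonoidAlgebra ℤ Γ)}
    (h : ∀ (F : Type v) [Field F] [IsAlgClosed F] (k : ℕ) (σ : Γ →* Matrix (Fin k) (Fin k) F),
      (Set.range σ).Finite → (mapRep σ A).det = 1)
    {E : Type v} [Field E] {k : ℕ} (ρ : Γ →* Matrix (Fin k) (Fin k) E) :
    (mapRep ρ A).det = 1 := by
  classical
  obtain ⟨T, ρ', hρ'⟩ := exists_model (F := E) ρ.toHomUnits
  have hft : Algebra.FiniteType ℤ (Algebra.adjoin ℤ (T : Set E)) :=
    (Subalgebra.fg_iff_finiteType _).mp (Subalgebra.fg_adjoin_finset T)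
  have h1 := det_of_model h (Algebra.adjoin ℤ (T : Set E))
    ((Units.coeHom (Matrix (Fin k) (Fin k) (Algebra.adjoin ℤ (T : Set E)))).comp ρ')
  have hσρ : ρ = ((algebraMap (Algebra.adjoin ℤ (T : Set E)) E).mapMatrix :
      Matrix (Fin k) (Fin k) (Algebra.adjoin ℤ (T : Set E)) →+*
        Matrix (Fin k) (Fin k) E).toMonoidHom.comp
      ((Units.coeHom (Matrix (Fin k) (Fin k) (Algebra.adjoin ℤ (T : Set E)))).comp ρ') := by
    ext g i j
    have h2 := congrArg (fun u : Matrix.GeneralLinearGroup (Fin k) E =>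
      (u : Matrix (Fin k) (Fin k) E) i j) (DFunLike.congr_fun hρ' g)
    exact h2.symm
  rw [hσρ, ← mapRep_map, ← RingHom.mapMatrix_apply, ← RingHom.map_det, h1, map_one]

end Pool.Agent.Lib.MP_8f66f0_al_Wall
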