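import Mathlib
import Pool.Agent.Lib.MP_8f66f0_al_Wall.Basic

/-! The local induction theorem for permutation characters. -/

set_option autoImplicit false
set_option linter.unusedSectionVars false

namespace Pool.Agent.Lib.MP_8f66f0_al_Wall

open Pool.Agent.Lib.MP_8f66f0_al_Dennis Pool.Agent.Lib.MP_8f66f0_al_FinQ
open Pool.Agent.Lib.MP_8f66f0_al_Plus

section comb

variable {Q : Type*} [Group Q] [Finite Q]

/-- The permutation character of `Q ⧸ H`. -/
noncomputable def fx (H : Subgroup Q) (g : Q) : ℤ :=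
  (Nat.card (MulAction.fixedBy (Q ⧸ H) g) : ℤ)

/-- Integral combinations of the permutation characters on `Q ⧸ H`, `H` in the class. -/
def Comb (p : ℕ) (f : Q → ℤ) : Prop :=
  ∃ (s : Finset (Subgroup Q)) (a : Subgroup Q → ℤ), (∀ H ∈ s, QE p H) ∧
    ∀ g : Q, f g = ∑ H ∈ s, a H * fx H g

lemma Comb.zero {p : ℕ} : Comb p (fun _ : Q => (0 : ℤ)) :=
  ⟨∅, fun _ => 0, fun H hH => absurd hH (Finset.notMem_empty H), fun g => by simp⟩

open Classical in
lemma Comb.add {p : ℕ} {f f' : Q → ℤ} (h : Comb p f) (h' : Comb p f') :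
    Comb p (fun g => f g + f' g) := by
  obtain ⟨s, a, hs, ha⟩ := h
  obtain ⟨s', a', hs', ha'⟩ := h'
  refine ⟨s ∪ s', fun H => (if H ∈ s then a H else 0) + (if H ∈ s' then a' H else 0), ?_, ?_⟩
  · intro H hH
    rcases Finset.mem_union.mp hH with h1 | h1
    · exact hs H h1
    · exact hs' H h1
  · intro g
    simp_rw [add_mul, Finset.sum_add_distrib]
    rw [ha, ha']
    congr 1
    · simp_rw [ite_mul, zero_mul]
      rw [← Finset.sum_filter]
      refine Finset.sum_congr ?_ fun _ _ => rfl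
      ext H
      simp only [Finset.mem_filter, Finset.mem_union]
      tauto
    · simp_rw [ite_mul, zero_mul]
      rw [← Finset.sum_filter]
      refine Finset.sum_congr ?_ fun _ _ => rfl
      ext H
      simp only [Finset.mem_filter, Finset.mem_union]
      tauto

lemma Comb.smul {p : ℕ} {f : Q → ℤ} (h : Comb p f) (c : ℤ) : Comb p (fun g => c * f g) := by
  obtain ⟨s, a, hs, ha⟩ := h
  refine ⟨s, fun H => c * a H, hs, fun g => ?_⟩
  simp only []
  rw [ha, Finset.mul_sum]
  exact Finset.sum_congr rfl fun _ _ => (mul_assoc _ _ _).symm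

lemma Comb.sum {p : ℕ} {κ : Type*} (t : Finset κ) {f : κ → Q → ℤ} (h : ∀ k ∈ t, Comb p (f k)) :
    Comb p (fun g => ∑ k ∈ t, f k g) := by
  classical
  induction t using Finset.induction_on with
  | empty => simpa using Comb.zero
  | insert k t hk ih =>
    simp_rw [Finset.sum_insert hk]
    exact (h k (Finset.mem_insert_self _ _)).add
      (ih fun k' hk' => h k' (Finset.mem_insert_of_mem hk'))

lemma Comb.of_fx {p : ℕ} {H : Subgroup Q} (h : QE p H) : Comb p (fx H) :=
  ⟨{H}, fun _ => 1, fun K hK => by rw [Finset.mem_singleton.mp hK]; exact h, fun g => by simp⟩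

/-- The permutation character of a finite `Q`-set whose stabilizers are in the class. -/
lemma Comb.of_set {p : ℕ} {X : Type*} [MulAction Q X] [Finite X]
    (h : ∀ x : X, QE p (MulAction.stabilizer Q x)) :
    Comb p (fun g : Q => (Nat.card (MulAction.fixedBy X g) : ℤ)) := by
  classical
  have : Fintype X := Fintype.ofFinite X
  have : Fintype (Quotient (MulAction.orbitRel Q X)) := Fintype.ofFinite _
  have key : ∀ g : Q, (Nat.card (MulAction.fixedBy X g) : ℤ) =
      ∑ ω : Quotient (MulAction.orbitRel Q X),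
        fx (MulAction.stabilizer Q ω.out) g := by
    intro g
    let f : (Σ ω : Quotient (MulAction.orbitRel Q X),
        MulAction.fixedBy (Q ⧸ MulAction.stabilizer Q ω.out) g) → MulAction.fixedBy X g :=
      fun q => ⟨MulAction.ofQuotientStabilizer Q q.1.out q.2.1, by
        rw [MulAction.mem_fixedBy, ← MulAction.ofQuotientStabilizer_smul,
          MulAction.mem_fixedBy.mp q.2.2]⟩
    have horb : ∀ (ω : Quotient (MulAction.orbitRel Q X))
        (q : Q ⧸ MulAction.stabilizer Q ω.out),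
        Quotient.mk (MulAction.orbitRel Q X) (MulAction.ofQuotientStabilizer Q ω.out q) = ω := by
      intro ω q
      obtain ⟨y, rfl⟩ := QuotientGroup.mk_surjective q
      rw [MulAction.ofQuotientStabilizer_mk]
      conv_rhs => rw [← Quotient.out_eq ω]
      exact Quotient.sound (MulAction.orbitRel_apply.mpr (MulAction.mem_orbit _ _))
    have hinj : Function.Injective f := by
      rintro ⟨ω, q⟩ ⟨ω', q'⟩ hq
      have h1 : MulAction.ofQuotientStabilizer Q ω.out q.1 =
        MulAction.ofQuotientStabilizer Q ω'.out q'.1 := congrArg Subtype.val hq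
      have h2 : ω = ω' := by rw [← horb ω q.1, h1, horb ω' q'.1]
      subst h2
      have h3 := MulAction.injective_ofQuotientStabilizer Q ω.out h1
      rw [Subtype.ext h3]
    have hsurj : Function.Surjective f := by
      rintro ⟨x, hx⟩
      have h1 : x ∈ MulAction.orbit Q (Quotient.mk (MulAction.orbitRel Q X) x).out := by
        rw [← MulAction.orbitRel_apply]
        exact Quotient.exact (Quotient.out_eq (Quotient.mk (MulAction.orbitRel Q X) x)).symm
      obtain ⟨y, hy⟩ := h1
      refine ⟨⟨Quotient.mk (MulAction.orbitRel Q X) x, ⟨(y : Q ⧸ _), ?_⟩⟩, ?_⟩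
      · rw [MulAction.mem_fixedBy]
        apply MulAction.injective_ofQuotientStabilizer Q
        rw [MulAction.ofQuotientStabilizer_smul, MulAction.ofQuotientStabilizer_mk]
        have hy' : y • (Quotient.mk (MulAction.orbitRel Q X) x).out = x := hy
        rw [hy']
        exact hx
      · exact Subtype.ext hy
    rw [← Nat.card_congr (Equiv.ofBijective f ⟨hinj, hsurj⟩), Nat.card_sigma]
    push_cast
    rfl
  simp_rw [key]
  exact Comb.sum _ fun ω _ => Comb.of_fx (h _)

/-- A subgroup contained in a conjugate of a group in the class is in the class. -/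
lemma QE.of_le {p : ℕ} {H K : Subgroup Q} (h : QE p H) (hK : K ≤ H) : QE p K := by
  obtain ⟨C, hC, hc, hk⟩ := h
  refine ⟨C.comap (Subgroup.inclusion hK), hC.comap _, ?_, fun x => ?_⟩
  · intro x hx y hy
    have h1 := congrArg Subtype.val (hc _ hx _ hy)
    exact Subtype.ext h1
  · obtain ⟨k, hk⟩ := hk (Subgroup.inclusion hK x)
    refine ⟨k, ?_⟩
    rw [Subgroup.mem_comap, map_pow]
    exact hk

lemma QE.stab {p : ℕ} {H : Subgroup Q} (h : QE p H) (w : Q ⧸ H) :
    QE p (MulAction.stabilizer Q w) := by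
  obtain ⟨y, rfl⟩ := QuotientGroup.mk_surjective w
  obtain ⟨C, hC, hc, hk⟩ := h
  -- the homomorphism `x ↦ y⁻¹ x y`
  have hmem : ∀ x : MulAction.stabilizer Q (y : Q ⧸ H), y⁻¹ * (x : Q) * y ∈ H := by
    intro x
    have hx : (x : Q) • (y : Q ⧸ H) = y := x.2
    have hx' : ((((x : Q) * y : Q)) : Q ⧸ H) = (y : Q ⧸ H) := hx
    have h2 := QuotientGroup.eq.mp hx'.symm
    rwa [← mul_assoc] at h2
  let φ : MulAction.stabilizer Q (y : Q ⧸ H) →* H :=
    { toFun := fun x => ⟨y⁻¹ * (x : Q) * y, hmem x⟩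
      map_one' := Subtype.ext (by simp)
      map_mul' := fun a b => Subtype.ext (by
        show y⁻¹ * ((a * b : MulAction.stabilizer Q (y : Q ⧸ H)) : Q) * y =
          (y⁻¹ * (a : Q) * y) * (y⁻¹ * (b : Q) * y)
        rw [Subgroup.coe_mul]
        group) }
  have hφ : Function.Injective φ := by
    intro a b hab
    have h1 : y⁻¹ * (a : Q) * y = y⁻¹ * (b : Q) * y := congrArg Subtype.val hab
    exact Subtype.ext (mul_left_cancel (mul_right_cancel h1))
  refine ⟨C.comap φ, hC.comap _, ?_, fun x => ?_⟩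
  · intro a ha b hb
    apply hφ
    rw [map_mul, map_mul]
    exact hc _ ha _ hb
  · obtain ⟨k, hk⟩ := hk (φ x)
    exact ⟨k, by rw [Subgroup.mem_comap, map_pow]; exact hk⟩

lemma fx_mul {p : ℕ} {H K : Subgroup Q} (h : QE p H) (_hK : QE p K) :
    Comb p (fun g => fx H g * fx K g) := by
  have h1 : Comb p (fun g : Q => (Nat.card (MulAction.fixedBy ((Q ⧸ H) × (Q ⧸ K)) g) : ℤ)) := by
    apply Comb.of_set
    rintro ⟨w, v⟩
    refine (h.stab w).of_le ?_
    intro x hx
    have hx' : x • (w, v) = (w, v) := hx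
    exact (congrArg Prod.fst hx' : x • w = w)
  have h2 : ∀ g : Q, (Nat.card (MulAction.fixedBy ((Q ⧸ H) × (Q ⧸ K)) g) : ℤ) =
      fx H g * fx K g := by
    intro g
    rw [fx, fx, ← Nat.cast_mul, ← Nat.card_prod]
    congr 1
    refine Nat.card_congr ⟨fun x => (⟨x.1.1, congrArg Prod.fst x.2⟩, ⟨x.1.2, congrArg Prod.snd x.2⟩),
      fun x => ⟨(x.1.1, x.2.1), Prod.ext x.1.2 x.2.2⟩, fun x => rfl, fun x => rfl⟩
  simpa only [h2] using h1

lemma Comb.mul {p : ℕ} {f f' : Q → ℤ} (h : Comb p f) (h' : Comb p f') :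
    Comb p (fun g => f g * f' g) := by
  obtain ⟨s, a, hs, ha⟩ := h
  obtain ⟨s', a', hs', ha'⟩ := h'
  have : (fun g => f g * f' g) =
      fun g => ∑ H ∈ s, ∑ K ∈ s', (a H * a' K) * (fx H g * fx K g) := by
    funext g
    rw [ha, ha', Finset.sum_mul_sum]
    refine Finset.sum_congr rfl fun H _ => Finset.sum_congr rfl fun K _ => ?_
    ring
  rw [this]
  exact Comb.sum _ fun H hH => Comb.sum _ fun K hK => (fx_mul (hs H hH) (hs' K hK)).smul _

lemma Comb.pow {p : ℕ} {f : Q → ℤ} (h : Comb p f) {n : ℕ} (hn : 0 < n) :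
    Comb p (fun g => f g ^ n) := by
  induction n, hn using Nat.le_induction with
  | base => simpa using h
  | succ n hn ih =>
    simp_rw [pow_succ]
    exact ih.mul h

/-- The values only depend on the cyclic subgroup up to conjugation. -/
lemma fx_conj (H : Subgroup Q) (g y : Q) : fx H (y⁻¹ * g * y) = fx H g := by
  rw [fx, fx]
  congr 1
  refine Nat.card_congr ⟨fun w => ⟨y • w.1, ?_⟩, fun w => ⟨y⁻¹ • w.1, ?_⟩, ?_, ?_⟩
  · have h := MulAction.mem_fixedBy.mp w.2
    rw [MulAction.mem_fixedBy]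
    conv_rhs => rw [← h]
    simp only [smul_smul]
    congr 1
    group
  · have h := MulAction.mem_fixedBy.mp w.2
    rw [MulAction.mem_fixedBy]
    conv_rhs => rw [← h]
    simp only [smul_smul]
    congr 1
    group
  · intro w
    apply Subtype.ext
    simp
  · intro w
    apply Subtype.ext
    simp

lemma fx_zpowers (H : Subgroup Q) {g g' : Q} (h : Subgroup.zpowers g = Subgroup.zpowers g') :
    fx H g = fx H g' := by
  rw [fx, fx]
  congr 1
  have key : ∀ {a b : Q}, a ∈ Subgroup.zpowers b → ∀ w : Q ⧸ H, b • w = w → a • w = w := by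
    intro a b hab w hw
    obtain ⟨n, rfl⟩ := hab
    have : b ∈ MulAction.stabilizer Q w := hw
    exact (MulAction.stabilizer Q w).zpow_mem this n
  have : MulAction.fixedBy (Q ⧸ H) g = MulAction.fixedBy (Q ⧸ H) g' := by
    ext w
    rw [MulAction.mem_fixedBy, MulAction.mem_fixedBy]
    exact ⟨key (h ▸ Subgroup.mem_zpowers g') w, key (h ▸ Subgroup.mem_zpowers g) w⟩
  rw [this]

lemma Comb.conj {p : ℕ} {f : Q → ℤ} (h : Comb p f) (g y : Q) : f (y⁻¹ * g * y) = f g := by
  obtain ⟨s, a, _, ha⟩ := h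
  rw [ha, ha]
  exact Finset.sum_congr rfl fun H _ => by rw [fx_conj]

lemma Comb.zpowers {p : ℕ} {f : Q → ℤ} (h : Comb p f) {g g' : Q}
    (hg : Subgroup.zpowers g = Subgroup.zpowers g') : f g = f g' := by
  obtain ⟨s, a, _, ha⟩ := h
  rw [ha, ha]
  exact Finset.sum_congr rfl fun H _ => by rw [fx_zpowers H hg]

open Classical in
/-- Artin. -/
lemma artin_up (S : Type*) [Fintype S] [PartialOrder S] (t : S → ℤ) :
    ∃ m : S → ℤ, ∀ C : S, ∑ B : S, (if C ≤ B then m B else 0) = t C := by
  have hwf : WellFounded ((· > ·) : S → S → Prop) := wellFounded_gt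
  set m : S → ℤ := hwf.fix (fun C ih => t C - ∑ B : {B : S // C < B}, ih B.1 B.2) with hm
  have hm1 : ∀ C : S, m C = t C - ∑ B : {B : S // C < B}, m B.1 := by
    intro C
    rw [hm, hwf.fix_eq]
  refine ⟨m, fun C => ?_⟩
  have h2 : ∑ B : {B : S // C < B}, m B.1 = ∑ B : S, if C < B then m B else 0 := by
    rw [← Finset.sum_filter]
    exact (Finset.sum_subtype (Finset.univ.filter fun B => C < B) (by simp) m).symm
  have h3 : ∑ B : S, (if C ≤ B then m B else 0) =
      (∑ B : S, if C < B then m B else 0) + ∑ B : S, if B = C then m B else 0 := by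
    rw [← Finset.sum_add_distrib]
    refine Finset.sum_congr rfl fun B _ => ?_
    by_cases hB : B = C
    · subst hB
      rw [if_pos le_rfl, if_neg (lt_irrefl _), if_pos rfl, zero_add]
    · by_cases hlt : C < B
      · rw [if_pos hlt.le, if_pos hlt, if_neg hB, add_zero]
      · rw [if_neg (fun h => hlt (lt_of_le_of_ne h (Ne.symm hB))), if_neg hlt,
          if_neg hB, add_zero]
  rw [h3, Finset.sum_ite_eq' Finset.univ C, if_pos (Finset.mem_univ _), hm1 C, h2]
  ring

lemma fx_eq_sum [Fintype Q] (B : Subgroup Q) (x : Q) [DecidablePred (· ∈ B)] :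
    (∑ y : Q, if y⁻¹ * x * y ∈ B then (1 : ℤ) else 0) = (Nat.card B : ℤ) * fx B x := by
  classical
  have : Fintype (Q ⧸ B) := Fintype.ofFinite _
  have h := card_conj' B x
  have h3 : (∑ w : Q ⧸ B, if w.out⁻¹ * x * w.out ∈ B then (1 : ℤ) else 0) = fx B x := by
    rw [Finset.sum_boole, fx, Nat.card_eq_card_toFinset]
    congr 2
    ext w
    rw [Finset.mem_filter, Set.mem_toFinset, MulAction.mem_fixedBy]
    simp only [Finset.mem_univ, true_and]
    have h1 : x • w = w ↔ ((w.out : Q) : Q ⧸ B) = ((x * w.out : Q) : Q ⧸ B) := by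
      conv_lhs => rw [← QuotientGroup.out_eq' w]
      exact eq_comm
    rw [h1, QuotientGroup.eq, ← mul_assoc]
  rw [← h3]
  have e1 : (∑ y : Q, if y⁻¹ * x * y ∈ B then (1 : ℤ) else 0) =
      ∑ y : Q, @ite ℤ (y⁻¹ * x * y ∈ B) (Classical.propDecidable _) 1 0 :=
    Finset.sum_congr rfl fun y _ => by split_ifs <;> rfl
  have e2 : (∑ w : Q ⧸ B, if w.out⁻¹ * x * w.out ∈ B then (1 : ℤ) else 0) =
      ∑ w : Q ⧸ B, @ite ℤ (w.out⁻¹ * x * w.out ∈ B) (Classical.propDecidable _) 1 0 :=
    Finset.sum_congr rfl fun w _ => by split_ifs <;> rfl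
  rw [e1, e2]
  exact h

/-- Artin: `|Q| θ` is a combination. -/
lemma Comb.artin {p : ℕ} {θ : Q → ℤ} (hc : ∀ g y : Q, θ (y⁻¹ * g * y) = θ g)
    (hz : ∀ g g' : Q, Subgroup.zpowers g = Subgroup.zpowers g' → θ g = θ g') :
    Comb p (fun g => (Nat.card Q : ℤ) * θ g) := by
  classical
  have : Fintype Q := Fintype.ofFinite Q
  have : Fintype {B : Subgroup Q // IsCyclic B} := Fintype.ofFinite _
  have hgen : ∀ B : {B : Subgroup Q // IsCyclic B}, ∃ g : Q, B.1 = Subgroup.zpowers g := by
    intro B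
    obtain ⟨⟨g, hg⟩, h1⟩ := B.2.exists_generator
    refine ⟨g, le_antisymm (fun x hx => ?_) (Subgroup.zpowers_le.mpr hg)⟩
    obtain ⟨n, hn⟩ := h1 ⟨x, hx⟩
    exact ⟨n, congrArg Subtype.val hn⟩
  choose gen hgen using hgen
  obtain ⟨m, hm⟩ := artin_up {B : Subgroup Q // IsCyclic B} fun B => θ (gen B)
  have hm2 : ∀ x : Q, ∑ B : {B : Subgroup Q // IsCyclic B}, (if x ∈ B.1 then m B else 0) = θ x := by
    intro x
    have h0 := hm ⟨Subgroup.zpowers x, inferInstance⟩
    rw [hz (gen ⟨Subgroup.zpowers x, inferInstance⟩) x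
      (hgen ⟨Subgroup.zpowers x, inferInstance⟩).symm] at h0
    rw [← h0]
    refine Finset.sum_congr rfl fun B _ => ?_
    have h1 : x ∈ B.1 ↔
        (⟨Subgroup.zpowers x, inferInstance⟩ : {B : Subgroup Q // IsCyclic B}) ≤ B := by
      rw [← Subtype.coe_le_coe]
      exact (Subgroup.zpowers_le).symm
    by_cases h : x ∈ B.1
    · rw [if_pos h, if_pos (h1.mp h)]
    · rw [if_neg h, if_neg (fun h' => h (h1.mpr h'))]
  have key : ∀ g : Q, (Nat.card Q : ℤ) * θ g =
      ∑ B : {B : Subgroup Q // IsCyclic B}, (m B * Nat.card B.1) * fx B.1 g := by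
    intro g
    have h1 : (Nat.card Q : ℤ) * θ g = ∑ y : Q, θ (y⁻¹ * g * y) := by
      rw [Finset.sum_congr rfl fun y _ => hc g y, Finset.sum_const, Finset.card_univ,
        Nat.card_eq_fintype_card, nsmul_eq_mul]
    rw [h1]
    simp_rw [← hm2]
    rw [Finset.sum_comm]
    refine Finset.sum_congr rfl fun B _ => ?_
    rw [mul_assoc, ← fx_eq_sum B.1 g, Finset.mul_sum]
    refine Finset.sum_congr rfl fun y _ => ?_
    rw [mul_ite, mul_one, mul_zero]
  simp_rw [key]
  refine Comb.sum _ fun B _ => (Comb.of_fx ?_).smul _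
  have := B.2
  let _ := IsCyclic.commGroup (α := B.1)
  exact ⟨⊤, inferInstance, fun x _ y _ => mul_comm x y, fun x => ⟨0, Subgroup.mem_top _⟩⟩

/-- For every `g` there is a group `H` in the class such that the number of fixed points of `g` on
`Q ⧸ H` is prime to `p`. -/
lemma exists_fx {p : ℕ} (hp : p.Prime) (g : Q) :
    ∃ H : Subgroup Q, QE p H ∧ ¬ (p : ℤ) ∣ fx H g := by
  classical
  haveI : Fact p.Prime := ⟨hp⟩
  have hg : 0 < orderOf g := orderOf_pos g
  obtain ⟨n, m, hm, hnm⟩ := Nat.exists_eq_pow_mul_and_not_dvd hg.ne' p hp.ne_one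
  have hm0 : 0 < m := Nat.pos_of_ne_zero (by rintro rfl; exact hm (dvd_zero p))
  have hmp : Nat.Coprime m p := (Nat.Prime.coprime_iff_not_dvd hp).mpr hm |>.symm
  set c : Q := g ^ (p ^ n) with hc
  have hco : orderOf c = m := by
    rw [hc, orderOf_pow, hnm, Nat.gcd_eq_right (Dvd.intro _ rfl)]
    exact Nat.mul_div_cancel_left m (pow_pos hp.pos n)
  set C : Subgroup Q := Subgroup.zpowers c with hC
  set N : Subgroup Q := Subgroup.normalizer (C : Set Q) with hN
  set CN : Subgroup N := C.subgroupOf N with hCN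
  haveI : CN.Normal := Subgroup.normal_subgroupOf_of_le_normalizer le_rfl
  obtain ⟨P⟩ : Nonempty (Sylow p N) := inferInstance
  set π : N →* N ⧸ CN := QuotientGroup.mk' CN with hπ
  set SN : Subgroup N := (Subgroup.map π P).comap π with hSN
  have hPS : (P : Subgroup N) ≤ SN := Subgroup.le_comap_map _ _
  have hCS : CN ≤ SN := by
    intro x hx
    rw [hSN, Subgroup.mem_comap]
    have : π x = 1 := (QuotientGroup.eq_one_iff x).mpr hx
    rw [this]
    exact Subgroup.one_mem _
  have hpow : ∀ x ∈ SN, ∃ k : ℕ, x ^ (p ^ k) ∈ CN := by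
    intro x hx
    obtain ⟨y, hy, hyx⟩ := Subgroup.mem_map.mp (Subgroup.mem_comap.mp hx)
    obtain ⟨k, hk⟩ := P.isPGroup' ⟨y, hy⟩
    refine ⟨k, ?_⟩
    have h1 : y ^ (p ^ k) = 1 := congrArg Subtype.val hk
    rw [← QuotientGroup.eq_one_iff]
    show π (x ^ (p ^ k)) = 1
    rw [map_pow, ← hyx, ← map_pow, h1, map_one]
  set S : Subgroup Q := SN.map N.subtype with hS
  have hCleN : C ≤ N := Subgroup.le_normalizer
  have hCleS : C ≤ S := by
    intro x hx
    exact Subgroup.mem_map.mpr ⟨⟨x, hCleN hx⟩, hCS (Subgroup.mem_subgroupOf.mpr hx), rfl⟩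
  have hSleN : S ≤ N := by
    intro x hx
    obtain ⟨y, -, rfl⟩ := Subgroup.mem_map.mp hx
    exact y.2
  have hpowS : ∀ x ∈ S, ∃ k : ℕ, x ^ (p ^ k) ∈ C := by
    intro x hx
    obtain ⟨y, hy, rfl⟩ := Subgroup.mem_map.mp hx
    obtain ⟨k, hk⟩ := hpow y hy
    exact ⟨k, Subgroup.mem_subgroupOf.mp hk⟩
  refine ⟨S, ?_, ?_⟩
  · refine ⟨C.subgroupOf S, ?_, ?_, ?_⟩
    · exact Subgroup.normal_subgroupOf_of_le_normalizer hSleN
    · intro x hx y hy
      apply Subtype.ext
      obtain ⟨a, ha⟩ := Subgroup.mem_subgroupOf.mp hx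
      obtain ⟨b, hb⟩ := Subgroup.mem_subgroupOf.mp hy
      show (x : Q) * y = y * x
      rw [← show c ^ a = (x : Q) from ha, ← show c ^ b = (y : Q) from hb]
      exact (Commute.refl c).zpow_zpow a b
    · intro x
      obtain ⟨k, hk⟩ := hpowS x x.2
      exact ⟨k, Subgroup.mem_subgroupOf.mpr hk⟩
  · -- the fixed points of `c`
    have hfix : Nat.card (MulAction.fixedBy (Q ⧸ S) c) ≡
        Nat.card (MulAction.fixedBy (Q ⧸ S) g) [MOD p] := by
      let Y := MulAction.fixedBy (Q ⧸ S) c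
      haveI : Fintype Y := Fintype.ofFinite _
      let f : Function.End Y := fun y => ⟨g • y.1, by
        have h1 : c • y.1 = y.1 := y.2
        rw [MulAction.mem_fixedBy, smul_smul, hc, ← pow_succ, pow_succ', ← smul_smul, ← hc, h1]⟩
      have hf : ∀ (k : ℕ) (y : Y), ((f ^ k) y).1 = g ^ k • y.1 := by
        intro k
        induction k with
        | zero => intro y; simp [Function.End.one_def]
        | succ k ih =>
          intro y
          rw [pow_succ]
          show ((f ^ k) (f y)).1 = _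
          rw [ih, pow_succ, ← smul_smul]
      have hf1 : f ^ (p ^ n) = 1 := by
        funext y
        apply Subtype.ext
        rw [hf, ← hc]
        exact y.2
      have h := Equiv.Perm.card_fixedPoints_modEq hf1
      rw [← Nat.card_eq_fintype_card, ← Nat.card_eq_fintype_card] at h
      have h2 : Nat.card (Function.fixedPoints f) = Nat.card (MulAction.fixedBy (Q ⧸ S) g) := by
        refine Nat.card_congr ⟨fun y => ⟨y.1.1, congrArg Subtype.val y.2⟩, fun y => ⟨⟨y.1, ?_⟩, ?_⟩,
          fun y => rfl, fun y => rfl⟩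
        · have h1 : g ∈ MulAction.stabilizer Q y.1 := y.2
          exact (MulAction.stabilizer Q y.1).pow_mem h1 _
        · exact Subtype.ext y.2
      rwa [h2] at h
    have hcard : (Nat.card N : ℤ) = (Nat.card S : ℤ) * fx S c := by
      haveI : Fintype Q := Fintype.ofFinite Q
      have hN2 : (Nat.card N : ℤ) = ((Finset.univ.filter fun y : Q => y ∈ N).card : ℤ) := by
        rw [Nat.card_eq_fintype_card, Fintype.card_subtype]
      rw [← fx_eq_sum S c, Finset.sum_boole, hN2]
      congr 2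
      ext y
      simp only [Finset.mem_filter, Finset.mem_univ, true_and]
      have key : y⁻¹ * c * y ∈ S ↔ y⁻¹ * c * y ∈ C := by
        refine ⟨fun h => ?_, fun h => hCleS h⟩
        obtain ⟨k, hk⟩ := hpowS _ h
        have h1 : (y⁻¹ * c * y) ^ m = 1 := by
          have e : y⁻¹ * c * y = y⁻¹ * c * (y⁻¹)⁻¹ := by rw [inv_inv]
          rw [e, conj_pow, ← hco, pow_orderOf_eq_one]
          group
        have h2 : Nat.Coprime (p ^ k) m := Nat.Coprime.pow_left k hmp.symm
        obtain ⟨a, ha⟩ := exists_pow_eq_self_of_coprime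
          (h2.coprime_dvd_right (orderOf_dvd_of_pow_eq_one h1))
        rw [← ha]
        exact C.pow_mem hk a
      rw [key]
      constructor
      · intro hy
        exact (Subgroup.mem_normalizer_iff''.mp hy c).mp (Subgroup.mem_zpowers c)
      · intro hy
        rw [← N.inv_mem_iff]
        refine Subgroup.mem_normalizer_fintype fun x hx => ?_
        obtain ⟨a, rfl⟩ := hx
        have e : y⁻¹ * c ^ a * y⁻¹⁻¹ = (y⁻¹ * c * y) ^ a := by
          rw [inv_inv]
          have := conj_zpow (a := y⁻¹) (b := c) (i := a)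
          rw [inv_inv] at this
          exact this.symm
        show y⁻¹ * c ^ a * y⁻¹⁻¹ ∈ C
        rw [e]
        exact C.zpow_mem hy a
    have hNP : ¬ p ∣ (P : Subgroup N).index := P.not_dvd_index
    have hdvd : Nat.card P ∣ Nat.card S := by
      have h1 : Nat.card S = Nat.card SN :=
        Nat.card_congr (SN.equivMapOfInjective _ N.subtype_injective).symm.toEquiv
      rw [h1]
      exact Subgroup.card_dvd_of_le hPS
    intro hdiv
    have hdiv2 : p ∣ Nat.card (MulAction.fixedBy (Q ⧸ S) g) := by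
      rw [fx] at hdiv
      exact_mod_cast hdiv
    have hdiv3 : p ∣ Nat.card (MulAction.fixedBy (Q ⧸ S) c) :=
      (Nat.modEq_zero_iff_dvd.mp (hfix.trans (Nat.modEq_zero_iff_dvd.mpr hdiv2)))
    have hcard2 : Nat.card N = Nat.card S * Nat.card (MulAction.fixedBy (Q ⧸ S) c) := by
      rw [fx] at hcard
      exact_mod_cast hcard
    apply hNP
    obtain ⟨a, ha⟩ := hdvd
    obtain ⟨b, hb⟩ := hdiv3
    have h5 : Nat.card P * (P : Subgroup N).index = Nat.card P * (p * (a * b)) := by
      rw [Subgroup.card_mul_index, hcard2, ha, hb]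
      ring
    have h6 : 0 < Nat.card P := Nat.card_pos
    rw [Nat.eq_of_mul_eq_mul_left h6 h5]
    exact Dvd.intro _ rfl

lemma exists_one {p : ℕ} (hp : p.Prime) :
    ∃ f : Q → ℤ, Comb p f ∧ ∀ x : Q, (p : ℤ) ∣ f x - 1 := by
  classical
  have : Fact p.Prime := ⟨hp⟩
  have : Fintype Q := Fintype.ofFinite Q
  have hcast : ∀ z : ℤ, (p : ℤ) ∣ z ↔ ((z : ℤ) : ZMod p) = 0 := fun z =>
    (ZMod.intCast_zmod_eq_zero_iff_dvd z p).symm
  have key : ∀ T : Finset Q, ∃ f : Q → ℤ, Comb p f ∧ (∀ x ∈ T, ((f x : ℤ) : ZMod p) = 1) ∧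
      ∀ x, ((f x : ℤ) : ZMod p) = 0 ∨ ((f x : ℤ) : ZMod p) = 1 := by
    intro T
    induction T using Finset.induction_on with
    | empty =>
      exact ⟨fun _ => 0, Comb.zero, fun x hx => absurd hx (Finset.notMem_empty x),
        fun x => Or.inl (by simp)⟩
    | insert g T _ ih =>
      obtain ⟨f, hf, hf1, hf2⟩ := ih
      obtain ⟨H, hH, hHg⟩ := exists_fx hp g
      have he : Comb p (fun x => fx H x ^ (p - 1)) :=
        (Comb.of_fx hH).pow (Nat.sub_pos_of_lt hp.one_lt)
      have he2 : ∀ x, (((fx H x ^ (p - 1) : ℤ)) : ZMod p) = 0 ∨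
          (((fx H x ^ (p - 1) : ℤ)) : ZMod p) = 1 := by
        intro x
        rw [Int.cast_pow]
        by_cases h0 : ((fx H x : ℤ) : ZMod p) = 0
        · left
          rw [h0, zero_pow (Nat.sub_pos_of_lt hp.one_lt).ne']
        · right
          exact ZMod.pow_card_sub_one_eq_one h0
      have he3 : (((fx H g ^ (p - 1) : ℤ)) : ZMod p) = 1 := by
        rw [Int.cast_pow]
        exact ZMod.pow_card_sub_one_eq_one fun h0 => hHg ((hcast _).mpr h0)
      refine ⟨fun x => (f x + fx H x ^ (p - 1)) + (-1) * (f x * fx H x ^ (p - 1)),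
        (hf.add he).add ((hf.mul he).smul (-1)), ?_, ?_⟩
      · intro x hx
        rw [Int.cast_add, Int.cast_mul, Int.cast_add, Int.cast_mul]
        rcases Finset.mem_insert.mp hx with rfl | hx
        · rw [he3]; push_cast; ring
        · rw [hf1 x hx]; push_cast; ring
      · intro x
        rw [Int.cast_add, Int.cast_mul, Int.cast_add, Int.cast_mul]
        rcases hf2 x with h1 | h1 <;> rcases he2 x with h2 | h2 <;> rw [h1, h2]
        · left; simp
        · right; simp
        · right; simp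
        · right; simp
  obtain ⟨f, hf, hf1, _⟩ := key Finset.univ
  refine ⟨f, hf, fun x => ?_⟩
  rw [hcast, Int.cast_sub, hf1 x (Finset.mem_univ x), Int.cast_one, sub_self]

end comb

/-- Some multiple, prime to `p`, of the trivial character is an integral combination of the
permutation characters on `Q ⧸ H` with `H` in the class `QE p`. -/
theorem local_induction (Q : Type*) [Group Q] [Finite Q] {p : ℕ} (hp : p.Prime) :
    ∃ m : ℕ, ¬ p ∣ m ∧ ∃ (s : Finset (Subgroup Q)) (a : Subgroup Q → ℤ),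
      (∀ H ∈ s, QE p H) ∧
      ∀ g : Q, (m : ℤ) = ∑ H ∈ s, a H * (Nat.card (MulAction.fixedBy (Q ⧸ H) g) : ℤ) := by
  classical
  obtain ⟨e, m, hm, hnm⟩ :=
    Nat.exists_eq_pow_mul_and_not_dvd (Nat.card_pos (α := Q)).ne' p hp.ne_one
  obtain ⟨f, hf, hf1⟩ := exists_one (Q := Q) hp
  have hF : Comb p (fun g => f g ^ (p ^ e)) := hf.pow (pow_pos hp.pos e)
  have hdiv : ∀ g, ((p : ℤ) ^ (e + 1)) ∣ f g ^ (p ^ e) - 1 := by
    intro g
    have := dvd_sub_pow_of_dvd_sub (hf1 g) e
    rwa [one_pow] at this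
  choose θ hθ using hdiv
  have hp0 : ((p : ℤ) ^ (e + 1)) ≠ 0 := pow_ne_zero _ (by exact_mod_cast hp.ne_zero)
  have hA : Comb p (fun g => (Nat.card Q : ℤ) * θ g) := by
    apply Comb.artin
    · intro g y
      apply mul_left_cancel₀ hp0
      rw [← hθ, ← hθ]
      have := hF.conj g y
      rw [this]
    · intro g g' hg
      apply mul_left_cancel₀ hp0
      rw [← hθ, ← hθ]
      have := hF.zpowers hg
      rw [this]
  obtain ⟨s, a, hs, ha⟩ := (hF.smul (m : ℤ)).add (hA.smul (-(p : ℤ)))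
  refine ⟨m, hm, s, a, hs, fun g => ?_⟩
  have h1 := ha g
  simp only [] at h1
  have h2 : (m : ℤ) * f g ^ p ^ e + -(p : ℤ) * ((Nat.card Q : ℤ) * θ g) = m := by
    have h3 : f g ^ p ^ e = 1 + (p : ℤ) ^ (e + 1) * θ g := by rw [← hθ]; ring
    rw [h3, hnm]
    push_cast
    ring
  rw [h2] at h1
  exact h1

end Pool.Agent.Lib.MP_8f66f0_al_Wall
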