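import Mathlib
import Pool.Agent.Lib.MP_8f66f0_al_Wall.Basic

/-! Group theory for the theorem of Clifford. -/

set_option autoImplicit false
set_option linter.unusedSectionVars false

namespace Pool.Agent.Lib.MP_8f66f0_al_Wall

/-- The class is closed under subgroups. -/
theorem QE.subgroup' {p : ℕ} {H : Type*} [Group H] (h : QE p H) (M : Subgroup H) : QE p M := by
  obtain ⟨C, hC, hcomm, hpow⟩ := h
  refine ⟨C.comap M.subtype, hC.comap _, ?_, ?_⟩
  · intro x hx y hy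
    exact Subtype.ext (hcomm _ hx _ hy)
  · intro h
    obtain ⟨k, hk⟩ := hpow h
    exact ⟨k, hk⟩

lemma exists_normal_index {H : Type*} [Group H] [Finite H] {p : ℕ} (hp : p.Prime)
    (B S : Subgroup H) [B.Normal] (hB : ∀ h : H, ∃ k : ℕ, h ^ (p ^ k) ∈ B) (hBS : B ≤ S)
    (hS : S ≠ ⊤) : ∃ M : Subgroup H, M.Normal ∧ M.index = p ∧ S ≤ M := by
  have : Fact p.Prime := ⟨hp⟩
  have hG : IsPGroup p (H ⧸ B) := by
    intro g
    induction g using QuotientGroup.induction_on with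
    | H g =>
      obtain ⟨k, hk⟩ := hB g
      refine ⟨k, ?_⟩
      rw [← QuotientGroup.mk_pow]
      exact (QuotientGroup.eq_one_iff _).mpr hk
  obtain ⟨a, ha⟩ := IsPGroup.iff_card.mp hG
  set S' := S.map (QuotientGroup.mk' B) with hS'
  obtain ⟨n, hn⟩ := IsPGroup.iff_card.mp (hG.to_subgroup S')
  have hker : (QuotientGroup.mk' B).ker ≤ S := by rw [QuotientGroup.ker_mk']; exact hBS
  have hS'top : S' ≠ ⊤ := by
    intro h
    apply hS
    have h1 : S'.comap (QuotientGroup.mk' B) = S := Subgroup.comap_map_eq_self hker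
    rw [← h1, h, Subgroup.comap_top]
  have hlt : Nat.card S' < Nat.card (H ⧸ B) := by
    refine lt_of_le_of_ne (Subgroup.card_le_card_group S') ?_
    intro h
    exact hS'top (Subgroup.eq_top_of_card_eq S' h)
  have hna : n < a := by
    rw [hn, ha] at hlt
    exact (Nat.pow_lt_pow_iff_right hp.one_lt).mp hlt
  obtain ⟨K, hK1, hK2⟩ := Sylow.exists_subgroup_card_pow_prime_le p (n := n) (m := a - 1)
    (by rw [ha]; exact pow_dvd_pow p (Nat.sub_le a 1)) S' hn (by omega)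
  have hKi : K.index = p := by
    have h1 := K.card_mul_index
    rw [hK1, ha] at h1
    have h2 : p ^ a = p ^ (a - 1) * p := by rw [← pow_succ]; congr 1; omega
    rw [h2] at h1
    exact Nat.eq_of_mul_eq_mul_left (pow_pos hp.pos _) h1
  have hKn : K.Normal := by
    apply Subgroup.normal_of_index_eq_minFac_card
    rw [hKi, ha, Nat.Prime.pow_minFac hp (by omega)]
  refine ⟨K.comap (QuotientGroup.mk' B), hKn.comap _, ?_, ?_⟩
  · rw [Subgroup.index_comap_of_surjective _ (QuotientGroup.mk'_surjective B), hKi]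
  · exact Subgroup.map_le_iff_le_comap.mp hK2

lemma exists_max_comm {H : Type*} [Group H] [Finite H] {p : ℕ} (hp : p.Prime) (hQ : QE p H)
    {R : Type*} [Monoid R] (ρ : H →* R) :
    (∀ g h, ρ g * ρ h = ρ h * ρ g) ∨ ∃ B : Subgroup H, B.Normal ∧
      (∀ x ∈ B, ∀ y ∈ B, ρ x * ρ y = ρ y * ρ x) ∧ (∀ h : H, ∃ k : ℕ, h ^ (p ^ k) ∈ B) ∧
        ∃ b ∈ B, ∃ h, ρ b * ρ h ≠ ρ h * ρ b := by
  have : Fact p.Prime := ⟨hp⟩
  obtain ⟨C, hC, hcomm, hpow⟩ := hQ
  set 𝓑 : Set (Subgroup H) := {B | B.Normal ∧ (∀ x ∈ B, ∀ y ∈ B, ρ x * ρ y = ρ y * ρ x) ∧ C ≤ B}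
    with h𝓑
  obtain ⟨B, hBmax⟩ := (Set.toFinite 𝓑).exists_maximal ⟨C, hC, fun x hx y hy => by
    rw [← map_mul, hcomm x hx y hy, map_mul], le_rfl⟩
  obtain ⟨hBn, hBc, hCB⟩ : B ∈ 𝓑 := hBmax.prop
  have hBp : ∀ h : H, ∃ k : ℕ, h ^ (p ^ k) ∈ B := fun h => by
    obtain ⟨k, hk⟩ := hpow h
    exact ⟨k, hCB hk⟩
  by_cases hcen : ∃ b ∈ B, ∃ h, ρ b * ρ h ≠ ρ h * ρ b
  · exact Or.inr ⟨B, hBn, hBc, hBp, hcen⟩
  left
  push Not at hcen
  by_cases htop : B = ⊤
  · intro g h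
    exact hBc g (htop ▸ Subgroup.mem_top g) h (htop ▸ Subgroup.mem_top h)
  exfalso
  have hG : IsPGroup p (H ⧸ B) := by
    intro g
    induction g using QuotientGroup.induction_on with
    | H g =>
      obtain ⟨k, hk⟩ := hBp g
      refine ⟨k, ?_⟩
      rw [← QuotientGroup.mk_pow]
      exact (QuotientGroup.eq_one_iff _).mpr hk
  have hnt : Nontrivial (H ⧸ B) := by
    by_contra hnt
    rw [not_nontrivial_iff_subsingleton] at hnt
    exact htop (QuotientGroup.subgroup_eq_top_of_subsingleton B hnt)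
  obtain ⟨⟨x', hx'⟩, hx'1⟩ := @exists_ne _ (hG.center_nontrivial) 1
  have hx'1 : x' ≠ 1 := fun h => hx'1 (Subtype.ext h)
  obtain ⟨x, rfl⟩ := QuotientGroup.mk'_surjective B x'
  set B1 : Subgroup H := (Subgroup.zpowers (QuotientGroup.mk' B x)).comap (QuotientGroup.mk' B)
    with hB1
  have hzn : (Subgroup.zpowers (QuotientGroup.mk' B x)).Normal := by
    refine ⟨fun n hn g => ?_⟩
    have h1 : n ∈ Subgroup.center (H ⧸ B) := (Subgroup.zpowers_le.mpr hx') hn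
    rw [Subgroup.mem_center_iff.mp h1 g, mul_inv_cancel_right]
    exact hn
  have hB1n : B1.Normal := hzn.comap _
  have hBB1 : B ≤ B1 := by
    intro b hb
    have h1 : QuotientGroup.mk' B b = 1 := (QuotientGroup.eq_one_iff b).mpr hb
    rw [hB1, Subgroup.mem_comap, h1]
    exact Subgroup.one_mem _
  have hxB1 : x ∈ B1 := Subgroup.mem_comap.mpr (Subgroup.mem_zpowers _)
  have hform : ∀ u ∈ B1, ∃ (i : ℤ) (b : H), b ∈ B ∧ u = x ^ i * b := by
    intro u hu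
    obtain ⟨i, hi⟩ := Subgroup.mem_zpowers_iff.mp (Subgroup.mem_comap.mp hu)
    refine ⟨i, (x ^ i)⁻¹ * u, ?_, by group⟩
    rw [← QuotientGroup.eq_one_iff]
    change QuotientGroup.mk' B ((x ^ i)⁻¹ * u) = 1
    rw [map_mul, map_inv, map_zpow, hi, inv_mul_cancel]
  have hB1c : ∀ u ∈ B1, ∀ v ∈ B1, ρ u * ρ v = ρ v * ρ u := by
    intro u hu v hv
    obtain ⟨i, b, hb, rfl⟩ := hform u hu
    obtain ⟨j, c, hc, rfl⟩ := hform v hv
    have h1 : ρ (x ^ i) * ρ (x ^ j) = ρ (x ^ j) * ρ (x ^ i) := by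
      rw [← map_mul, ← map_mul, ← zpow_add, ← zpow_add, add_comm]
    rw [map_mul, map_mul]
    calc ρ (x ^ i) * ρ b * (ρ (x ^ j) * ρ c) = ρ (x ^ i) * (ρ b * ρ (x ^ j)) * ρ c := by
          simp only [mul_assoc]
      _ = ρ (x ^ i) * ρ (x ^ j) * (ρ b * ρ c) := by rw [hcen b hb]; simp only [mul_assoc]
      _ = ρ (x ^ j) * (ρ (x ^ i) * ρ c) * ρ b := by
          rw [h1, hBc b hb c hc]; simp only [mul_assoc]
      _ = ρ (x ^ j) * ρ c * (ρ (x ^ i) * ρ b) := by rw [← hcen c hc]; simp only [mul_assoc]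
  have h2 := hBmax.le_of_ge (y := B1) ⟨hB1n, hB1c, hCB.trans hBB1⟩ hBB1
  exact hx'1 ((QuotientGroup.eq_one_iff x).mpr (h2 hxB1))

end Pool.Agent.Lib.MP_8f66f0_al_Wall
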