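import Mathlib

/-! Linear algebra for the theorem of Clifford. -/

set_option autoImplicit false
set_option linter.unusedSectionVars false

namespace Pool.Agent.Lib.MP_8f66f0_al_Wall

open Module Module.End

section act

variable {H F : Type*} [Group H] [Field F] {k : ℕ}

/-- The action on column vectors. -/
noncomputable def lact (ρ : H →* Matrix (Fin k) (Fin k) F) : H →* Module.End F (Fin k → F) :=
  ((Matrix.toLinAlgEquiv' : Matrix (Fin k) (Fin k) F ≃ₐ[F] _).toAlgHom.toRingHom.toMonoidHom).comp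
    ρ

lemma lact_eq (ρ : H →* Matrix (Fin k) (Fin k) F) (g : H) : lact ρ g = Matrix.toLin' (ρ g) := rfl

lemma lact_inj (ρ : H →* Matrix (Fin k) (Fin k) F) {a b : H} (h : lact ρ a = lact ρ b) :
    ρ a = ρ b := Matrix.toLin'.injective h

lemma lact_mul_apply (ρ : H →* Matrix (Fin k) (Fin k) F) (g h : H) (v : Fin k → F) :
    lact ρ (g * h) v = lact ρ g (lact ρ h v) := by rw [map_mul]; rfl

lemma lact_inv_apply (ρ : H →* Matrix (Fin k) (Fin k) F) (g : H) (v : Fin k → F) :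
    lact ρ g⁻¹ (lact ρ g v) = v := by
  rw [← lact_mul_apply, inv_mul_cancel, map_one]; rfl

lemma lact_injective (ρ : H →* Matrix (Fin k) (Fin k) F) (g : H) :
    Function.Injective (lact ρ g) := fun v w h => by
  rw [← lact_inv_apply ρ g v, h, lact_inv_apply]

lemma lact_comm (ρ : H →* Matrix (Fin k) (Fin k) F) (g h : H) :
    lact ρ g * lact ρ h = lact ρ h * lact ρ g ↔ ρ g * ρ h = ρ h * ρ g := by
  have h1 : ∀ a b, lact ρ a * lact ρ b = Matrix.toLin' (ρ a * ρ b) := fun a b =>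
    (Matrix.toLin'_mul _ _).symm
  rw [h1, h1]
  exact Matrix.toLin'.injective.eq_iff

lemma conj_basis (ρ : H →* Matrix (Fin k) (Fin k) F) {κ : Type*} [Fintype κ] [DecidableEq κ]
    (b : Basis κ F (Fin k → F)) :
    ∃ (T : Matrix (Fin k) κ F) (T' : Matrix κ (Fin k) F), T * T' = 1 ∧ T' * T = 1 ∧
      ∀ g, T' * ρ g * T = LinearMap.toMatrix b b (lact ρ g) := by
  refine ⟨(Pi.basisFun F (Fin k)).toMatrix b, b.toMatrix (Pi.basisFun F (Fin k)),
    Basis.toMatrix_mul_toMatrix_flip _ _, Basis.toMatrix_mul_toMatrix_flip _ _, fun g => ?_⟩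
  rw [← basis_toMatrix_mul_linearMap_toMatrix_mul_basis_toMatrix b (Pi.basisFun F (Fin k))
    b (Pi.basisFun F (Fin k)) (lact ρ g), lact_eq]
  congr 2
  exact (LinearMap.toMatrix'_toLin' (ρ g)).symm

end act

/-- The representation is equivalent to a block triangular one with two nonzero blocks. -/
def Red' {H F : Type*} [Group H] [Field F] {k : ℕ} (ρ : H →* Matrix (Fin k) (Fin k) F) : Prop :=
  ∃ (a b : ℕ) (ρ₁ : H →* Matrix (Fin a) (Fin a) F) (ρ₂ : H →* Matrix (Fin b) (Fin b) F)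
    (T : Matrix (Fin k) (Fin a ⊕ Fin b) F) (T' : Matrix (Fin a ⊕ Fin b) (Fin k) F),
    a < k ∧ b < k ∧ T * T' = 1 ∧ T' * T = 1 ∧
      ∀ g, ∃ X, T' * ρ g * T = Matrix.fromBlocks (ρ₁ g) X 0 (ρ₂ g)

section red

variable {H F : Type*} [Group H] [Field F] {k : ℕ}

/-- Block triangular homomorphisms. -/
lemma exists_blocks {a b : ℕ} (σ : H →* Matrix (Fin a ⊕ Fin b) (Fin a ⊕ Fin b) F)
    (h : ∀ g, (σ g).toBlocks₂₁ = 0) :
    ∃ (ρ₁ : H →* Matrix (Fin a) (Fin a) F) (ρ₂ : H →* Matrix (Fin b) (Fin b) F),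
      ∀ g, ∃ X, σ g = Matrix.fromBlocks (ρ₁ g) X 0 (ρ₂ g) := by
  have h1 : ∀ g, σ g = Matrix.fromBlocks (σ g).toBlocks₁₁ (σ g).toBlocks₁₂ 0 (σ g).toBlocks₂₂ :=
    fun g => by rw [← h g, Matrix.fromBlocks_toBlocks]
  have hmul : ∀ g h', Matrix.fromBlocks (σ (g * h')).toBlocks₁₁ (σ (g * h')).toBlocks₁₂ 0
      (σ (g * h')).toBlocks₂₂ = Matrix.fromBlocks ((σ g).toBlocks₁₁ * (σ h').toBlocks₁₁)
        ((σ g).toBlocks₁₁ * (σ h').toBlocks₁₂ + (σ g).toBlocks₁₂ * (σ h').toBlocks₂₂) 0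
          ((σ g).toBlocks₂₂ * (σ h').toBlocks₂₂) := by
    intro g h'
    rw [← h1 (g * h'), map_mul, h1 g, h1 h', Matrix.fromBlocks_multiply]
    simp
  have hone : Matrix.fromBlocks (σ 1).toBlocks₁₁ (σ 1).toBlocks₁₂ 0 (σ 1).toBlocks₂₂ =
      Matrix.fromBlocks 1 0 0 1 := by
    rw [← h1 1, map_one, Matrix.fromBlocks_one]
  refine ⟨⟨⟨fun g => (σ g).toBlocks₁₁, ?_⟩, ?_⟩, ⟨⟨fun g => (σ g).toBlocks₂₂, ?_⟩, ?_⟩,
    fun g => ⟨(σ g).toBlocks₁₂, h1 g⟩⟩
  · exact (Matrix.fromBlocks_inj.mp hone).1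
  · intro g h'
    exact (Matrix.fromBlocks_inj.mp (hmul g h')).1
  · exact (Matrix.fromBlocks_inj.mp hone).2.2.2
  · intro g h'
    exact (Matrix.fromBlocks_inj.mp (hmul g h')).2.2.2

/-- A proper nonzero invariant subspace gives a block triangular form. -/
lemma red_of_invariant (ρ : H →* Matrix (Fin k) (Fin k) F) (W : Submodule F (Fin k → F))
    (hW : ∀ g, ∀ v ∈ W, lact ρ g v ∈ W) (h0 : W ≠ ⊥) (h1 : W ≠ ⊤) : Red' ρ := by
  obtain ⟨W', hW'⟩ := Submodule.exists_isCompl W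
  set b1 := finBasis F W
  set b2 := finBasis F W'
  set b : Basis (Fin (finrank F W) ⊕ Fin (finrank F W')) F (Fin k → F) :=
    (b1.prod b2).map (Submodule.prodEquivOfIsCompl W W' hW') with hb
  obtain ⟨T, T', hT, hT', hg⟩ := conj_basis ρ b
  have hsum : finrank F W + finrank F W' = k := by
    rw [Submodule.finrank_add_eq_of_isCompl hW', finrank_fin_fun]
  have hpos : 0 < finrank F W := Nat.pos_of_ne_zero fun h => h0 (Submodule.finrank_eq_zero.mp h)
  have hlt : finrank F W < k := by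
    have := Submodule.finrank_lt h1
    rwa [finrank_fin_fun] at this
  set σ : H →* Matrix (Fin (finrank F W) ⊕ Fin (finrank F W'))
    (Fin (finrank F W) ⊕ Fin (finrank F W')) F :=
    ((LinearMap.toMatrixAlgEquiv b).toAlgHom.toRingHom.toMonoidHom).comp (lact ρ) with hσ
  have hσg : ∀ g, σ g = LinearMap.toMatrix b b (lact ρ g) := fun g => rfl
  obtain ⟨ρ₁, ρ₂, hρ⟩ := exists_blocks σ (by
    intro g
    ext i j
    rw [Matrix.toBlocks₂₁, Matrix.of_apply, hσg, LinearMap.toMatrix_apply]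
    have e1 : b (Sum.inl j) = (b1 j : Fin k → F) := by
      rw [hb, Basis.map_apply, Basis.prod_apply]
      simp
    have e2 : lact ρ g (b (Sum.inl j)) ∈ W := by rw [e1]; exact hW g _ (b1 j).2
    have e3 : (Submodule.prodEquivOfIsCompl W W' hW').symm (lact ρ g (b (Sum.inl j))) =
        (⟨_, e2⟩, 0) := Submodule.prodEquivOfIsCompl_symm_apply_left W W' hW' ⟨_, e2⟩
    rw [hb, Basis.map_repr, LinearEquiv.trans_apply, e3, Basis.prod_repr_inr]
    simp)
  refine ⟨finrank F W, finrank F W', ρ₁, ρ₂, T, T', hlt, by omega, hT, hT', fun g => ?_⟩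
  obtain ⟨X, hX⟩ := hρ g
  exact ⟨X, by rw [hg g, ← hσg, hX]⟩

/-- Commuting endomorphisms have a common eigenvector. -/
lemma exists_common_eigenvector {V ι : Type*} [AddCommGroup V] [Module F V] [FiniteDimensional F V]
    [Nontrivial V] [IsAlgClosed F] (f : ι → Module.End F V) (hf : ∀ i j, f i * f j = f j * f i) :
    ∃ χ : ι → F, ⨅ i, eigenspace (f i) (χ i) ≠ ⊥ := by
  set S : Set (Submodule F V) := {W | W ≠ ⊥ ∧ ∀ i, ∀ w ∈ W, f i w ∈ W} with hS
  obtain ⟨W, ⟨hW0, hWi⟩, hWmin⟩ := (wellFounded_lt (α := Submodule F V)).has_min S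
    ⟨⊤, top_ne_bot, fun _ _ _ => Submodule.mem_top⟩
  have key : ∀ i, ∃ μ : F, W ≤ eigenspace (f i) μ := by
    intro i
    have : Nontrivial W := (Submodule.nontrivial_iff_ne_bot).mpr hW0
    obtain ⟨μ, hμ⟩ := Module.End.exists_eigenvalue ((f i).restrict (hWi i))
    obtain ⟨w, hw⟩ := hμ.exists_hasEigenvector
    refine ⟨μ, ?_⟩
    have h1 : W ⊓ eigenspace (f i) μ ∈ S := by
      refine ⟨?_, ?_⟩
      · intro h
        have h2 : (w : V) ∈ W ⊓ eigenspace (f i) μ := by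
          refine Submodule.mem_inf.mpr ⟨w.2, ?_⟩
          rw [mem_eigenspace_iff]
          exact congrArg Subtype.val hw.apply_eq_smul
        rw [h, Submodule.mem_bot] at h2
        exact hw.2 (Subtype.ext h2)
      · intro j v hv
        refine Submodule.mem_inf.mpr ⟨hWi j v hv.1, ?_⟩
        have h3 := mem_eigenspace_iff.mp hv.2
        rw [mem_eigenspace_iff]
        have h4 := congrArg (fun f => f v) (hf i j)
        change f i (f j v) = f j (f i v) at h4
        rw [h4, h3, map_smul]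
    have h2 : ¬ (W ⊓ eigenspace (f i) μ < W) := hWmin _ h1
    have h3 : W ⊓ eigenspace (f i) μ = W := eq_of_le_of_not_lt inf_le_left h2
    exact inf_eq_left.mp h3
  choose χ hχ using key
  refine ⟨χ, fun h => hW0 ?_⟩
  rw [eq_bot_iff, ← h]
  exact le_iInf hχ

end red

section clifford

variable {H F : Type*} [Group H] [Field F] {k : ℕ} (ρ : H →* Matrix (Fin k) (Fin k) F)
  (B : Subgroup H) [B.Normal]

/-- The common eigenspaces of a normal subgroup. -/
noncomputable def ceig (χ : B → F) : Submodule F (Fin k → F) :=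
  ⨅ b : B, eigenspace (lact ρ b) (χ b)

/-- The action on functions. -/
def cj (h : H) (χ : B → F) : B → F := fun b => χ (MulAut.conjNormal h⁻¹ b)

lemma cj_mul (g h : H) (χ : B → F) : cj B (g * h) χ = cj B g (cj B h χ) := by
  ext b
  unfold cj
  rw [mul_inv_rev, map_mul]
  rfl

lemma cj_one (χ : B → F) : cj B 1 χ = χ := by
  ext b
  unfold cj
  rw [inv_one, map_one]
  rfl

lemma mem_ceig {χ : B → F} {v : Fin k → F} :
    v ∈ ceig ρ B χ ↔ ∀ b : B, lact ρ b v = χ b • v := by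
  unfold ceig
  rw [Submodule.mem_iInf]
  exact forall_congr' fun b => mem_eigenspace_iff

lemma lact_mem_ceig (h : H) {χ : B → F} {v : Fin k → F} (hv : v ∈ ceig ρ B χ) :
    lact ρ h v ∈ ceig ρ B (cj B h χ) := by
  rw [mem_ceig] at hv ⊢
  intro b
  have h1 : (b : H) * h = h * ((MulAut.conjNormal h⁻¹ b : B) : H) := by
    rw [MulAut.conjNormal_apply]
    group
  rw [← lact_mul_apply, h1, lact_mul_apply, hv, map_smul]
  rfl

lemma iSupIndep_ceig (hB : ∀ x ∈ B, ∀ y ∈ B, ρ x * ρ y = ρ y * ρ x) :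
    iSupIndep (ceig ρ B) := by
  have h1 := Module.End.independent_iInf_maxGenEigenspace_of_forall_mapsTo
    (fun b : B => lact ρ b) (fun i j φ => Module.End.mapsTo_maxGenEigenspace_of_comm
      (show Commute (lact ρ j) (lact ρ i) from (lact_comm ρ _ _).mpr (hB _ j.2 _ i.2)) φ)
  refine h1.mono fun χ => ?_
  exact iInf_mono fun b => eigenspace_le_maxGenEigenspace

end clifford

end Pool.Agent.Lib.MP_8f66f0_al_Wall
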