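import Mathlib
import Pool.Agent.Lib.MP_8f66f0_al_Wall.CliffordGroup
import Pool.Agent.Lib.MP_8f66f0_al_Wall.CliffordLin

/-! Representations of groups with an abelian normal subgroup whose quotient is a `p`-group. -/

set_option autoImplicit false
set_option linter.unusedSectionVars false

namespace Pool.Agent.Lib.MP_8f66f0_al_Wall

open Pool.Agent.Lib.MP_8f66f0_al_Dennis Pool.Agent.Lib.MP_8f66f0_al_FinQ
open Pool.Agent.Lib.MP_8f66f0_al_Plus

/-- The class is closed under subgroups. -/
theorem QE.subgroup {p : ℕ} {H : Type*} [Group H] (h : QE p H) (M : Subgroup H) : QE p M :=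
  QE.subgroup' h M

/-- The representation is equivalent to a block triangular one with two nonzero blocks. -/
def Red {H F : Type*} [Group H] [Field F] {k : ℕ} (ρ : H →* Matrix (Fin k) (Fin k) F) : Prop :=
  ∃ (a b : ℕ) (ρ₁ : H →* Matrix (Fin a) (Fin a) F) (ρ₂ : H →* Matrix (Fin b) (Fin b) F)
    (T : Matrix (Fin k) (Fin a ⊕ Fin b) F) (T' : Matrix (Fin a ⊕ Fin b) (Fin k) F),
    a < k ∧ b < k ∧ T * T' = 1 ∧ T' * T = 1 ∧
      ∀ g, ∃ X, T' * ρ g * T = Matrix.fromBlocks (ρ₁ g) X 0 (ρ₂ g)

/-- A representation whose image is commutative is at most one-dimensional or reducible (a common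
eigenvector). -/
theorem red_of_comm {H F : Type*} [Group H] [Field F] [IsAlgClosed F] {k : ℕ}
    (ρ : H →* Matrix (Fin k) (Fin k) F) (hc : ∀ g h, ρ g * ρ h = ρ h * ρ g) :
    k ≤ 1 ∨ Red ρ := by
  by_cases hk : k ≤ 1
  · exact Or.inl hk
  right
  by_contra hred
  have hirr : ∀ W : Submodule F (Fin k → F), (∀ g, ∀ v ∈ W, lact ρ g v ∈ W) → W = ⊥ ∨ W = ⊤ := by
    intro W hW
    by_contra h
    push Not at h
    exact hred (red_of_invariant ρ W hW h.1 h.2)
  have hnt : Nontrivial (Fin k → F) := by
    have : Nonempty (Fin k) := ⟨⟨0, by omega⟩⟩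
    infer_instance
  have hcomm : ∀ g h, lact ρ g * lact ρ h = lact ρ h * lact ρ g := fun g h =>
    (lact_comm ρ g h).mpr (hc g h)
  obtain ⟨χ, hχ⟩ := exists_common_eigenvector (fun g => lact ρ g) hcomm
  obtain ⟨v, hv, hv0⟩ := Submodule.exists_mem_ne_zero_of_ne_bot hχ
  have hvg : ∀ g, lact ρ g v = χ g • v := fun g =>
    Module.End.mem_eigenspace_iff.mp ((Submodule.mem_iInf _).mp hv g)
  rcases hirr (F ∙ v) (by
    intro g w hw
    obtain ⟨c, rfl⟩ := Submodule.mem_span_singleton.mp hw
    rw [map_smul, hvg]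
    exact Submodule.smul_mem _ _ (Submodule.smul_mem _ _ (Submodule.mem_span_singleton_self v)))
    with h | h
  · exact hv0 (Submodule.span_singleton_eq_bot.mp h)
  · have h1 := finrank_span_singleton (K := F) hv0
    rw [h, finrank_top, Module.finrank_fin_fun] at h1
    omega

/-- Clifford. Let `H` be a finite group in the class `QE p` and `ρ` a representation over an
algebraically closed field (of any characteristic). Then `ρ` is at most one-dimensional, or
reducible, or equivalent to a representation induced from a normal subgroup of index `p`.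

Proof. Let `ρ` be irreducible of dimension at least two; let `H' = H ⧸ ker ρ`, again in the class.
Let `B` be a maximal one among the abelian normal subgroups of `H'` which contain `C`. Its
centralizer is `B`: otherwise the centralizer modulo `B` is a nontrivial normal subgroup of the
`p`-group `H' ⧸ B` and contains a central element `x B ≠ B` of it; the subgroup generated by `B`
and `x` is abelian and normal. `H'` is not abelian (`red_of_comm`), so `B` is not central, and as
`ρ` is faithful on `H'`, `B` does not act by scalars. `B` has a common eigenvector; for a character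
`λ` of `B` let `V_λ` be the common eigenspace. The elements of `H` permute the `V_λ`, which are
independent; the sum of the `V_λ` over an orbit is invariant, hence everything. The stabilizer `S`
of a `λ` with `V_λ ≠ 0` is a proper subgroup of `H` containing (the preimage of) `B`, so it is
contained in a normal subgroup `M` of index `p` (`p`-groups). Let `W` be the sum of the `V_μ` for
`μ` in the `M`-orbit of `λ`. It is `M`-invariant, and the space is the direct sum of the `t W`,
`t ∈ H ⧸ M`. With a basis `b_i` of `W` and the basis `t.out b_i` of the space the matrices of `ρ`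
are those of `indRep M ρ'`, `ρ'` the matrices of `M` on `W`. -/
theorem clifford {H F : Type*} [Group H] [Finite H] [Field F] [IsAlgClosed F] {p : ℕ}
    (hp : p.Prime) (hQ : QE p H) [∀ M : Subgroup H, Fintype (H ⧸ M)]
    [∀ M : Subgroup H, DecidableEq (H ⧸ M)] {k : ℕ} (ρ : H →* Matrix (Fin k) (Fin k) F) :
    k ≤ 1 ∨ Red ρ ∨ ∃ (M : Subgroup H) (_ : M.Normal) (_ : M.index = p) (d : ℕ)
      (ρ' : M →* Matrix (Fin d) (Fin d) F) (T : Matrix (Fin k) ((H ⧸ M) × Fin d) F)
      (T' : Matrix ((H ⧸ M) × Fin d) (Fin k) F), T * T' = 1 ∧ T' * T = 1 ∧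
        ∀ g, T' * ρ g * T = indRep M ρ' g := by
  by_cases hk : k ≤ 1
  · exact Or.inl hk
  right
  by_cases hred : Red ρ
  · exact Or.inl hred
  right
  have hirr : ∀ W : Submodule F (Fin k → F), (∀ g, ∀ v ∈ W, lact ρ g v ∈ W) → W = ⊥ ∨ W = ⊤ := by
    intro W hW
    by_contra h
    push Not at h
    exact hred (red_of_invariant ρ W hW h.1 h.2)
  have hnt : Nontrivial (Fin k → F) := by
    have : Nonempty (Fin k) := ⟨⟨0, by omega⟩⟩
    infer_instance
  rcases exists_max_comm hp hQ ρ with hcomm | ⟨B, hBn, hBc, hBp, b0, hb0, h0, hb0h⟩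
  · rcases red_of_comm ρ hcomm with h | h
    · exact absurd h hk
    · exact absurd h hred
  -- the common eigenspaces
  obtain ⟨χ, hχ⟩ := exists_common_eigenvector (fun b : B => lact ρ b) (fun i j =>
    (lact_comm ρ i j).mpr (hBc i i.2 j j.2))
  set E0 : Submodule F (Fin k → F) := ceig ρ B χ with hE0
  have hE0b : E0 ≠ ⊥ := hχ
  -- the stabilizer
  set S : Subgroup H := {
    carrier := {h | cj B h χ = χ}
    one_mem' := cj_one B χ
    mul_mem' := fun {a b} ha hb => by
      change cj B (a * b) χ = χ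
      rw [cj_mul, show cj B b χ = χ from hb]; exact ha
    inv_mem' := fun {a} ha => by
      change cj B a⁻¹ χ = χ
      conv_lhs => rw [← show cj B a χ = χ from ha]
      rw [← cj_mul, inv_mul_cancel, cj_one] } with hS
  have hBS : B ≤ S := by
    intro b hb
    change cj B b χ = χ
    obtain ⟨v, hv, hv0⟩ := Submodule.exists_mem_ne_zero_of_ne_bot hE0b
    have hv1 := lact_mem_ceig ρ B b hv
    have hv2 := (mem_ceig ρ B).mp hv
    rw [hv2 ⟨b, hb⟩, mem_ceig] at hv1
    have hχb : χ ⟨b, hb⟩ ≠ 0 := by
      intro h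
      have h1 := hv2 ⟨b, hb⟩
      rw [h, zero_smul] at h1
      exact hv0 ((lact_injective ρ b) (by rw [h1, map_zero]))
    funext b'
    have h1 := hv1 b'
    rw [map_smul, hv2 b', smul_smul, smul_smul, mul_comm] at h1
    exact (mul_right_cancel₀ hχb (smul_left_injective F hv0 h1)).symm
  have hStop : S ≠ ⊤ := by
    intro htop
    have h1 : E0 = ⊤ := (hirr E0 (fun g v hv => by
      have h2 := lact_mem_ceig ρ B g hv
      rwa [show cj B g χ = χ from (htop ▸ Subgroup.mem_top g : g ∈ S)] at h2)).resolve_left hE0b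
    apply hb0h
    rw [← lact_comm]
    refine LinearMap.ext fun v => ?_
    have h2 : ∀ v, lact ρ b0 v = χ ⟨b0, hb0⟩ • v := fun v =>
      (mem_ceig ρ B).mp (h1 ▸ Submodule.mem_top : v ∈ E0) ⟨b0, hb0⟩
    change lact ρ b0 (lact ρ h0 v) = lact ρ h0 (lact ρ b0 v)
    rw [h2, h2, map_smul]
  obtain ⟨M, hMn, hMi, hSM⟩ := exists_normal_index hp B S hBp hBS hStop
  refine ⟨M, hMn, hMi, ?_⟩
  set W : Submodule F (Fin k → F) := ⨆ m : M, E0.map (lact ρ m) with hW
  have hWM : ∀ m ∈ M, ∀ v ∈ W, lact ρ m v ∈ W := by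
    intro m hm v hv
    have h1 : W.map (lact ρ m) ≤ W := by
      rw [hW, Submodule.map_iSup]
      refine iSup_le fun m' => ?_
      rw [← Submodule.map_comp]
      have h2 : (lact ρ m).comp (lact ρ m') = lact ρ ((⟨m, hm⟩ * m' : M) : H) :=
        (map_mul (lact ρ) m m').symm
      rw [h2]
      exact le_iSup (fun m' : M => E0.map (lact ρ m')) _
    exact h1 (Submodule.mem_map_of_mem hv)
  have hE0W : E0 ≤ W := by
    have h1 : E0.map (lact ρ ((1 : M) : H)) = E0 := by
      rw [Subgroup.coe_one, map_one]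
      exact Submodule.map_id E0
    rw [← h1]
    exact le_iSup (fun m' : M => E0.map (lact ρ m')) 1
  set A : H ⧸ M → Submodule F (Fin k → F) := fun t => W.map (lact ρ t.out) with hA
  have hAt : ∀ g t, ∀ v ∈ A t, lact ρ g v ∈ A (g • t) := by
    intro g t v hv
    obtain ⟨w, hw, rfl⟩ := Submodule.mem_map.mp hv
    have h1 : g * t.out = (g • t).out * ((g • t).out⁻¹ * g * t.out) := by group
    rw [← lact_mul_apply, h1, lact_mul_apply]
    exact Submodule.mem_map_of_mem (hWM _ (Pool.Agent.Lib.MP_8f66f0_al_FinQ.out_mem M g t) w hw)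
  have htop : ⨆ t, A t = ⊤ := by
    refine (hirr _ (fun g v hv => ?_)).resolve_left ?_
    · have h1 : (⨆ t, A t).map (lact ρ g) ≤ ⨆ t, A t := by
        rw [Submodule.map_iSup]
        refine iSup_le fun t => ?_
        refine le_trans ?_ (le_iSup A (g • t))
        rintro _ ⟨v, hv, rfl⟩
        exact hAt g t v hv
      exact h1 (Submodule.mem_map_of_mem hv)
    · intro h
      obtain ⟨v, hv, hv0⟩ := Submodule.exists_mem_ne_zero_of_ne_bot hE0b
      have h1 : lact ρ ((1 : H) : H ⧸ M).out v ∈ ⨆ t, A t :=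
        (le_iSup A ((1 : H) : H ⧸ M)) (Submodule.mem_map_of_mem (hE0W hv))
      rw [h, Submodule.mem_bot] at h1
      exact hv0 ((lact_injective ρ _) (by rw [h1, map_zero]))
  have hind : iSupIndep A := by
    set O : H ⧸ M → Set (B → F) := fun t => {χ' | ∃ g : H, (g : H ⧸ M) = t ∧ χ' = cj B g χ}
      with hO
    have hAO : ∀ t, A t ≤ ⨆ χ' ∈ O t, ceig ρ B χ' := by
      intro t
      rw [hA, hW]
      beta_reduce
      rw [Submodule.map_iSup]
      refine iSup_le fun m => ?_
      rw [← Submodule.map_comp]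
      refine le_trans ?_ (le_biSup (ceig ρ B) (i := cj B (t.out * m) χ) ⟨t.out * m, ?_, rfl⟩)
      · rintro _ ⟨v, hv, rfl⟩
        have h2 : ((lact ρ t.out).comp (lact ρ m)) v = lact ρ (t.out * m) v :=
          (lact_mul_apply ρ _ _ v).symm
        rw [h2]
        exact lact_mem_ceig ρ B _ hv
      · rw [QuotientGroup.mk_mul_of_mem _ m.2, QuotientGroup.out_eq']
    have hOd : ∀ t t', t ≠ t' → Disjoint (O t) (O t') := by
      intro t t' htt
      rw [Set.disjoint_left]
      rintro χ' ⟨g, hg, hχg⟩ ⟨g', hg', hχg'⟩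
      apply htt
      rw [← hg, ← hg']
      refine QuotientGroup.eq.mpr (hSM ?_)
      change cj B (g⁻¹ * g') χ = χ
      rw [cj_mul, ← hχg', hχg, ← cj_mul, inv_mul_cancel, cj_one]
    intro t
    have h1 : (⨆ t', ⨆ (_ : t' ≠ t), A t') ≤ ⨆ χ' ∈ (⋃ t' ∈ {t' | t' ≠ t}, O t'), ceig ρ B χ' := by
      refine iSup₂_le fun t' ht' => (hAO t').trans ?_
      exact biSup_mono fun χ' hχ' => Set.mem_biUnion (show t' ∈ {t' | t' ≠ t} from ht') hχ'
    refine Disjoint.mono (hAO t) h1 ?_
    refine (iSupIndep_ceig ρ B hBc).disjoint_biSup_biSup ?_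
    rw [Set.disjoint_iUnion₂_right]
    intro t' ht'
    exact hOd t t' (Ne.symm ht')
  have hint : DirectSum.IsInternal A :=
    DirectSum.isInternal_submodule_of_iSupIndep_of_iSup_eq_top hind htop
  set bW := Module.finBasis F W
  set bs : ∀ t : H ⧸ M, Module.Basis (Fin (Module.finrank F W)) F (A t) := fun t =>
    bW.map (Submodule.equivMapOfInjective (lact ρ t.out) (lact_injective ρ _) W) with hbs
  set b : Module.Basis ((H ⧸ M) × Fin (Module.finrank F W)) F (Fin k → F) :=
    (hint.collectedBasis bs).reindex (Equiv.sigmaEquivProd _ _) with hb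
  have hbti : ∀ t i, b (t, i) = lact ρ t.out (bW i) := by
    intro t i
    rw [hb, Module.Basis.reindex_apply, DirectSum.IsInternal.collectedBasis_coe]
    rfl
  set act : M →* Module.End F W := {
    toFun := fun m => (lact ρ m).restrict (hWM m m.2)
    map_one' := by
      refine LinearMap.ext fun w => Subtype.ext ?_
      change lact ρ ((1 : M) : H) w = w
      rw [Subgroup.coe_one, map_one]
      rfl
    map_mul' := fun m m' => by
      refine LinearMap.ext fun w => Subtype.ext ?_
      exact lact_mul_apply ρ m m' w } with hact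
  set ρ' : M →* Matrix (Fin (Module.finrank F W)) (Fin (Module.finrank F W)) F :=
    ((LinearMap.toMatrixAlgEquiv bW).toAlgHom.toRingHom.toMonoidHom).comp act with hρ'
  have hρ'a : ∀ m j i, ρ' m j i = bW.repr (act m (bW i)) j := fun m j i =>
    LinearMap.toMatrix_apply bW bW (act m) j i
  obtain ⟨T, T', hT, hT', hg⟩ := conj_basis ρ b
  refine ⟨Module.finrank F W, ρ', T, T', hT, hT', fun g => ?_⟩
  rw [hg]
  ext x' x
  obtain ⟨t, i⟩ := x
  rw [LinearMap.toMatrix_apply, indRep_apply, hbti]
  set m : M := ⟨(g • t).out⁻¹ * g * t.out, Pool.Agent.Lib.MP_8f66f0_al_FinQ.out_mem M g t⟩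
    with hm
  have key : lact ρ g (lact ρ t.out (bW i)) = ∑ j, ρ' m j i • b (g • t, j) := by
    have h1 : g * t.out = (g • t).out * (m : H) := by rw [hm]; group
    rw [← lact_mul_apply, h1, lact_mul_apply]
    have h2 : lact ρ m (bW i) = ((act m (bW i) : W) : Fin k → F) := rfl
    have h3 : act m (bW i) = ∑ j, ρ' m j i • bW j := by
      rw [← bW.sum_repr (act m (bW i))]
      exact Finset.sum_congr rfl fun j _ => by rw [hρ'a]
    rw [h2, h3, Submodule.coe_sum, map_sum]
    refine Finset.sum_congr rfl fun j _ => ?_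
    rw [Submodule.coe_smul, map_smul, hbti]
  rw [key, map_sum, Finsupp.finsetSum_apply]
  obtain ⟨t', j'⟩ := x'
  by_cases ht : t' = g • t
  · rw [if_pos ht]
    rw [Finset.sum_eq_single j']
    · rw [map_smul, Finsupp.smul_apply, Module.Basis.repr_self, ← ht, Finsupp.single_eq_same,
        smul_eq_mul, mul_one]
    · intro j _ hj
      rw [map_smul, Finsupp.smul_apply, Module.Basis.repr_self, Finsupp.single_apply, if_neg,
        smul_zero]
      intro h
      exact hj (Prod.ext_iff.mp h).2
    · intro h; exact absurd (Finset.mem_univ _) h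
  · rw [if_neg ht]
    refine Finset.sum_eq_zero fun j _ => ?_
    rw [map_smul, Finsupp.smul_apply, Module.Basis.repr_self, Finsupp.single_apply, if_neg,
      smul_zero]
    intro h
    exact ht (Prod.ext_iff.mp h).1.symm

end Pool.Agent.Lib.MP_8f66f0_al_Wall
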