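import Mathlib
import Pool.Agent.Lib.MP_8f66f0_al_Plus.Words
import Pool.Agent.Lib.MP_8f66f0_al_Wall.Basic

/-! The torsion congruence. -/

set_option autoImplicit false
set_option linter.unusedSectionVars false

namespace Pool.Agent.Lib.MP_8f66f0_al_Wall

open Pool.Agent.Lib.MP_8f66f0_al_Dennis Pool.Agent.Lib.MP_8f66f0_al_FinQ
open Pool.Agent.Lib.MP_8f66f0_al_Plus

section expansion

variable {X : Type*} [CommGroup X] {K S : Type*} [Fintype K] [DecidableEq K] [Fintype S]

lemma prod_single' (s : Finset K) (m : K → X) (c : K → ℤ) :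
    ∏ k ∈ s, (MonoidAlgebra.single (m k) (c k) : MonoidAlgebra ℤ X) =
      MonoidAlgebra.single (∏ k ∈ s, m k) (∏ k ∈ s, c k) := by
  classical
  induction s using Finset.induction_on with
  | empty => rw [Finset.prod_empty, Finset.prod_empty, Finset.prod_empty, MonoidAlgebra.one_def]
  | insert a s ha ih =>
    rw [Finset.prod_insert ha, Finset.prod_insert ha, Finset.prod_insert ha, ih,
      MonoidAlgebra.single_mul_single]

open Classical in
/-- Expansion of the coefficient at one of a determinant. -/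
lemma det_coeff_one (m : K → S → X) (c : K → K → S → ℤ) (N : Matrix K K (MonoidAlgebra ℤ X))
    (hN : ∀ a b, N a b = ∑ x, MonoidAlgebra.single (m b x) (c a b x)) :
    N.det.coeff 1 = ∑ e : Equiv.Perm K × (K → S),
      if ∏ k, m k (e.2 k) = 1 then (Equiv.Perm.sign e.1 : ℤ) * ∏ k, c (e.1 k) k (e.2 k) else 0 := by
  rw [Matrix.det_apply, MonoidAlgebra.coeff_sum, Finsupp.finsetSum_apply, Fintype.sum_prod_type]
  refine Finset.sum_congr rfl fun σ _ => ?_
  have h1 : ∏ k, N (σ k) k = ∑ w : K → S, MonoidAlgebra.single (∏ k, m k (w k))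
      (∏ k, c (σ k) k (w k)) := by
    rw [Finset.prod_congr rfl fun k _ => hN (σ k) k, Finset.prod_univ_sum, Fintype.piFinset_univ]
    refine Finset.sum_congr rfl fun w _ => ?_
    rw [prod_single']
  rw [h1, Finset.smul_sum, MonoidAlgebra.coeff_sum, Finsupp.finsetSum_apply]
  refine Finset.sum_congr rfl fun w _ => ?_
  rw [Units.smul_def, MonoidAlgebra.coeff_smul, Finsupp.smul_apply, MonoidAlgebra.coeff_single,
    Finsupp.single_apply, zsmul_eq_mul]
  split_ifs <;> simp

end expansion

section transfer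

variable {H : Type*} [Group H] (M : Subgroup H)

/-- The element of the abelianization of `M` attached to `x` and a coset. -/
noncomputable def mm (x : H) (t : H ⧸ M) : Abelianization M :=
  Abelianization.of ⟨(x • t).out⁻¹ * x * t.out, out_mem M x t⟩

lemma mm_mul (x y : H) (t : H ⧸ M) : mm M (x * y) t = mm M x (y • t) * mm M y t := by
  unfold mm
  rw [← map_mul]
  congr 1
  apply Subtype.ext
  change ((x * y) • t).out⁻¹ * (x * y) * t.out =
    ((x • y • t).out⁻¹ * x * (y • t).out) * ((y • t).out⁻¹ * y * t.out)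
  rw [mul_smul]
  group

variable [Fintype (H ⧸ M)]

/-- The transfer. -/
noncomputable def tr : H →* Abelianization M where
  toFun x := ∏ t, mm M x t
  map_one' := by
    refine Finset.prod_eq_one fun t _ => ?_
    have h := mm_mul M 1 1 t
    rw [mul_one, one_smul] at h
    exact (mul_eq_left.mp h.symm)
  map_mul' x y := by
    rw [Finset.prod_congr rfl fun t _ => mm_mul M x y t, Finset.prod_mul_distrib]
    congr 1
    exact Equiv.prod_comp (MulAction.toPerm y) (fun t => mm M x t)

lemma tr_apply (x : H) : tr M x = ∏ t, mm M x t := rfl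

variable [DecidableEq (H ⧸ M)] {ι : Type*} [Fintype ι] [DecidableEq ι]

lemma eq_sum_single {G : Type*} {S : Finset G} {y : MonoidAlgebra ℤ G} (hS : y.coeff.support ⊆ S) :
    y = ∑ x : S, MonoidAlgebra.single (x : G) (y.coeff x) := by
  classical
  have h1 : ∑ x : S, MonoidAlgebra.single (x : G) (y.coeff x) =
      ∑ x ∈ S, MonoidAlgebra.single x (y.coeff x) :=
    Finset.sum_coe_sort S fun x => MonoidAlgebra.single x (y.coeff x)
  rw [h1]
  apply MonoidAlgebra.coeff_injective
  ext g
  rw [MonoidAlgebra.coeff_sum, Finsupp.finsetSum_apply]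
  simp only [MonoidAlgebra.coeff_single, Finsupp.single_apply]
  rw [Finset.sum_ite_eq' S g]
  by_cases hg : g ∈ S
  · rw [if_pos hg]
  · rw [if_neg hg]
    exact Finsupp.notMem_support_iff.mp fun h => hg (hS h)

lemma entry_res {S : Finset H} {A : Matrix ι ι (MonoidAlgebra ℤ H)}
    (hS : ∀ i j, (A i j).coeff.support ⊆ S) (a b : ι × (H ⧸ M)) :
    mapMat (Abelianization.of (G := M)) (resMat M A) a b =
      ∑ x : S, MonoidAlgebra.single (mm M x b.2)
        (if a.2 = (x : H) • b.2 then (A a.1 b.1).coeff x else 0) := by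
  have h0 : mapMat (Abelianization.of (G := M)) (resMat M A) a b =
      MonoidAlgebra.mapDomainRingHom ℤ (Abelianization.of (G := M))
        ((MonoidAlgebra.lift ℤ (Matrix (H ⧸ M) (H ⧸ M) (MonoidAlgebra ℤ M)) H
      (indHom M (MonoidAlgebra.of ℤ M))) (A a.1 b.1) a.2 b.2) := rfl
  rw [h0]
  conv_lhs => rw [eq_sum_single (hS a.1 b.1)]
  rw [map_sum, Matrix.sum_apply, map_sum]
  refine Finset.sum_congr rfl fun x _ => ?_
  rw [MonoidAlgebra.lift_single, Matrix.smul_apply, indHom_apply]
  by_cases h : a.2 = (x : H) • b.2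
  · rw [if_pos h, if_pos h, map_zsmul, MonoidAlgebra.of_apply, MonoidAlgebra.mapDomainRingHom_apply,
      MonoidAlgebra.mapDomain_single, MonoidAlgebra.smul_single, smul_eq_mul, mul_one]
    rfl
  · rw [if_neg h, if_neg h, smul_zero, map_zero, MonoidAlgebra.single_zero]

lemma entry_tr {S : Finset H} {A : Matrix ι ι (MonoidAlgebra ℤ H)}
    (hS : ∀ i j, (A i j).coeff.support ⊆ S) (i j : ι) :
    mapMat (tr M) A i j = ∑ x : S, MonoidAlgebra.single (tr M x) ((A i j).coeff x) := by
  have h0 : mapMat (tr M) A i j = MonoidAlgebra.mapDomainRingHom ℤ (tr M) (A i j) := rfl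
  rw [h0]
  conv_lhs => rw [eq_sum_single (hS i j)]
  rw [map_sum]
  refine Finset.sum_congr rfl fun x _ => ?_
  rw [MonoidAlgebra.mapDomainRingHom_apply, MonoidAlgebra.mapDomain_single]

lemma det_mapMat_tr {A : Matrix ι ι (MonoidAlgebra ℤ H)} (hu : uEl A = 1) :
    (mapMat (tr M) A).det = 1 := by
  have h1 : mapMat (tr M) A = (MonoidAlgebra.mapDomainRingHom ℤ (Abelianization.lift (tr M))).mapMatrix
      (mapMat (Abelianization.of (G := H)) A) := by
    ext i j : 1
    change MonoidAlgebra.mapDomainRingHom ℤ (tr M) (A i j) =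
      MonoidAlgebra.mapDomainRingHom ℤ (Abelianization.lift (tr M))
        (MonoidAlgebra.mapDomainRingHom ℤ (Abelianization.of (G := H)) (A i j))
    have h2 : (Abelianization.lift (tr M)).comp (Abelianization.of (G := H)) = tr M := by
      ext x; rfl
    rw [← RingHom.comp_apply, ← MonoidAlgebra.mapDomainRingHom_comp, h2]
  rw [h1, ← RingHom.map_det]
  change MonoidAlgebra.mapDomainRingHom ℤ (Abelianization.lift (tr M)) (uEl A) = 1
  rw [hu, map_one]

end transfer

section shift

variable {K S : Type*}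

/-- The action of the permutations of `K` on the families. -/
def famAct (K S : Type*) : Equiv.Perm K →* Equiv.Perm (Equiv.Perm K × (K → S)) where
  toFun r :=
    { toFun := fun e => (r * e.1 * r⁻¹, e.2 ∘ ⇑r⁻¹)
      invFun := fun e => (r⁻¹ * e.1 * r, e.2 ∘ ⇑r)
      left_inv := fun e => by
        apply Prod.ext
        · change r⁻¹ * (r * e.1 * r⁻¹) * r = e.1
          group
        · funext k
          change e.2 (r.symm (r k)) = e.2 k
          rw [Equiv.symm_apply_apply]
      right_inv := fun e => by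
        apply Prod.ext
        · change r * (r⁻¹ * e.1 * r) * r⁻¹ = e.1
          group
        · funext k
          change e.2 (r (r.symm k)) = e.2 k
          rw [Equiv.apply_symm_apply] }
  map_one' := by
    apply Equiv.ext
    intro e
    apply Prod.ext
    · change 1 * e.1 * 1⁻¹ = e.1
      group
    · rfl
  map_mul' r s := by
    apply Equiv.ext
    intro e
    apply Prod.ext
    · change (r * s) * e.1 * (r * s)⁻¹ = r * (s * e.1 * s⁻¹) * r⁻¹
      group
    · funext k
      change e.2 ((r * s)⁻¹ k) = e.2 (s⁻¹ (r⁻¹ k))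
      rw [mul_inv_rev]; rfl

lemma famAct_apply (r : Equiv.Perm K) (e : Equiv.Perm K × (K → S)) :
    famAct K S r e = (r * e.1 * r⁻¹, e.2 ∘ ⇑r⁻¹) := rfl

/-- The shift. -/
def shiftPerm (ι T : Type*) [Group T] : T →* Equiv.Perm (ι × T) where
  toFun s :=
    { toFun := fun k => (k.1, k.2 * s⁻¹)
      invFun := fun k => (k.1, k.2 * s)
      left_inv := fun k => by simp
      right_inv := fun k => by simp }
  map_one' := by
    apply Equiv.ext
    intro k
    simp
  map_mul' r s := by
    apply Equiv.ext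
    intro k
    change (k.1, k.2 * (r * s)⁻¹) = (k.1, k.2 * s⁻¹ * r⁻¹)
    rw [mul_inv_rev, mul_assoc]

lemma shiftPerm_apply {ι T : Type*} [Group T] (s : T) (k : ι × T) :
    shiftPerm ι T s k = (k.1, k.2 * s⁻¹) := rfl

lemma shiftPerm_inv_apply {ι T : Type*} [Group T] (s : T) (k : ι × T) :
    (shiftPerm ι T s)⁻¹ k = (k.1, k.2 * s) := rfl

lemma famAct_fixed {ι T : Type*} [Group T] {p : ℕ} (hp : p.Prime) (hT : Nat.card T = p) {s : T}
    (hs : s ≠ 1) {e : Equiv.Perm (ι × T) × (ι × T → S)}
    (he : famAct (ι × T) S (shiftPerm ι T s) e = e) (t : T) :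
    famAct (ι × T) S (shiftPerm ι T t) e = e := by
  have := Fact.mk hp
  have h1 : Subgroup.zpowers s ≤ (MulAction.stabilizer
      (Equiv.Perm (Equiv.Perm (ι × T) × (ι × T → S))) e).comap
        ((famAct (ι × T) S).comp (shiftPerm ι T)) := by
    rw [Subgroup.zpowers_le]
    exact he
  rw [zpowers_eq_top_of_prime_card hT hs] at h1
  exact h1 (Subgroup.mem_top t)

end shift

section conjugation

variable {H : Type*} [Group H] (M : Subgroup H) [M.Normal]

lemma smul_eq_mul' (x : H) (t : H ⧸ M) : x • t = (x : H ⧸ M) * t := by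
  induction t using QuotientGroup.induction_on with
  | H t => rfl

/-- Change of representatives and conjugation. -/
lemma exists_conj (s : H ⧸ M) : ∃ (θ : Abelianization M ≃* Abelianization M)
    (μ : H ⧸ M → Abelianization M), ∀ x t,
      mm M x (t * s⁻¹) = θ (mm M x t) * μ t * (μ (x • t))⁻¹ := by
  have hmem : ∀ t : H ⧸ M, s.out * t.out⁻¹ * (t * s⁻¹).out ∈ M := by
    intro t
    rw [← QuotientGroup.eq_one_iff, QuotientGroup.mk_mul, QuotientGroup.mk_mul,
      QuotientGroup.mk_inv, QuotientGroup.out_eq', QuotientGroup.out_eq', QuotientGroup.out_eq']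
    group
  refine ⟨(MulAut.conjNormal s.out : MulAut M).abelianizationCongr,
    fun t => Abelianization.of ⟨_, hmem t⟩, fun x t => ?_⟩
  have h1 : x • (t * s⁻¹) = (x • t) * s⁻¹ := by
    rw [smul_eq_mul', smul_eq_mul', mul_assoc]
  have h2 : (MulAut.conjNormal s.out : MulAut M).abelianizationCongr (mm M x t) =
      Abelianization.of ((MulAut.conjNormal s.out : MulAut M)
        ⟨(x • t).out⁻¹ * x * t.out, out_mem M x t⟩) := rfl
  rw [h2]
  have h3 : mm M x (t * s⁻¹) = Abelianization.of (⟨_, hmem (x • t)⟩⁻¹ *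
      ((MulAut.conjNormal s.out : MulAut M) ⟨(x • t).out⁻¹ * x * t.out, out_mem M x t⟩ *
        ⟨_, hmem t⟩)) := by
    unfold mm
    congr 1
    apply Subtype.ext
    change (x • (t * s⁻¹)).out⁻¹ * x * (t * s⁻¹).out =
      (s.out * (x • t).out⁻¹ * ((x • t) * s⁻¹).out)⁻¹ *
        ((s.out * ((x • t).out⁻¹ * x * t.out) * s.out⁻¹) * (s.out * t.out⁻¹ * (t * s⁻¹).out))
    rw [h1]
    group
  rw [h3, map_mul, map_mul, map_inv, mul_comm]

end conjugation

section main

variable {H : Type*} [Group H] (M : Subgroup H) [M.Normal] [Fintype (H ⧸ M)]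
  [DecidableEq (H ⧸ M)] {ι : Type*} [Fintype ι] [DecidableEq ι]

/-- The condition that a family is compatible with the permutation. -/
def Compat {S : Finset H} (e : Equiv.Perm (ι × (H ⧸ M)) × (ι × (H ⧸ M) → S)) : Prop :=
  ∀ k, (e.1 k).2 = (e.2 k : H) • k.2

/-- The coefficients. -/
noncomputable def cf {S : Finset H} (A : Matrix ι ι (MonoidAlgebra ℤ H)) (a b : ι × (H ⧸ M))
    (x : S) : ℤ :=
  if a.2 = (x : H) • b.2 then (A a.1 b.1).coeff x else 0

open Classical in
/-- The terms of the expansion. -/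
noncomputable def term {S : Finset H} (A : Matrix ι ι (MonoidAlgebra ℤ H))
    (e : Equiv.Perm (ι × (H ⧸ M)) × (ι × (H ⧸ M) → S)) : ℤ :=
  if ∏ k, mm M (e.2 k : H) k.2 = 1 then
    (Equiv.Perm.sign e.1 : ℤ) * ∏ k, cf M A (e.1 k) k (e.2 k) else 0

lemma term_eq_zero {S : Finset H} {A : Matrix ι ι (MonoidAlgebra ℤ H)}
    {e : Equiv.Perm (ι × (H ⧸ M)) × (ι × (H ⧸ M) → S)} (he : ¬ Compat M e) : term M A e = 0 := by
  unfold Compat at he
  push Not at he
  obtain ⟨k, hk⟩ := he
  unfold term
  rw [Finset.prod_eq_zero (Finset.mem_univ k), mul_zero, ite_self]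
  unfold cf
  rw [if_neg hk]

lemma term_shift {S : Finset H} {A : Matrix ι ι (MonoidAlgebra ℤ H)} (s : H ⧸ M)
    (e : Equiv.Perm (ι × (H ⧸ M)) × (ι × (H ⧸ M) → S)) :
    term M A (famAct (ι × (H ⧸ M)) S (shiftPerm ι (H ⧸ M) s) e) = term M A e := by
  classical
  set r := shiftPerm ι (H ⧸ M) s with hr
  have hcf : ∀ a b (x : S), cf M A (r a) (r b) x = cf M A a b x := by
    intro a b x
    unfold cf
    have h1 : ((r a).2 = (x : H) • (r b).2) ↔ (a.2 = (x : H) • b.2) := by
      change (a.2 * s⁻¹ = (x : H) • (b.2 * s⁻¹)) ↔ _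
      rw [smul_eq_mul', smul_eq_mul', ← mul_assoc, mul_left_inj]
    exact if_congr h1 rfl rfl
  by_cases he : Compat M e
  · obtain ⟨θ, μ, hθ⟩ := exists_conj M s
    have hsign : Equiv.Perm.sign (r * e.1 * r⁻¹) = Equiv.Perm.sign e.1 := by
      rw [map_mul, map_mul, map_inv, mul_inv_cancel_comm]
    have hprod : ∏ k, cf M A ((r * e.1 * r⁻¹) k) k (e.2 (r⁻¹ k)) =
        ∏ k, cf M A (e.1 k) k (e.2 k) := by
      rw [← Equiv.prod_comp r]
      refine Finset.prod_congr rfl fun k _ => ?_
      have h1 : r⁻¹ (r k) = k := r.symm_apply_apply k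
      rw [Equiv.Perm.mul_apply, Equiv.Perm.mul_apply, h1, hcf]
    have hmm : ∏ k, mm M (e.2 (r⁻¹ k) : H) k.2 = θ (∏ k, mm M (e.2 k : H) k.2) := by
      rw [← Equiv.prod_comp r, map_prod]
      have h1 : ∀ k : ι × (H ⧸ M), mm M (e.2 (r⁻¹ (r k)) : H) (r k).2 =
          θ (mm M (e.2 k : H) k.2) * (μ k.2 * (μ (e.1 k).2)⁻¹) := by
        intro k
        have h1 : r⁻¹ (r k) = k := r.symm_apply_apply k
        rw [h1]
        change mm M (e.2 k : H) (k.2 * s⁻¹) = _
        rw [hθ, ← he k, mul_assoc]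
      rw [Finset.prod_congr rfl fun k _ => h1 k, Finset.prod_mul_distrib, Finset.prod_mul_distrib,
        Finset.prod_inv_distrib, Equiv.prod_comp e.1 (fun k => μ k.2), mul_inv_cancel, mul_one]
    unfold term
    rw [famAct_apply]
    change (if ∏ k, mm M (e.2 (r⁻¹ k) : H) k.2 = 1 then
      (Equiv.Perm.sign (r * e.1 * r⁻¹) : ℤ) * ∏ k, cf M A ((r * e.1 * r⁻¹) k) k (e.2 (r⁻¹ k))
        else 0) = _
    rw [hsign, hprod, hmm]
    refine if_congr ?_ rfl rfl
    rw [EmbeddingLike.map_eq_one_iff]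
  · rw [term_eq_zero M he]
    apply term_eq_zero
    intro h
    apply he
    intro k
    have h1 := h (r k)
    change ((r * e.1 * r⁻¹) (r k)).2 = (e.2 (r⁻¹ (r k)) : H) • (r k).2 at h1
    have h2 : r⁻¹ (r k) = k := r.symm_apply_apply k
    rw [Equiv.Perm.mul_apply, Equiv.Perm.mul_apply, h2] at h1
    change (e.1 k).2 * s⁻¹ = (e.2 k : H) • (k.2 * s⁻¹) at h1
    rw [smul_eq_mul', ← mul_assoc, mul_left_inj, ← smul_eq_mul'] at h1
    exact h1

/-- The family attached to a permutation of `ι` and a family of elements. -/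
def fixFam {S : Finset H} (d : Equiv.Perm ι × (ι → S)) :
    Equiv.Perm (ι × (H ⧸ M)) × (ι × (H ⧸ M) → S) :=
  ((Equiv.prodCongrLeft fun _ : H ⧸ M => d.1) *
    (Equiv.prodCongrRight fun j : ι => MulAction.toPerm (d.2 j : H)), fun k => d.2 k.1)

lemma fixFam_fst {S : Finset H} (d : Equiv.Perm ι × (ι → S)) (k : ι × (H ⧸ M)) :
    (fixFam M d).1 k = (d.1 k.1, (d.2 k.1 : H) • k.2) := rfl

lemma fixFam_snd {S : Finset H} (d : Equiv.Perm ι × (ι → S)) (k : ι × (H ⧸ M)) :
    (fixFam M d).2 k = d.2 k.1 := rfl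

lemma fixFam_injective {S : Finset H} : Function.Injective (fixFam M (ι := ι) (S := S)) := by
  intro d d' h
  apply Prod.ext
  · apply Equiv.ext
    intro j
    have h1 := congrArg (fun e => (e.1 (j, 1)).1) h
    exact h1
  · funext j
    have h1 := congrArg (fun e => e.2 (j, 1)) h
    exact h1

lemma fixFam_fixed {S : Finset H} (s : H ⧸ M) (d : Equiv.Perm ι × (ι → S)) :
    famAct (ι × (H ⧸ M)) S (shiftPerm ι (H ⧸ M) s) (fixFam M d) = fixFam M d := by
  apply Prod.ext
  · apply Equiv.ext
    intro k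
    change shiftPerm ι (H ⧸ M) s ((fixFam M d).1 ((shiftPerm ι (H ⧸ M) s)⁻¹ k)) = _
    rw [shiftPerm_inv_apply, fixFam_fst, shiftPerm_apply, fixFam_fst]
    apply Prod.ext
    · rfl
    · change (d.2 k.1 : H) • (k.2 * s) * s⁻¹ = _
      rw [smul_eq_mul', smul_eq_mul', mul_assoc, mul_assoc, mul_inv_cancel, mul_one]
  · rfl

lemma exists_fixFam {S : Finset H} {e : Equiv.Perm (ι × (H ⧸ M)) × (ι × (H ⧸ M) → S)}
    (he : Compat M e)
    (hfix : ∀ t, famAct (ι × (H ⧸ M)) S (shiftPerm ι (H ⧸ M) t) e = e) :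
    ∃ d, fixFam M d = e := by
  have h2 : ∀ j t, e.2 (j, t) = e.2 (j, 1) := by
    intro j t
    have h := congrFun (congrArg Prod.snd (hfix t)) (j, 1)
    change e.2 ((shiftPerm ι (H ⧸ M) t)⁻¹ (j, 1)) = e.2 (j, 1) at h
    rw [shiftPerm_inv_apply, one_mul] at h
    exact h
  have h1 : ∀ j t, (e.1 (j, t)).1 = (e.1 (j, 1)).1 := by
    intro j t
    have h := congrArg (fun σ : Equiv.Perm (ι × (H ⧸ M)) => (σ (j, 1)).1)
      (congrArg Prod.fst (hfix t))
    change (shiftPerm ι (H ⧸ M) t (e.1 ((shiftPerm ι (H ⧸ M) t)⁻¹ (j, 1)))).1 = _ at h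
    rw [shiftPerm_inv_apply, one_mul, shiftPerm_apply] at h
    exact h
  have hinj : Function.Injective fun j : ι => (e.1 (j, 1)).1 := by
    intro j j' h
    have h' : (e.1 (j, 1)).1 = (e.1 (j', 1)).1 := h
    have h3 : e.1 (j, 1) = e.1 (j', (e.2 (j', 1) : H)⁻¹ • (e.2 (j, 1) : H) • 1) := by
      apply Prod.ext
      · exact h'.trans (h1 j' _).symm
      · rw [he, he, h2 j', smul_inv_smul]
    exact (Prod.ext_iff.mp (e.1.injective h3)).1
  refine ⟨(Equiv.ofBijective _ (Finite.injective_iff_bijective.mp hinj), fun j => e.2 (j, 1)), ?_⟩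
  apply Prod.ext
  · apply Equiv.ext
    rintro ⟨j, t⟩
    rw [fixFam_fst]
    apply Prod.ext
    · exact (h1 j t).symm
    · change (e.2 (j, 1) : H) • t = (e.1 (j, t)).2
      rw [he (j, t), h2 j t]
  · funext k
    rw [fixFam_snd]
    exact (h2 k.1 k.2).symm

open Classical in
lemma term_fixFam {S : Finset H} {A : Matrix ι ι (MonoidAlgebra ℤ H)}
    (d : Equiv.Perm ι × (ι → S)) :
    term M A (fixFam M d) = if ∏ j, tr M (d.2 j : H) = 1 then
      (Equiv.Perm.sign (fixFam M d).1 : ℤ) *
        (∏ j, (A (d.1 j) j).coeff (d.2 j : H)) ^ Fintype.card (H ⧸ M) else 0 := by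
  unfold term
  have h1 : ∏ k : ι × (H ⧸ M), mm M ((fixFam M d).2 k : H) k.2 = ∏ j, tr M (d.2 j : H) := by
    rw [Fintype.prod_prod_type]
    rfl
  have h2 : ∏ k, cf M A ((fixFam M d).1 k) k ((fixFam M d).2 k) =
      (∏ j, (A (d.1 j) j).coeff (d.2 j : H)) ^ Fintype.card (H ⧸ M) := by
    rw [Fintype.prod_prod_type, ← Finset.prod_pow]
    refine Finset.prod_congr rfl fun j _ => ?_
    rw [← Finset.card_univ, ← Finset.prod_const]
    refine Finset.prod_congr rfl fun t _ => ?_
    exact if_pos rfl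
  rw [h1, h2]

lemma cast_sign_fixFam {p : ℕ} (hp : p.Prime) (hM : M.index = p) {S : Finset H}
    (d : Equiv.Perm ι × (ι → S)) :
    ((Equiv.Perm.sign (fixFam M d).1 : ℤ) : ZMod p) = ((Equiv.Perm.sign d.1 : ℤ) : ZMod p) := by
  have := Fact.mk hp
  have hcard : Fintype.card (H ⧸ M) = p := by
    rw [← Nat.card_eq_fintype_card]; exact hM
  rcases hp.eq_two_or_odd' with h2 | hodd
  · subst h2
    have h3 : ∀ u : ℤˣ, ((u : ℤ) : ZMod 2) = 1 := by
      intro u
      rcases Int.units_eq_one_or u with rfl | rfl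
      · simp
      · rfl
    rw [h3, h3]
  · have h3 : ∀ u : ℤˣ, u ^ p = u := by
      intro u
      rcases Int.units_eq_one_or u with rfl | rfl
      · rw [one_pow]
      · exact hodd.neg_one_pow
    have h4 : Equiv.Perm.sign (fixFam M d).1 = Equiv.Perm.sign d.1 := by
      unfold fixFam
      rw [map_mul, Equiv.Perm.sign_prodCongrLeft, Equiv.Perm.sign_prodCongrRight,
        Finset.prod_const, Finset.card_univ, hcard, h3]
      rw [Finset.prod_eq_one, mul_one]
      intro j _
      rw [← h3 (Equiv.Perm.sign (MulAction.toPerm (d.2 j : H))), ← map_pow]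
      have h5 : (MulAction.toPerm (d.2 j : H) : Equiv.Perm (H ⧸ M)) ^ p = 1 := by
        have h6 : (MulAction.toPerm (d.2 j : H) : Equiv.Perm (H ⧸ M)) ^ p =
            MulAction.toPermHom H (H ⧸ M) ((d.2 j : H) ^ p) := by
          rw [map_pow]; rfl
        rw [h6]
        apply Equiv.ext
        intro t
        change ((d.2 j : H) ^ p) • t = t
        rw [smul_eq_mul', QuotientGroup.mk_pow]
        have h7 : ((d.2 j : H) : H ⧸ M) ^ p = 1 := by
          rw [← hcard]; exact pow_card_eq_one
        rw [h7, one_mul]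
      rw [h5, map_one]
    rw [h4]

end main

/-- The torsion congruence. Let `M` be normal of prime index `p` in `H`. If the determinant of `A`
over the abelianization of `H` is `1` then the coefficient at `1` of the determinant of the
restriction of `A` over the abelianization of `M` is congruent to `1` modulo `p`.

Proof. Let `X` be the abelianization of `M`, `T = H ⧸ M` (cyclic of order `p`), `r t` the
representative `t.out`. The entry of `mapMat of (resMat M A)` at `((i, s), (j, t))` is the sum over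
the `x` in `H` with `x t = s` of `A i j x` times the element `m(x, t) = [r(x t)⁻¹ x (r t)]` of `X`
(`resMat`, `indHom_apply`). Expanding the determinant, it is the sum over all families
`w : ι × T → ι × H`, `w (j, t) = (i_{jt}, x_{jt})` (with `x_{jt}` in the support of the entry), for
which `(j, t) ↦ (i_{jt}, x_{jt} t)` is a permutation, of its sign times `∏ A i_{jt} j x_{jt}`
times the element `m(w) = ∏ m(x_{jt}, t)` of `X`. The group `T` acts on the families by
`(w s) (j, t) = w (j, t s)`; the sign and the coefficient are invariant, and `m(w s)` is the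
conjugate of `m(w)` by a representative of `s` (`r (t s⁻¹) = r t g⁻¹ μ_t` with `μ_t` in `M`; the
`μ` cancel in the product over the permutation). So the families with `m(w) = 1` are permuted by
`T` and the coefficient at `1` is congruent modulo `p` to the sum over the fixed families, i.e.
`w (j, t) = (i_j, x_j)` independent of `t`: `j ↦ i_j` is a permutation `π` of `ι`, the sign is
`sign π ^ p ∏ sign (t ↦ x_j t)`, congruent to `sign π` modulo `p`; the coefficient is
`∏ (A (π j) j x_j) ^ p`, congruent to `∏ A (π j) j x_j`; and `m(w) = ∏ V(x_j)` with the transfer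
`V(x) = ∏_t m(x, t)`, a homomorphism `H → X`. So the sum over the fixed families is congruent to
the coefficient at `1` of `det (mapMat V A)` (`∑_π sign π ∏_j V_*(A (π j) j)`), and `V` factors
through the abelianization of `H`, so `det (mapMat V A)` is the image of `uEl A = 1`. -/
theorem torsion_congruence {H : Type*} [Group H] {p : ℕ} (hp : p.Prime) (M : Subgroup H)
    [M.Normal] (hM : M.index = p) [Fintype (H ⧸ M)] [DecidableEq (H ⧸ M)] {ι : Type*} [Fintype ι]
    [DecidableEq ι] {A : Matrix ι ι (MonoidAlgebra ℤ H)} (hu : uEl A = 1) :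
    (p : ℤ) ∣ (uEl (resMat M A)).coeff 1 - 1 := by
  classical
  have := Fact.mk hp
  have hcard : Fintype.card (H ⧸ M) = p := by
    rw [← Nat.card_eq_fintype_card]; exact hM
  -- a finite set containing the supports
  set S : Finset H := Finset.univ.biUnion fun i : ι => Finset.univ.biUnion fun j : ι =>
    (A i j).coeff.support with hSdef
  have hS : ∀ i j, (A i j).coeff.support ⊆ S := by
    intro i j x hx
    rw [hSdef, Finset.mem_biUnion]
    refine ⟨i, Finset.mem_univ _, ?_⟩
    rw [Finset.mem_biUnion]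
    exact ⟨j, Finset.mem_univ _, hx⟩
  -- the two expansions
  have hD : (uEl (resMat M A)).coeff 1 = ∑ e : Equiv.Perm (ι × (H ⧸ M)) × (ι × (H ⧸ M) → S),
      term M A e :=
    det_coeff_one (K := ι × (H ⧸ M)) (S := S) (fun b x => mm M (x : H) b.2)
      (fun a b x => cf M A a b x) (mapMat (Abelianization.of (G := M)) (resMat M A))
      (fun a b => entry_res M hS a b)
  have hE : (1 : ℤ) = ∑ d : Equiv.Perm ι × (ι → S), if ∏ j, tr M (d.2 j : H) = 1 then
      (Equiv.Perm.sign d.1 : ℤ) * ∏ j, (A (d.1 j) j).coeff (d.2 j : H) else 0 := by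
    have h1 := det_coeff_one (K := ι) (S := S) (fun _ x => tr M (x : H))
      (fun a b x => (A a b).coeff (x : H)) (mapMat (tr M) A) (fun a b => entry_tr M hS a b)
    rw [det_mapMat_tr M hu, MonoidAlgebra.one_def, MonoidAlgebra.coeff_single,
      Finsupp.single_eq_same] at h1
    exact h1
  -- a generator of the quotient
  obtain ⟨s, hs⟩ : ∃ s : H ⧸ M, s ≠ 1 := by
    have h1 : 1 < Fintype.card (H ⧸ M) := by rw [hcard]; exact hp.one_lt
    exact Fintype.exists_ne_of_one_lt_card h1 1
  set r := famAct (ι × (H ⧸ M)) S (shiftPerm ι (H ⧸ M) s) with hr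
  have hrp : r ^ (p ^ (0 + 1)) = 1 := by
    have h1 : s ^ p = 1 := by rw [← hcard]; exact pow_card_eq_one
    rw [zero_add, pow_one, hr, ← map_pow, ← map_pow, h1, map_one, map_one]
  obtain ⟨S0, S1, hS0, hsum⟩ := exists_rep r hp hrp
  have hsum1 := hsum ℤ (term M A) (fun e => term_shift M s e)
  have hfixed : ∑ d : Equiv.Perm ι × (ι → S), term M A (fixFam M d) = ∑ e ∈ S0, term M A e := by
    refine Finset.sum_of_injOn (fixFam M) ((fixFam_injective M).injOn) ?_ ?_ (fun _ _ => rfl)
    · intro d _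
      rw [Finset.mem_coe, hS0, pow_zero, pow_one]
      exact fixFam_fixed M s d
    · intro e he hne
      rw [hS0, pow_zero, pow_one] at he
      apply term_eq_zero
      intro hc
      obtain ⟨d, hd⟩ := exists_fixFam M hc
        (famAct_fixed hp (by rw [Nat.card_eq_fintype_card]; exact hcard) hs he)
      exact hne ⟨d, Finset.mem_coe.mpr (Finset.mem_univ d), hd⟩
  -- the congruence for each fixed family
  have hcong : ∀ d : Equiv.Perm ι × (ι → S), (p : ℤ) ∣ term M A (fixFam M d) -
      (if ∏ j, tr M (d.2 j : H) = 1 then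
        (Equiv.Perm.sign d.1 : ℤ) * ∏ j, (A (d.1 j) j).coeff (d.2 j : H) else 0) := by
    intro d
    rw [term_fixFam M d]
    by_cases h : ∏ j, tr M (d.2 j : H) = 1
    · rw [if_pos h, if_pos h, ← ZMod.intCast_zmod_eq_zero_iff_dvd, Int.cast_sub, Int.cast_mul,
        Int.cast_mul, cast_sign_fixFam M hp hM, Int.cast_pow, hcard, ZMod.pow_card, sub_self]
    · rw [if_neg h, if_neg h, sub_self]
      exact dvd_zero _
  have hfin : (uEl (resMat M A)).coeff 1 - 1 = (∑ d : Equiv.Perm ι × (ι → S),
      (term M A (fixFam M d) - (if ∏ j, tr M (d.2 j : H) = 1 then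
        (Equiv.Perm.sign d.1 : ℤ) * ∏ j, (A (d.1 j) j).coeff (d.2 j : H) else 0))) +
      (p : ℤ) * ∑ e ∈ S1, term M A e := by
    rw [Finset.sum_sub_distrib, ← hE, hD, hsum1, hfixed, zero_add, pow_one, nsmul_eq_mul]
    ring
  rw [hfin]
  exact dvd_add (Finset.dvd_sum fun d _ => hcong d) (dvd_mul_right _ _)

end Pool.Agent.Lib.MP_8f66f0_al_Wall
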