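import Mathlib
import Pool.Agent.Lib.MP_8f66f0_al_Wall.Clifford
import Pool.Agent.Lib.MP_8f66f0_al_Wall.Higman
import Pool.Agent.Lib.MP_8f66f0_al_Wall.Torsion

/-! The determinants of a matrix over the group ring of a group in the class `QE p`. -/

set_option autoImplicit false
set_option linter.unusedSectionVars false

namespace Pool.Agent.Lib.MP_8f66f0_al_Wall

open Pool.Agent.Lib.MP_8f66f0_al_Dennis Pool.Agent.Lib.MP_8f66f0_al_FinQ
open Pool.Agent.Lib.MP_8f66f0_al_Plus

section reindex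

variable {H : Type*} [Group H] {ι ι' : Type*} [Fintype ι] [DecidableEq ι] [Fintype ι']
  [DecidableEq ι'] {F : Type*} [CommRing F]

lemma det_mapRep_reindex (e : ι ≃ ι') {κ : Type*} [Fintype κ] [DecidableEq κ]
    (ρ : H →* Matrix κ κ F) (A : Matrix ι ι (MonoidAlgebra ℤ H)) :
    (mapRep ρ (Matrix.reindexAlgEquiv ℤ _ e A)).det = (mapRep ρ A).det := by
  have h : mapRep ρ (Matrix.reindexAlgEquiv ℤ _ e A) = (mapRep ρ A).submatrix
      (Equiv.prodCongr e.symm (Equiv.refl κ)) (Equiv.prodCongr e.symm (Equiv.refl κ)) := by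
    ext x y
    rfl
  rw [h, Matrix.det_submatrix_equiv_self]

lemma uEl_reindex (e : ι ≃ ι') (A : Matrix ι ι (MonoidAlgebra ℤ H)) :
    uEl (Matrix.reindexAlgEquiv ℤ _ e A) = uEl A := by
  have h : mapMat (Abelianization.of (G := H)) (Matrix.reindexAlgEquiv ℤ _ e A) =
      (mapMat (Abelianization.of (G := H)) A).submatrix e.symm e.symm := by
    ext x y
    rfl
  rw [uEl, h, Matrix.det_submatrix_equiv_self, uEl]

lemma rootHyp_reindex (e : ι ≃ ι') {A : Matrix ι ι (MonoidAlgebra ℤ H)} (hA : RootHyp A) :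
    RootHyp (Matrix.reindexAlgEquiv ℤ _ e A) := by
  intro k ρ
  obtain ⟨N, hN0, hN⟩ := hA k ρ
  exact ⟨N, hN0, by rw [det_mapRep_reindex, hN]⟩

end reindex

lemma det_eq_one_of_le_one {H : Type*} [Group H] {ι : Type*} [Fintype ι] [DecidableEq ι]
    {A : Matrix ι ι (MonoidAlgebra ℤ H)} (hu : uEl A = 1) {F : Type*} [CommRing F]
    {k : ℕ} (hk : k ≤ 1) (ρ : H →* Matrix (Fin k) (Fin k) F) : (mapRep ρ A).det = 1 := by
  have h : k = 0 ∨ k = 1 := by omega
  rcases h with rfl | rfl
  · exact Matrix.det_isEmpty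
  · rw [det_mapRep_fin_one, hu, map_one]

/-- Representations with commutative image: strong induction on `k` with `red_of_comm`,
`det_mapRep_block` (the blocks have commutative image again), `det_mapRep_fin_one`. -/
theorem det_eq_one_of_comm {H : Type*} [Group H] {ι : Type*} [Fintype ι] [DecidableEq ι]
    {A : Matrix ι ι (MonoidAlgebra ℤ H)} (hu : uEl A = 1) {F : Type*} [Field F] [IsAlgClosed F]
    {k : ℕ} (ρ : H →* Matrix (Fin k) (Fin k) F) (hc : ∀ g h, ρ g * ρ h = ρ h * ρ g) :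
    (mapRep ρ A).det = 1 := by
  induction k using Nat.strong_induction_on with
  | _ k ih =>
  rcases red_of_comm ρ hc with hk | ⟨a, b, ρ₁, ρ₂, T, T', ha, hb, h1, h2, h⟩
  · exact det_eq_one_of_le_one hu hk ρ
  · have hcomm : ∀ g k, ρ₁ g * ρ₁ k = ρ₁ k * ρ₁ g ∧ ρ₂ g * ρ₂ k = ρ₂ k * ρ₂ g := by
      intro g k
      obtain ⟨X, hX⟩ := h (g * k)
      obtain ⟨Y, hY⟩ := h (k * g)
      rw [map_mul, hc, ← map_mul, hY, Matrix.fromBlocks_inj] at hX
      rw [← map_mul, ← map_mul, ← map_mul, ← map_mul]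
      exact ⟨hX.1.symm, hX.2.2.2.symm⟩
    rw [det_mapRep_block h1 h2 h A, ih a ha ρ₁ (fun g k => (hcomm g k).1),
      ih b hb ρ₂ (fun g k => (hcomm g k).2), one_mul]

/-- The sign of the determinant of the restriction to a normal subgroup of prime index. -/
lemma sign_eq_one {H : Type*} [Group H] {p : ℕ} (hp : p.Prime) (M : Subgroup H) [M.Normal]
    (hM : M.index = p) [Fintype (H ⧸ M)] [DecidableEq (H ⧸ M)] {ι : Type*} [Fintype ι]
    [DecidableEq ι] {A : Matrix ι ι (MonoidAlgebra ℤ H)} (hu : uEl A = 1) {ε : ℤ}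
    (h : uEl (resMat M A) = MonoidAlgebra.single (Abelianization.of (1 : M)) ε) : ε = 1 := by
  set ρ : H →* Matrix ((H ⧸ M) × Fin 1) ((H ⧸ M) × Fin 1) ℂ :=
    indRep M (1 : M →* Matrix (Fin 1) (Fin 1) ℂ) with hρ
  have hcard : Nat.card (H ⧸ M) = p := hM
  have : Fact p.Prime := ⟨hp⟩
  have hcyc : IsCyclic (H ⧸ M) := isCyclic_of_prime_card hcard
  have hcomm : ∀ a b : H ⧸ M, a * b = b * a := by
    intro a b
    exact (IsCyclic.isMulCommutative (α := H ⧸ M)).is_comm.comm a b
  have hact : ∀ (g k : H) (x : H ⧸ M), (g * k) • x = (k * g) • x := by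
    intro g k x
    obtain ⟨y, rfl⟩ := QuotientGroup.mk_surjective x
    change ((g * k * y : H) : H ⧸ M) = ((k * g * y : H) : H ⧸ M)
    rw [QuotientGroup.mk_mul, QuotientGroup.mk_mul, QuotientGroup.mk_mul, QuotientGroup.mk_mul,
      hcomm (g : H ⧸ M) (k : H ⧸ M)]
  have hc : ∀ g k, ρ g * ρ k = ρ k * ρ g := by
    intro g k
    rw [← map_mul, ← map_mul]
    ext x y
    rw [hρ, indRep_apply, indRep_apply]
    exact if_congr (by rw [hact g k y.1]) rfl rfl
  set e := Fintype.equivFin ((H ⧸ M) × Fin 1) with he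
  have h1 : (mapRep (reRep e ρ) A).det = 1 := by
    refine det_eq_one_of_comm hu (reRep e ρ) fun g k => ?_
    have := hc g k
    rw [← map_mul, ← map_mul] at this ⊢
    exact congrArg (Matrix.reindexAlgEquiv ℂ ℂ e) this
  rw [det_reRep, hρ, det_mapRep_ind, det_mapRep_fin_one, h, abEval_single] at h1
  have h2 : ((1 : M →* Matrix (Fin 1) (Fin 1) ℂ) 1).det = 1 := by
    rw [MonoidHom.one_apply, Matrix.det_one]
  rw [h2, mul_one] at h1
  exact_mod_cast h1

/-- The determinant over the abelianization of the restriction to a normal subgroup of prime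
index. -/
lemma uEl_res_eq_one {H : Type*} [Group H] [Finite H] {p : ℕ} (hp : p.Prime) (M : Subgroup H)
    [M.Normal] (hM : M.index = p) [Fintype (H ⧸ M)] [DecidableEq (H ⧸ M)] {ι : Type*} [Fintype ι]
    [DecidableEq ι] {A : Matrix ι ι (MonoidAlgebra ℤ H)} (hroot : RootHyp A) (hu : uEl A = 1) :
    uEl (resMat M A) = 1 := by
  obtain ⟨x, ε, hε, hx⟩ := uEl_eq_single (rootHyp_res M hroot)
  have h1 := torsion_congruence hp M hM hu
  have hx1 : Abelianization.of x = 1 := by
    by_contra hne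
    rw [hx, MonoidAlgebra.coeff_single, Finsupp.single_eq_of_ne' hne, zero_sub, dvd_neg] at h1
    have h2 : p ∣ 1 := by exact_mod_cast h1
    exact hp.one_lt.ne' (Nat.dvd_one.mp h2)
  have hx2 : uEl (resMat M A) = MonoidAlgebra.single (Abelianization.of (1 : M)) ε := by
    rw [hx, hx1, map_one]
  rw [sign_eq_one hp M hM hu hx2] at hx2
  rw [hx2, map_one]
  rfl

/-- The normalized case, for matrices indexed by `Fin n`. -/
theorem quasi_triv_aux.{u, w} {p : ℕ} (hp : p.Prime) {F : Type w} [Field F] [IsAlgClosed F]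
    (N : ℕ) : ∀ (H : Type u) [Group H] [Finite H], Nat.card H = N → QE p H →
      ∀ (n : ℕ) (A B : Matrix (Fin n) (Fin n) (MonoidAlgebra ℤ H)), A * B = 1 → B * A = 1 →
        RootHyp A → uEl A = 1 → ∀ (k : ℕ) (ρ : H →* Matrix (Fin k) (Fin k) F),
          (mapRep ρ A).det = 1 := by
  classical
  induction N using Nat.strong_induction_on with
  | _ N ihN =>
  intro H _ _ hcard hQ n A B hAB hBA hroot hu k
  induction k using Nat.strong_induction_on with
  | _ k ihk =>
  intro ρ
  have hfin : ∀ M : Subgroup H, Fintype (H ⧸ M) := fun M => Fintype.ofFinite _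
  rcases clifford hp hQ ρ with hk | ⟨a, b, ρ₁, ρ₂, T, T', ha, hb, h1, h2, h⟩ |
    ⟨M, hMn, hMi, d, ρ', T, T', h1, h2, h⟩
  · exact det_eq_one_of_le_one hu hk ρ
  · rw [det_mapRep_block h1 h2 h A, ihk a ha ρ₁, ihk b hb ρ₂, one_mul]
  · rw [← det_mapRep_equiv h1 h2 h A, det_mapRep_ind]
    have hlt : Nat.card M < N := by
      rw [← hcard, ← Subgroup.card_mul_index M, hMi]
      have h3 : 0 < Nat.card M := Nat.card_pos
      have h4 := hp.one_lt
      nlinarith
    set e := Fintype.equivFin (Fin n × (H ⧸ M)) with he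
    rw [← det_mapRep_reindex e]
    refine ihN (Nat.card M) hlt M rfl (hQ.subgroup M) _ _
      (Matrix.reindexAlgEquiv ℤ _ e (resMat M B)) ?_ ?_ (rootHyp_reindex e (rootHyp_res M hroot))
      ?_ d ρ'
    · rw [← map_mul, ← map_mul, hAB, map_one, map_one]
    · rw [← map_mul, ← map_mul, hBA, map_one, map_one]
    · rw [uEl_reindex, uEl_res_eq_one hp M hMi hroot hu]

/-- The normalized case. Strong induction on the order of `H`, inside strong induction on `k`, with
`clifford`: `k = 0` trivial, `k = 1` by `det_mapRep_fin_one`, reducible by `det_mapRep_block`,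
induced: `det_mapRep_equiv`, `det_mapRep_ind`, and the induction hypothesis for `M` and
`resMat M A` (`rootHyp_res`, `QE.subgroup`); `uEl (resMat M A) = 1`: by `uEl_eq_single` it is
`single x ε`, by `torsion_congruence` `x = 1` (otherwise the coefficient at `1` is zero), and
`ε = 1` because the augmentation of `uEl (resMat M A)` is the determinant of `A` in the
permutation representation on `H ⧸ M` (over `ℂ`), which has commutative image
(`det_eq_one_of_comm`, `det_mapRep_ind` for the trivial representation of `M`). -/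
theorem quasi_triv.{u, v, w} {H : Type u} [Group H] [Finite H] {p : ℕ} (hp : p.Prime)
    (hQ : QE p H) {ι : Type v} [Fintype ι] [DecidableEq ι] {A B : Matrix ι ι (MonoidAlgebra ℤ H)}
    (hAB : A * B = 1) (hBA : B * A = 1) (hroot : RootHyp A) (hu : uEl A = 1) {F : Type w} [Field F]
    [IsAlgClosed F] {k : ℕ} (ρ : H →* Matrix (Fin k) (Fin k) F) : (mapRep ρ A).det = 1 := by
  set e := Fintype.equivFin ι with he
  rw [← det_mapRep_reindex e]
  refine quasi_triv_aux hp (Nat.card H) H rfl hQ _ _ (Matrix.reindexAlgEquiv ℤ _ e B) ?_ ?_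
    (rootHyp_reindex e hroot) ?_ k ρ
  · rw [← map_mul, hAB, map_one]
  · rw [← map_mul, hBA, map_one]
  · rw [uEl_reindex, hu]

/-- The general case: apply `quasi_triv` to `stab A h⁻¹ ε` (`uEl_stab`, `det_mapRep_stab`,
`rootHyp_stab`, `stab_mul`). -/
theorem quasi_eq.{u, v, w} {H : Type u} [Group H] [Finite H] {p : ℕ} (hp : p.Prime) (hQ : QE p H)
    {ι : Type v} [Fintype ι] [DecidableEq ι] {A B : Matrix ι ι (MonoidAlgebra ℤ H)}
    (hAB : A * B = 1) (hBA : B * A = 1) (hroot : RootHyp A) {h : H} {ε : ℤ}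
    (hε : ε = 1 ∨ ε = -1) (hu : uEl A = MonoidAlgebra.single (Abelianization.of h) ε)
    {F : Type w} [Field F] [IsAlgClosed F] {k : ℕ} (ρ : H →* Matrix (Fin k) (Fin k) F) :
    (mapRep ρ A).det = (ε : F) ^ k * (ρ h).det := by
  have hε2 : ε * ε = 1 := by
    rcases hε with h | h
    · rw [h, one_mul]
    · rw [h]; norm_num
  have hu' : uEl (stab A h⁻¹ ε) = 1 := by
    rw [uEl_stab, hu, MonoidAlgebra.single_mul_single, ← map_mul, mul_inv_cancel, map_one, hε2]
    rfl
  have hBA' : stab B h ε * stab A h⁻¹ ε = 1 := stab_mul hBA h hε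
  have hAB' : stab A h⁻¹ ε * stab B h ε = 1 := by
    have := stab_mul hAB h⁻¹ hε
    rwa [inv_inv] at this
  have h1 := quasi_triv hp hQ hAB' hBA' (rootHyp_stab hroot h⁻¹ hε) hu' ρ
  rw [det_mapRep_stab, Fintype.card_fin] at h1
  have h2 : (ρ h⁻¹).det * (ρ h).det = 1 := by
    rw [← Matrix.det_mul, ← map_mul, inv_mul_cancel, map_one, Matrix.det_one]
  have h3 : (ε : F) ^ k * (ε : F) ^ k = 1 := by
    have : (ε : F) * (ε : F) = 1 := by
      rw [← Int.cast_mul, hε2, Int.cast_one]
    rw [← mul_pow, this, one_pow]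
  calc (mapRep ρ A).det = (mapRep ρ A).det * ((ε : F) ^ k * (ε : F) ^ k) *
        ((ρ h⁻¹).det * (ρ h).det) := by rw [h2, h3, mul_one, mul_one]
    _ = ((mapRep ρ A).det * ((ε : F) ^ k * (ρ h⁻¹).det)) * ((ε : F) ^ k * (ρ h).det) := by ring
    _ = _ := by rw [h1, one_mul]

end Pool.Agent.Lib.MP_8f66f0_al_Wall
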