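import Mathlib
import Pool.Agent.Lib.MP_8f66f0_al_FinQ.Twist
import Pool.Agent.Lib.MP_8f66f0_al_Wall.Basic

/-! Relations between permutation characters give relations between determinants, in every
characteristic. -/

set_option autoImplicit false
set_option linter.unusedSectionVars false

namespace Pool.Agent.Lib.MP_8f66f0_al_Wall

open Pool.Agent.Lib.MP_8f66f0_al_Dennis Pool.Agent.Lib.MP_8f66f0_al_FinQ
open Pool.Agent.Lib.MP_8f66f0_al_Plus

section generic

variable {Q : Type*} [Group Q] {ι : Type*} [Fintype ι] [DecidableEq ι]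
  {κ : Type*} [Fintype κ] [DecidableEq κ]

/-- The matrix `∑_g A_ij(g) G(g)_ab [w = g w']`. -/
noncomputable def polyMat [Fintype Q] {R : Type*} [CommRing R] (G : Q → Matrix κ κ R) (Ω : Type*)
    [Fintype Ω] [DecidableEq Ω] [MulAction Q Ω] (A : Matrix ι ι (MonoidAlgebra ℤ Q)) :
    Matrix (ι × (κ × Ω)) (ι × (κ × Ω)) R :=
  Matrix.of fun x y => ∑ g : Q, (((A x.1 y.1).coeff g : ℤ) : R) *
    (G g x.2.1 y.2.1 * if x.2.2 = g • y.2.2 then 1 else 0)

lemma polyMat_map [Fintype Q] {R S : Type*} [CommRing R] [CommRing S] (f : R →+* S)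
    (G : Q → Matrix κ κ R) (Ω : Type*) [Fintype Ω] [DecidableEq Ω] [MulAction Q Ω]
    (A : Matrix ι ι (MonoidAlgebra ℤ Q)) :
    (polyMat G Ω A).map f = polyMat (fun g => (G g).map f) Ω A := by
  ext x y
  rw [Matrix.map_apply, polyMat, polyMat, Matrix.of_apply, Matrix.of_apply, map_sum]
  refine Finset.sum_congr rfl fun g _ => ?_
  rw [map_mul, map_intCast, map_mul, Matrix.map_apply]
  split_ifs
  · rw [map_one]
  · rw [map_zero]

lemma polyMat_det_map [Fintype Q] {R S : Type*} [CommRing R] [CommRing S] (f : R →+* S)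
    (G : Q → Matrix κ κ R) (Ω : Type*) [Fintype Ω] [DecidableEq Ω] [MulAction Q Ω]
    (A : Matrix ι ι (MonoidAlgebra ℤ Q)) :
    f (polyMat G Ω A).det = (polyMat (fun g => (G g).map f) Ω A).det := by
  rw [RingHom.map_det, ← polyMat_map]
  rfl

lemma polyMat_rep [Fintype Q] {F : Type*} [CommRing F] (ρ : Q →* Matrix κ κ F) (Ω : Type*)
    [Fintype Ω] [DecidableEq Ω] [MulAction Q Ω] (A : Matrix ι ι (MonoidAlgebra ℤ Q)) :
    polyMat (fun g => ρ g) Ω A = mapRep (tens ρ (permRep F Ω)) A := by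
  ext x y
  rw [polyMat, Matrix.of_apply, mapRep_apply, mapHom_apply, Finsupp.sum_fintype]
  · rfl
  · intro g
    rw [Int.cast_zero, zero_mul]

/-- The lift of an element of the group ring to the group ring of the free group. -/
noncomputable def liftEl [Fintype Q] (x : MonoidAlgebra ℤ Q) : MonoidAlgebra ℤ (FreeGroup Q) :=
  ∑ g : Q, MonoidAlgebra.single (FreeGroup.of g) (x.coeff g)

lemma mapHom_liftEl [Fintype Q] {E : Type*} [CommRing E] {μ : Type*} [Fintype μ] [DecidableEq μ]
    (σ : FreeGroup Q →* Matrix μ μ E) (x : MonoidAlgebra ℤ Q) (a b : μ) :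
    mapHom σ (liftEl x) a b = ∑ g : Q, ((x.coeff g : ℤ) : E) * σ (FreeGroup.of g) a b := by
  rw [liftEl, map_sum, Matrix.sum_apply]
  refine Finset.sum_congr rfl fun g _ => ?_
  rw [mapHom_single, Matrix.smul_apply, zsmul_eq_mul]

lemma polyMat_lift [Fintype Q] {K : Type*} [CommRing K] (Gen : FreeGroup Q →* Matrix κ κ K)
    (Ω : Type*) [Fintype Ω] [DecidableEq Ω] [MulAction Q Ω]
    (A : Matrix ι ι (MonoidAlgebra ℤ Q)) :
    polyMat (fun g => Gen (FreeGroup.of g)) Ω A =
      mapRep (tens Gen ((permRep K Ω).comp (FreeGroup.lift (MonoidHom.id Q)))) (A.map liftEl) := by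
  ext x y
  rw [polyMat, Matrix.of_apply, mapRep_apply, Matrix.map_apply, mapHom_liftEl]
  refine Finset.sum_congr rfl fun g _ => ?_
  rw [tens_apply, MonoidHom.comp_apply, FreeGroup.lift_apply_of, permRep_apply]
  rfl

lemma trace_permRep {F : Type*} [CommRing F] (Ω : Type*) [Fintype Ω] [DecidableEq Ω]
    [MulAction Q Ω] (g : Q) :
    (permRep F Ω g).trace = (Nat.card (MulAction.fixedBy Ω g) : F) := by
  rw [Matrix.trace]
  have h1 : ∀ x : Ω, (permRep F Ω g).diag x = if x = g • x then 1 else 0 := fun x => rfl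
  rw [Finset.sum_congr rfl fun x _ => h1 x, Finset.sum_boole]
  congr 1
  rw [Nat.card_eq_card_toFinset]
  congr 1
  ext x
  rw [Finset.mem_filter, Set.mem_toFinset, MulAction.mem_fixedBy, eq_comm]
  exact ⟨fun h => h.2, fun h => ⟨Finset.mem_univ _, h⟩⟩

lemma card_fixedBy_top (g : Q) : Nat.card (MulAction.fixedBy (Q ⧸ (⊤ : Subgroup Q)) g) = 1 := by
  have : Subsingleton (Q ⧸ (⊤ : Subgroup Q)) := QuotientGroup.subsingleton_quotient_top
  have : Subsingleton (MulAction.fixedBy (Q ⧸ (⊤ : Subgroup Q)) g) := inferInstance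
  have : Nonempty (MulAction.fixedBy (Q ⧸ (⊤ : Subgroup Q)) g) :=
    ⟨⟨QuotientGroup.mk 1, Subsingleton.elim _ _⟩⟩
  exact Nat.card_unique

lemma sum_fixed [∀ H : Subgroup Q, Fintype (Q ⧸ H)] (s : Finset (Subgroup Q))
    (a : Subgroup Q → ℤ) (m : ℕ)
    (h : ∀ g : Q, (m : ℤ) = ∑ H ∈ s, a H * (Nat.card (MulAction.fixedBy (Q ⧸ H) g) : ℤ)) (g : Q)
    (K : Type*) [CommRing K] :
    ∑ j : Option s, ((j.elim (m : ℤ) (fun H => - a H.1) : ℤ) : K) *
      (Nat.card (MulAction.fixedBy (Q ⧸ (j.elim (⊤ : Subgroup Q) (fun H => H.1))) g) : K) = 0 := by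
  rw [Fintype.sum_option]
  change ((m : ℤ) : K) * (Nat.card (MulAction.fixedBy (Q ⧸ (⊤ : Subgroup Q)) g) : K) +
    ∑ i : s, (fun H : Subgroup Q => ((- a H : ℤ) : K) *
      (Nat.card (MulAction.fixedBy (Q ⧸ H) g) : K)) i.1 = 0
  rw [Finset.sum_coe_sort s (fun H : Subgroup Q => ((- a H : ℤ) : K) *
      (Nat.card (MulAction.fixedBy (Q ⧸ H) g) : K)), card_fixedBy_top]
  have h2 := congrArg (Int.cast : ℤ → K) (h g)
  rw [Int.cast_natCast, Int.cast_sum] at h2
  rw [Int.cast_natCast, Nat.cast_one, mul_one, h2, ← Finset.sum_add_distrib]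
  refine Finset.sum_eq_zero fun H _ => ?_
  push_cast
  ring

/-- The relation over a field of characteristic zero. -/
lemma rel_field [Fintype Q] [∀ H : Subgroup Q, Fintype (Q ⧸ H)]
    [∀ H : Subgroup Q, DecidableEq (Q ⧸ H)] {K : Type*} [Field K] [CharZero K]
    (Gen : FreeGroup Q →* Matrix κ κ K) (A : Matrix ι ι (MonoidAlgebra ℤ Q))
    (s : Finset (Subgroup Q)) (a : Subgroup Q → ℤ) (m : ℕ)
    (h : ∀ g : Q, (m : ℤ) = ∑ H ∈ s, a H * (Nat.card (MulAction.fixedBy (Q ⧸ H) g) : ℤ))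
    (hne : ∀ H : Subgroup Q, (polyMat (fun g => Gen (FreeGroup.of g)) (Q ⧸ H) A).det ≠ 0) :
    (polyMat (fun g => Gen (FreeGroup.of g)) (Q ⧸ (⊤ : Subgroup Q)) A).det ^ m =
      ∏ H ∈ s, (polyMat (fun g => Gen (FreeGroup.of g)) (Q ⧸ H) A).det ^ (a H) := by
  have key := prod_det_zpow (E := K) (J := Option s)
    (κ := fun j => ι × (κ × (Q ⧸ (j.elim (⊤ : Subgroup Q) (fun H => H.1)))))
    (fun j => polyMat (fun g => Gen (FreeGroup.of g)) (Q ⧸ (j.elim (⊤ : Subgroup Q)
      (fun H => H.1))) A) (fun j => j.elim (m : ℤ) (fun H => - a H.1)) (fun j => hne _) (by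
      intro N
      have h1 : ∀ j ∈ (Finset.univ : Finset (Option s)),
          ((j.elim (m : ℤ) (fun H => - a H.1) : ℤ) : K) *
            ((polyMat (fun g => Gen (FreeGroup.of g)) (Q ⧸ (j.elim (⊤ : Subgroup Q)
              (fun H => H.1))) A) ^ N).trace =
          ∑ w ∈ ((A.map liftEl) ^ N).trace.coeff.support,
            ((((A.map liftEl) ^ N).trace.coeff w : ℤ) : K) * (Gen w).trace *
            (((j.elim (m : ℤ) (fun H => - a H.1) : ℤ) : K) *
              (Nat.card (MulAction.fixedBy (Q ⧸ (j.elim (⊤ : Subgroup Q) (fun H => H.1)))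
                (FreeGroup.lift (MonoidHom.id Q) w)) : K)) := by
        intro j _
        rw [polyMat_lift, ← mapRep_pow, trace_mapRep, Finsupp.sum, Finset.mul_sum]
        refine Finset.sum_congr rfl fun w _ => ?_
        rw [trace_tens, MonoidHom.comp_apply, trace_permRep]
        ring
      rw [Finset.sum_congr rfl h1, Finset.sum_comm]
      refine Finset.sum_eq_zero fun w _ => ?_
      rw [← Finset.mul_sum, sum_fixed s a m h, mul_zero])
  rw [Fintype.prod_option] at key
  change (polyMat (fun g => Gen (FreeGroup.of g)) (Q ⧸ (⊤ : Subgroup Q)) A).det ^ (m : ℤ) *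
    ∏ i : s, (fun H : Subgroup Q =>
      (polyMat (fun g => Gen (FreeGroup.of g)) (Q ⧸ H) A).det ^ (- a H)) i.1 = 1 at key
  rw [Finset.prod_coe_sort s (fun H : Subgroup Q =>
      (polyMat (fun g => Gen (FreeGroup.of g)) (Q ⧸ H) A).det ^ (- a H)), zpow_natCast] at key
  have h2 : ∏ H ∈ s, (polyMat (fun g => Gen (FreeGroup.of g)) (Q ⧸ H) A).det ^ (- a H) =
      (∏ H ∈ s, (polyMat (fun g => Gen (FreeGroup.of g)) (Q ⧸ H) A).det ^ (a H))⁻¹ := by
    rw [← Finset.prod_inv_distrib]
    exact Finset.prod_congr rfl fun H _ => zpow_neg _ _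
  rw [h2] at key
  exact eq_of_mul_inv_eq_one key

lemma zpow_mul_toNat {F : Type*} [Field F] {x : F} (hx : x ≠ 0) (n : ℤ) :
    x ^ n * x ^ (-n).toNat = x ^ n.toNat := by
  rw [← zpow_natCast x (-n).toNat, ← zpow_natCast x n.toNat, ← zpow_add₀ hx]
  congr 1
  omega

/-- The relation over a domain of characteristic zero, without denominators. -/
lemma rel_domain [Fintype Q] [∀ H : Subgroup Q, Fintype (Q ⧸ H)]
    [∀ H : Subgroup Q, DecidableEq (Q ⧸ H)] {R : Type*} [CommRing R] [IsDomain R] [CharZero R]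
    (G : Q → Matrix κ κ R) (hG : ∀ g, (G g).det ≠ 0) (A : Matrix ι ι (MonoidAlgebra ℤ Q))
    (s : Finset (Subgroup Q)) (a : Subgroup Q → ℤ) (m : ℕ)
    (h : ∀ g : Q, (m : ℤ) = ∑ H ∈ s, a H * (Nat.card (MulAction.fixedBy (Q ⧸ H) g) : ℤ))
    (hne : ∀ H : Subgroup Q, (polyMat G (Q ⧸ H) A).det ≠ 0) :
    (polyMat G (Q ⧸ (⊤ : Subgroup Q)) A).det ^ m *
      ∏ H ∈ s, (polyMat G (Q ⧸ H) A).det ^ (- a H).toNat =
      ∏ H ∈ s, (polyMat G (Q ⧸ H) A).det ^ (a H).toNat := by
  set K := FractionRing R with hK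
  have hinj : Function.Injective (algebraMap R K) := IsFractionRing.injective R K
  have hu : ∀ g, IsUnit ((G g).map (algebraMap R K)).det := by
    intro g
    have h1 : ((G g).map (algebraMap R K)).det = algebraMap R K (G g).det :=
      (RingHom.map_det (algebraMap R K) (G g)).symm
    rw [h1]
    exact isUnit_iff_ne_zero.mpr (fun h0 => hG g (hinj (by rw [h0, map_zero])))
  set Gen : FreeGroup Q →* Matrix κ κ K := (Units.coeHom (Matrix κ κ K)).comp
    (FreeGroup.lift fun g => Matrix.nonsingInvUnit _ (hu g)) with hGen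
  have hGen1 : ∀ g, Gen (FreeGroup.of g) = (G g).map (algebraMap R K) := by
    intro g
    rw [hGen, MonoidHom.comp_apply, FreeGroup.lift_apply_of]
    rfl
  have hdet : ∀ H : Subgroup Q, (polyMat (fun g => Gen (FreeGroup.of g)) (Q ⧸ H) A).det =
      algebraMap R K (polyMat G (Q ⧸ H) A).det := by
    intro H
    rw [polyMat_det_map]
    congr 2
    funext g
    exact hGen1 g
  have hne' : ∀ H : Subgroup Q,
      (polyMat (fun g => Gen (FreeGroup.of g)) (Q ⧸ H) A).det ≠ 0 := by
    intro H h0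
    rw [hdet] at h0
    exact hne H (hinj (by rw [h0, map_zero]))
  have key := rel_field Gen A s a m h hne'
  apply hinj
  rw [map_mul, map_pow, map_prod, map_prod, ← hdet, key, ← Finset.prod_mul_distrib]
  refine Finset.prod_congr rfl fun H _ => ?_
  rw [map_pow, map_pow, ← hdet]
  exact zpow_mul_toNat (hne' H) (a H)

end generic

/-- A relation between permutation characters gives a relation between the determinants of the
tensor products with an arbitrary representation over a field `F` of any characteristic.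

Proof. Let `R` be the polynomial ring over `ℤ` in the variables `X g a b` (`g ∈ Q`, `a b : κ`), and
`G g` the generic matrix `(X g a b)`. For a permutation representation `Ω` let `D_Ω` in `R` be the
determinant of `∑_g A_ij(g) (G g)_{a a'} (permRep g)_{w w'}` (indices `ι × κ × Ω`). Under the ring
homomorphism `R → F`, `X g a b ↦ ρ g a b`, `D_Ω` is mapped to the determinant of
`mapRep (tens ρ (permRep F Ω)) A`, which is not zero, so `D_Ω ≠ 0`. In the fraction field of `R`
(characteristic zero) `D_{pt} ^ m = ∏ D_{Q ⧸ H} ^ (a H)` by `prod_det_zpow` (FinQ/Trace.lean): the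
trace of the `N`-th power of the matrix is a sum over `g_1, ..., g_N` of
`tr(A(g_1) ... A(g_N)) tr(G g_1 ... G g_N) fix_Ω(g_1 ... g_N)`. (To have this without computation:
work with the free monoid on `Q`, the lift of `A` and the representations `G` of the free monoid;
the lemmas of FinQ/Trace.lean on `mapRep` hold for monoids with the same proofs.) Clear
denominators (move the negative exponents to the other side), use that `R` is a domain, and apply
`R → F`. -/
theorem virtual_perm {Q : Type*} [Group Q] [Finite Q] [∀ H : Subgroup Q, Fintype (Q ⧸ H)]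
    [∀ H : Subgroup Q, DecidableEq (Q ⧸ H)] (s : Finset (Subgroup Q)) (a : Subgroup Q → ℤ) (m : ℕ)
    (h : ∀ g : Q, (m : ℤ) = ∑ H ∈ s, a H * (Nat.card (MulAction.fixedBy (Q ⧸ H) g) : ℤ))
    {ι : Type*} [Fintype ι] [DecidableEq ι] {A B : Matrix ι ι (MonoidAlgebra ℤ Q)}
    (hAB : A * B = 1) {F : Type*} [Field F] {κ : Type*} [Fintype κ] [DecidableEq κ]
    (ρ : Q →* Matrix κ κ F) :
    (mapRep ρ A).det ^ m =
      ∏ H ∈ s, (mapRep (tens ρ (permRep F (Q ⧸ H))) A).det ^ (a H) := by
  have : Fintype Q := Fintype.ofFinite Q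
  -- the one point set
  have htop : (mapRep ρ A).det = (mapRep (tens ρ (permRep F (Q ⧸ (⊤ : Subgroup Q)))) A).det := by
    have : Subsingleton (Q ⧸ (⊤ : Subgroup Q)) := QuotientGroup.subsingleton_quotient_top
    have : Unique (Q ⧸ (⊤ : Subgroup Q)) := Unique.mk' _
    set e : ι × (κ × (Q ⧸ (⊤ : Subgroup Q))) ≃ ι × κ :=
      Equiv.prodCongr (Equiv.refl ι) (Equiv.prodUnique κ _) with he
    have h1 : mapRep (tens ρ (permRep F (Q ⧸ (⊤ : Subgroup Q)))) A =
        (mapRep ρ A).submatrix e e := by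
      ext x y
      rw [mapRep_apply, Matrix.submatrix_apply, mapRep_apply, mapHom_apply, mapHom_apply]
      refine Finset.sum_congr rfl fun g _ => ?_
      have h2 : x.2.2 = g • y.2.2 := Subsingleton.elim _ _
      have h3 : tens ρ (permRep F (Q ⧸ (⊤ : Subgroup Q))) g x.2 y.2 = ρ g x.2.1 y.2.1 := by
        rw [tens_apply, permRep_apply, if_pos h2, mul_one]
      change _ * tens ρ (permRep F (Q ⧸ (⊤ : Subgroup Q))) g x.2 y.2 = _
      rw [h3]
      rfl
    rw [h1, Matrix.det_submatrix_equiv_self]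
  set G : Q → Matrix κ κ (MvPolynomial (Q × κ × κ) ℤ) := fun g =>
    Matrix.of fun a b => MvPolynomial.X (g, a, b) with hG
  have hGab : ∀ g a b, G g a b = MvPolynomial.X (g, a, b) := fun g a b => rfl
  have hGdet : ∀ g, (G g).det ≠ 0 := by
    intro g h0
    have h1 := congrArg (MvPolynomial.eval₂Hom (Int.castRingHom ℤ)
      (fun t : Q × κ × κ => if t.2.1 = t.2.2 then (1 : ℤ) else 0)) h0
    rw [map_zero, RingHom.map_det] at h1
    have h2 : (MvPolynomial.eval₂Hom (Int.castRingHom ℤ)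
        (fun t : Q × κ × κ => if t.2.1 = t.2.2 then (1 : ℤ) else 0)).mapMatrix (G g) = 1 := by
      ext a b
      rw [RingHom.mapMatrix_apply, Matrix.map_apply, hGab,
        MvPolynomial.coe_eval₂Hom, MvPolynomial.eval₂_X, Matrix.one_apply]
    rw [h2, Matrix.det_one] at h1
    exact one_ne_zero h1
  set φ : MvPolynomial (Q × κ × κ) ℤ →+* F := MvPolynomial.eval₂Hom (Int.castRingHom F)
    (fun t : Q × κ × κ => ρ t.1 t.2.1 t.2.2) with hφ
  have hGφ : (fun g => (G g).map φ) = fun g => ρ g := by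
    funext g
    ext a b
    rw [Matrix.map_apply, hGab, hφ, MvPolynomial.coe_eval₂Hom, MvPolynomial.eval₂_X]
  have hev : ∀ H : Subgroup Q, φ (polyMat G (Q ⧸ H) A).det =
      (mapRep (tens ρ (permRep F (Q ⧸ H))) A).det := by
    intro H
    rw [polyMat_det_map, hGφ, polyMat_rep]
  have hF : ∀ H : Subgroup Q, (mapRep (tens ρ (permRep F (Q ⧸ H))) A).det ≠ 0 := fun H =>
    (isUnit_det_mapRep _ hAB).ne_zero
  have hne : ∀ H : Subgroup Q, (polyMat G (Q ⧸ H) A).det ≠ 0 := by
    intro H h0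
    apply hF H
    rw [← hev, h0, map_zero]
  have key := congrArg φ (rel_domain G hGdet A s a m h hne)
  rw [map_mul, map_pow, map_prod, map_prod, hev] at key
  have h3 : ∀ H ∈ s, φ ((polyMat G (Q ⧸ H) A).det ^ (- a H).toNat) =
      (mapRep (tens ρ (permRep F (Q ⧸ H))) A).det ^ (- a H).toNat := by
    intro H _
    rw [map_pow, hev]
  have h4 : ∀ H ∈ s, φ ((polyMat G (Q ⧸ H) A).det ^ (a H).toNat) =
      (mapRep (tens ρ (permRep F (Q ⧸ H))) A).det ^ (a H) *
        (mapRep (tens ρ (permRep F (Q ⧸ H))) A).det ^ (- a H).toNat := by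
    intro H _
    rw [map_pow, hev, zpow_mul_toNat (hF H)]
  rw [Finset.prod_congr rfl h3, Finset.prod_congr rfl h4, Finset.prod_mul_distrib] at key
  rw [htop]
  refine mul_right_cancel₀ ?_ key
  exact Finset.prod_ne_zero_iff.mpr fun H _ => pow_ne_zero _ (hF H)

end Pool.Agent.Lib.MP_8f66f0_al_Wall
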