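import Mathlib
import Pool.Agent.Lib.MP_8f66f0_al_Wall.Induct
import Pool.Agent.Lib.MP_8f66f0_al_Wall.Quasi
import Pool.Agent.Lib.MP_8f66f0_al_Wall.Virtual

/-! The determinants of a matrix over the group ring of a finite group. -/

set_option autoImplicit false
set_option linter.unusedSectionVars false

namespace Pool.Agent.Lib.MP_8f66f0_al_Wall

open Pool.Agent.Lib.MP_8f66f0_al_Dennis Pool.Agent.Lib.MP_8f66f0_al_FinQ
open Pool.Agent.Lib.MP_8f66f0_al_Plus

section aux

/-- The determinant character of a representation, on the abelianization. -/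
noncomputable def detChar {Q : Type*} [Group Q] {F : Type*} [CommRing F] {k : ℕ}
    (ρ : Q →* Matrix (Fin k) (Fin k) F) : Abelianization Q →* Fˣ :=
  Abelianization.lift (MonoidHom.toHomUnits
    ((Matrix.detMonoidHom (n := Fin k) (R := F)).comp ρ))

lemma detChar_of {Q : Type*} [Group Q] {F : Type*} [CommRing F] {k : ℕ}
    (ρ : Q →* Matrix (Fin k) (Fin k) F) (g : Q) :
    ((detChar ρ (Abelianization.of g) : Fˣ) : F) = (ρ g).det := by
  rw [detChar, Abelianization.lift_apply_of]
  rfl

/-- The determinants to the power `m` are those of an element up to sign. -/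
theorem wall_local.{u, v, w} {Q : Type u} [Group Q] [Finite Q] {ι : Type v} [Fintype ι]
    [DecidableEq ι] {p : ℕ} (hp : p.Prime)
    [∀ H : Subgroup Q, Fintype (Q ⧸ H)] [∀ H : Subgroup Q, DecidableEq (Q ⧸ H)]
    {A B : Matrix ι ι (MonoidAlgebra ℤ Q)} (hAB : A * B = 1) (hBA : B * A = 1)
    (hroot : RootHyp A) {m : ℕ} {s : Finset (Subgroup Q)} {a : Subgroup Q → ℤ}
    (hs : ∀ H ∈ s, QE p H)
    (ha : ∀ g : Q, (m : ℤ) = ∑ H ∈ s, a H * (Nat.card (MulAction.fixedBy (Q ⧸ H) g) : ℤ))
    (x : ∀ H : Subgroup Q, H) (e : Subgroup Q → ℤˣ)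
    (hx : ∀ H : Subgroup Q,
      uEl (resMat H A) = MonoidAlgebra.single (Abelianization.of (x H)) ((e H : ℤˣ) : ℤ))
    {F : Type w} [Field F] [IsAlgClosed F] {k : ℕ} (ρ : Q →* Matrix (Fin k) (Fin k) F) :
    (mapRep ρ A).det ^ m =
      ((Units.map (Int.castRingHom F).toMonoidHom (∏ H ∈ s, e H ^ a H) ^ k *
        detChar ρ (∏ H ∈ s, Abelianization.of ((x H : H) : Q) ^ a H) : Fˣ) : F) := by
  rw [virtual_perm s a m ha hAB ρ]
  have h1 : ∀ H ∈ s, (mapRep (tens ρ (permRep F (Q ⧸ H))) A).det ^ (a H) =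
      (((Units.map (Int.castRingHom F).toMonoidHom (e H) ^ k *
        detChar ρ (Abelianization.of ((x H : H) : Q))) ^ (a H) : Fˣ) : F) := by
    intro H hH
    have h2 : resMat H A * resMat H B = 1 := by rw [← map_mul, hAB, map_one]
    have h3 : resMat H B * resMat H A = 1 := by rw [← map_mul, hBA, map_one]
    have h4 := quasi_eq hp (hs H hH) h2 h3 (rootHyp_res H hroot) (Int.isUnit_iff.mp (e H).isUnit)
      (hx H) (ρ.comp H.subtype)
    rw [det_mapRep_tens_perm, h4, Units.val_zpow_eq_zpow_val, Units.val_mul, Units.val_pow_eq_pow_val,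
      detChar_of]
    rfl
  rw [Finset.prod_congr rfl h1, ← Units.coe_prod]
  congr 1
  rw [map_prod, map_prod, ← Finset.prod_pow, ← Finset.prod_mul_distrib]
  refine Finset.prod_congr rfl fun H _ => ?_
  rw [map_zpow, map_zpow, mul_zpow, ← zpow_natCast, ← zpow_natCast, ← zpow_mul, ← zpow_mul,
    mul_comm (a H) (k : ℤ)]

/-- The one-dimensional representation given by a character of the abelianization. -/
noncomputable def charRep {Q : Type*} [Group Q] {F : Type*} [CommRing F]
    (ψ : Abelianization Q →* Fˣ) : Q →* Matrix (Fin 1) (Fin 1) F where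
  toFun g := Matrix.of fun _ _ => ((ψ (Abelianization.of g) : Fˣ) : F)
  map_one' := by
    ext i j
    rw [Matrix.of_apply, map_one, map_one, Units.val_one, Subsingleton.elim i j,
      Matrix.one_apply_eq]
  map_mul' g h := by
    ext i j
    rw [Matrix.of_apply, map_mul, map_mul, Units.val_mul, Matrix.mul_apply]
    simp

lemma detChar_charRep {Q : Type*} [Group Q] {F : Type*} [CommRing F]
    (ψ : Abelianization Q →* Fˣ) : detChar (charRep ψ) = ψ := by
  refine MonoidHom.ext fun y => ?_
  obtain ⟨g, rfl⟩ := QuotientGroup.mk_surjective y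
  refine Units.ext ?_
  have h := detChar_of (charRep ψ) g
  refine h.trans ?_
  rw [Matrix.det_fin_one]
  rfl

end aux

/-- For a finite group: if all complex determinants are roots of unity and the determinant over
the abelianization is `1`, then all determinants over algebraically closed fields are `1`.
Proof. Let `p` be a prime, `m, s, a` as in `local_induction`; for `H ∈ s` let
`uEl (resMat H A) = single h_H ε_H` (`uEl_eq_single`, `rootHyp_res`). By `virtual_perm`,
`det_mapRep_tens_perm` and `quasi_eq` (for `H ∈ s` and `resMat H A`)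
`det ρ(A) ^ m = ∏ (ε_H ^ k det ρ(h_H)) ^ (a H) = ε' ^ k det ρ(h')`, with `ε' = ∏ ε_H ^ (a H)` and
`h' = ∏ h_H ^ (a H)` (a product in `Q` in any order) for all `ρ` (over `F` and over the complex
numbers). For `ρ = 1` over `ℂ`: `ε' = 1`; for the linear characters `ψ` of `Q` over `ℂ`:
`ψ(h') = 1`, as `ψ(A) = 1` (`det_mapRep_fin_one`, `hu`); so `h'` is trivial in the abelianization
(the characters of a finite abelian group separate its elements) and `det ρ(h') = 1`. So the order
of `det ρ(A)` divides `m`, and is not divisible by `p`. This holds for all `p`. -/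
theorem wall.{u, v, w} {Q : Type u} [Group Q] [Finite Q] {ι : Type v} [Fintype ι] [DecidableEq ι]
    {A B : Matrix ι ι (MonoidAlgebra ℤ Q)} (hAB : A * B = 1) (hBA : B * A = 1)
    (hroot : RootHyp A) (hu : uEl A = 1) {F : Type w} [Field F] [IsAlgClosed F] {k : ℕ}
    (ρ : Q →* Matrix (Fin k) (Fin k) F) : (mapRep ρ A).det = 1 := by
  let i1 : ∀ H : Subgroup Q, Fintype (Q ⧸ H) := fun H => Fintype.ofFinite _
  let i2 : ∀ H : Subgroup Q, DecidableEq (Q ⧸ H) := fun H => Classical.decEq _
  have hx : ∀ H : Subgroup Q, ∃ (x : H) (e : ℤˣ),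
      uEl (resMat H A) = MonoidAlgebra.single (Abelianization.of x) ((e : ℤˣ) : ℤ) := by
    intro H
    obtain ⟨h, ε, hε, hh⟩ := uEl_eq_single (rootHyp_res H hroot)
    refine ⟨h, (Int.isUnit_iff.mpr hε).unit, ?_⟩
    rw [hh]
    rfl
  choose x e hxe using hx
  have key : ∀ p : ℕ, p.Prime → ∃ m : ℕ, ¬ p ∣ m ∧ (mapRep ρ A).det ^ m = 1 := by
    intro p hp
    obtain ⟨m, hm, s, a, hs, ha⟩ := local_induction Q hp
    refine ⟨m, hm, ?_⟩
    have h1 := wall_local hp hAB hBA hroot hs ha x e hxe ρ
    have h2 : ∀ ψ : Abelianization Q →* ℂˣ,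
        Units.map (Int.castRingHom ℂ).toMonoidHom (∏ H ∈ s, e H ^ a H) ^ 1 *
          ψ (∏ H ∈ s, Abelianization.of ((x H : H) : Q) ^ a H) = 1 := by
      intro ψ
      have h3 := wall_local hp hAB hBA hroot hs ha x e hxe (charRep ψ)
      rw [det_mapRep_fin_one, hu, map_one, one_pow, detChar_charRep] at h3
      exact Units.ext h3.symm
    have h4 : (∏ H ∈ s, e H ^ a H) = 1 := by
      have h5 := h2 1
      rw [MonoidHom.one_apply, mul_one, pow_one] at h5
      have h6 := congrArg Units.val h5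
      refine Units.ext ?_
      rw [Units.val_one]
      have h7 : (((∏ H ∈ s, e H ^ a H : ℤˣ) : ℤ) : ℂ) = ((1 : ℤ) : ℂ) := by
        rw [Int.cast_one]
        exact h6
      exact Int.cast_injective h7
    have h5 : (∏ H ∈ s, Abelianization.of ((x H : H) : Q) ^ a H) = 1 := by
      by_contra hne
      obtain ⟨ψ, hψ⟩ := CommGroup.exists_apply_ne_one_of_hasEnoughRootsOfUnity
        (Abelianization Q) ℂ hne
      apply hψ
      have h6 := h2 ψ
      rw [h4, map_one, one_pow, one_mul] at h6
      exact h6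
    rw [h1, h4, h5, map_one, map_one, one_pow, one_mul, Units.val_one]
  have hord : orderOf (mapRep ρ A).det = 1 := by
    by_contra hne
    have hpos : orderOf (mapRep ρ A).det ≠ 0 := by
      obtain ⟨m, hm, h⟩ := key 2 Nat.prime_two
      intro h0
      have h1 := orderOf_dvd_of_pow_eq_one h
      rw [h0, Nat.zero_dvd] at h1
      exact hm (h1 ▸ dvd_zero 2)
    obtain ⟨p, hp, hpd⟩ := Nat.exists_prime_and_dvd hne
    obtain ⟨m, hm, h⟩ := key p hp
    exact hm (hpd.trans (orderOf_dvd_of_pow_eq_one h))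
  exact orderOf_eq_one_iff.mp hord

end Pool.Agent.Lib.MP_8f66f0_al_Wall
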