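import Mathlib
import Pool.Agent.Lib.MP_8f66f0_al_Wall.Abel
import Pool.Agent.Lib.MP_8f66f0_al_Wall.Fields
import Pool.Agent.Lib.MP_8f66f0_al_Wall.Global

/-! All finite-dimensional representations over all fields. -/

set_option autoImplicit false
set_option linter.unusedSectionVars false

namespace Pool.Agent.Lib.MP_8f66f0_al_Wall

open Pool.Agent.Lib.MP_8f66f0_al_Dennis Pool.Agent.Lib.MP_8f66f0_al_FinQ
open Pool.Agent.Lib.MP_8f66f0_al_Plus

lemma mapMat_stab {H Q : Type*} [Group H] [Group Q] {ι : Type*} [Fintype ι] [DecidableEq ι]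
    (π : H →* Q) (A : Matrix ι ι (MonoidAlgebra ℤ H)) (γ : H) (ε : ℤ) :
    mapMat π (stab A γ ε) = stab (mapMat π A) (π γ) ε := by
  ext x y : 1
  rcases x with i | i <;> rcases y with j | j
  · rfl
  · exact map_zero (MonoidAlgebra.mapDomainRingHom ℤ π)
  · exact map_zero (MonoidAlgebra.mapDomainRingHom ℤ π)
  · exact MonoidAlgebra.mapDomain_single

lemma det_of_stab {H : Type*} [Group H] {ι : Type*} [Fintype ι] [DecidableEq ι]
    {A : Matrix ι ι (MonoidAlgebra ℤ H)} {h : H} {ε : ℤ} (hε : ε = 1 ∨ ε = -1)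
    {F : Type*} [CommRing F] {k : ℕ} (ρ : H →* Matrix (Fin k) (Fin k) F)
    (h1 : (mapRep ρ (stab A h⁻¹ ε)).det = 1) :
    (mapRep ρ A).det = (ε : F) ^ k * (ρ h).det := by
  have hε2 : ε * ε = 1 := by
    rcases hε with h | h
    · rw [h, one_mul]
    · rw [h]; norm_num
  rw [det_mapRep_stab, Fintype.card_fin] at h1
  have h2 : (ρ h⁻¹).det * (ρ h).det = 1 := by
    rw [← Matrix.det_mul, ← map_mul, inv_mul_cancel, map_one, Matrix.det_one]
  have h3 : (ε : F) ^ k * (ε : F) ^ k = 1 := by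
    have : (ε : F) * (ε : F) = 1 := by
      rw [← Int.cast_mul, hε2, Int.cast_one]
    rw [← mul_pow, this, one_pow]
  calc (mapRep ρ A).det = (mapRep ρ A).det * ((ε : F) ^ k * (ε : F) ^ k) *
        ((ρ h⁻¹).det * (ρ h).det) := by rw [h2, h3, mul_one, mul_one]
    _ = ((mapRep ρ A).det * ((ε : F) ^ k * (ρ h⁻¹).det)) * ((ε : F) ^ k * (ρ h).det) := by ring
    _ = _ := by rw [h1, one_mul]

/-- If the determinants of `A` in all complex representations of the finite quotients of the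
finitely generated group `Γ` are roots of unity then there are a sign `ε` and an element `γ` such
that `det ρ(A) = ε ^ k det ρ(γ)` for all representations `ρ` over all fields. -/
theorem all_fields.{u, v, w} {Γ : Type u} [Group Γ] [Group.FG Γ] {ι : Type v} [Fintype ι]
    [DecidableEq ι] {A B : Matrix ι ι (MonoidAlgebra ℤ Γ)} (hAB : A * B = 1) (hBA : B * A = 1)
    (hroot : ∀ (N : Subgroup Γ) [N.Normal] [N.FiniteIndex],
      RootHyp (mapMat (QuotientGroup.mk' N) A)) :
    ∃ (γ : Γ) (ε : ℤ), (ε = 1 ∨ ε = -1) ∧ ∀ (E : Type w) [Field E] (k : ℕ)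
      (ρ : Γ →* Matrix (Fin k) (Fin k) E), (mapRep ρ A).det = (ε : E) ^ k * (ρ γ).det := by
  obtain ⟨γ, ε, hε, hu⟩ := exists_unit hroot
  refine ⟨γ, ε, hε, fun E _ k ρ => det_of_stab hε ρ ?_⟩
  have hε2 : ε * ε = 1 := by
    rcases hε with h | h
    · rw [h, one_mul]
    · rw [h]; norm_num
  have hu' : uEl (stab A γ⁻¹ ε) = 1 := by
    rw [uEl_stab, hu, MonoidAlgebra.single_mul_single, ← map_mul, mul_inv_cancel, map_one, hε2]
    rfl
  have hBA' : stab B γ ε * stab A γ⁻¹ ε = 1 := stab_mul hBA γ hε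
  have hAB' : stab A γ⁻¹ ε * stab B γ ε = 1 := by
    have := stab_mul hAB γ⁻¹ hε
    rwa [inv_inv] at this
  refine field_reduction (fun F _ _ k σ hσ => ?_) ρ
  -- a representation with finite image
  set N : Subgroup Γ := σ.ker with hN
  have hfin : Finite (Γ ⧸ N) := by
    have : Finite (Set.range σ) := hσ
    refine Finite.of_injective (β := Set.range σ)
      (fun q => Quotient.liftOn' q (fun g => (⟨σ g, g, rfl⟩ : Set.range σ)) ?_) ?_
    · intro a b hab
      have h1 : a⁻¹ * b ∈ σ.ker := QuotientGroup.leftRel_apply.mp hab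
      apply Subtype.ext
      change σ a = σ b
      have h2 : σ (a⁻¹ * b) = 1 := h1
      calc σ a = σ a * σ (a⁻¹ * b) := by rw [h2, mul_one]
        _ = σ b := by rw [← map_mul, mul_inv_cancel_left]
    · rintro ⟨a⟩ ⟨b⟩ hab
      have h1 : σ a = σ b := congrArg Subtype.val hab
      refine Quotient.sound' (QuotientGroup.leftRel_apply.mpr ?_)
      change σ (a⁻¹ * b) = 1
      rw [map_mul, ← h1, ← map_mul, inv_mul_cancel, map_one]
  have hNf : N.FiniteIndex := Subgroup.finiteIndex_of_finite_quotient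
  set σ' : Γ ⧸ N →* Matrix (Fin k) (Fin k) F := QuotientGroup.lift N σ (fun x hx => hx) with hσ'
  have hcomp : σ = σ'.comp (QuotientGroup.mk' N) := by
    ext g : 1
    rfl
  have h1 : mapMat (QuotientGroup.mk' N) (stab A γ⁻¹ ε) *
      mapMat (QuotientGroup.mk' N) (stab B γ ε) = 1 := by rw [← map_mul, hAB', map_one]
  have h2 : mapMat (QuotientGroup.mk' N) (stab B γ ε) *
      mapMat (QuotientGroup.mk' N) (stab A γ⁻¹ ε) = 1 := by rw [← map_mul, hBA', map_one]
  have h3 : RootHyp (mapMat (QuotientGroup.mk' N) (stab A γ⁻¹ ε)) := by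
    rw [mapMat_stab]
    exact rootHyp_stab (hroot N) _ hε
  have h4 : uEl (mapMat (QuotientGroup.mk' N) (stab A γ⁻¹ ε)) = 1 := by
    rw [uEl_mapMat, hu', map_one]
  have h5 := wall h1 h2 h3 h4 σ'
  rw [mapRep_mapMat, ← hcomp] at h5
  exact h5

end Pool.Agent.Lib.MP_8f66f0_al_Wall
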