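import Mathlib
import Pool.Agent.Lib.MP_8f66f0_al_Dennis.DetMain
import Pool.Agent.Lib.MP_8f66f0_al_Dennis.Separated
import Pool.Agent.Lib.MP_8f66f0_al_FinQ.Detect
import Pool.Agent.Lib.MP_8f66f0_al_Plus.OfDetected
import Pool.Agent.Lib.MP_8f66f0_al_Plus.PropT
import Pool.Agent.Lib.MP_8f66f0_al_Wall.Final

/-! The theorem for groups all of whose finitely generated subgroups are good. -/

set_option autoImplicit false
set_option linter.unusedSectionVars false

namespace Pool.Agent.Lib.MP_8f66f0_al_Wall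

open Pool.Agent.Lib.MP_8f66f0_al_Dennis Pool.Agent.Lib.MP_8f66f0_al_FinQ
open Pool.Agent.Lib.MP_8f66f0_al_Plus

lemma PowerSeparated.of_injective {G K : Type*} [Group G] [Group K] (f : K →* G)
    (hf : Function.Injective f) (h : PowerSeparated G) : PowerSeparated K := by
  obtain ⟨⟨N, hN⟩, hc⟩ := h
  refine ⟨⟨N, fun p hp hNp x y hxy => hf (hN p hp hNp _ _ ?_)⟩, fun u v hv => ?_⟩
  · rw [← map_pow, hxy, map_pow]
  · refine (hc (f u) (f v) (fun h => hv (hf (by rw [h, map_one])))).subset ?_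
    rintro p ⟨hp, hcj⟩
    refine ⟨hp, ?_⟩
    rw [← map_pow]
    exact f.map_isConj hcj

/-- The multiplicativity property at all primes implies the hypothesis of `all_fields`. -/
lemma rootHyp_of_propT {Γ : Type*} [Group Γ] {n : ℕ}
    {A B : Matrix (Fin n) (Fin n) (MonoidAlgebra ℤ Γ)} (hAB : A * B = 1) (hBA : B * A = 1)
    (hT : ∀ p : ℕ, p.Prime → PropT p A B) (N : Subgroup Γ) [N.Normal] [N.FiniteIndex] :
    RootHyp (mapMat (QuotientGroup.mk' N) A) := by
  intro k ρ
  obtain ⟨M, hM0, hM⟩ := root_of_propT hAB hBA hT (QuotientGroup.mk' N) ρ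
  exact ⟨M, hM0, by rw [mapRep_mapMat, hM]⟩

/-- A finitely generated group is good if the multiplicativity property holds at all primes for
all its invertible matrices. -/
def Good (Γ : Type*) [Group Γ] : Prop :=
  ∀ (n : ℕ) (A B : Matrix (Fin n) (Fin n) (MonoidAlgebra ℤ Γ)), A * B = 1 → B * A = 1 →
    ∀ p : ℕ, p.Prime → PropT p A B

lemma good_of_detected {Γ : Type*} [Group Γ] (hsep : PowerSeparated Γ)
    (hdet : ∀ c : Γ, c ≠ 1 → Detected c) : Good Γ :=
  fun _ _ _ hAB hBA _ hp => (propM_of_detected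
    (fun H _ => PowerSeparated.of_injective H.subtype H.subtype_injective hsep) hdet hAB hBA
      hp).propT hp

lemma good_of_linear {Γ : Type*} [Group Γ] [Group.FG Γ]
    (htf : ∀ g : Γ, ∀ n : ℕ, 0 < n → g ^ n = 1 → g = 1) {F : Type*} [Field F] {m : ℕ}
    (ρ : Γ →* Matrix.GeneralLinearGroup (Fin m) F) (hρ : Function.Injective ρ)
    (hNU : ∀ g : Γ, ((ρ g : Matrix (Fin m) (Fin m) F) - 1) ^ m = 0 → g = 1) : Good Γ :=
  good_of_detected (PowerSeparated.of_linear htf ρ hρ) fun _ hc => detected_of_linear htf ρ hNU hc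

lemma good_of_linear_charP {Γ : Type*} [Group Γ] [Group.FG Γ]
    (htf : ∀ g : Γ, ∀ n : ℕ, 0 < n → g ^ n = 1 → g = 1) {F : Type*} [Field F] {m : ℕ} (p : ℕ)
    (hp : p.Prime) [CharP F p] (ρ : Γ →* Matrix.GeneralLinearGroup (Fin m) F)
    (hρ : Function.Injective ρ) : Good Γ := by
  have : Fact p.Prime := ⟨hp⟩
  exact good_of_detected (PowerSeparated.of_linear htf ρ hρ) fun _ hc =>
    detected_of_linear_charP htf p ρ hρ hc

lemma det_repMatrix_map {Γ : Type*} [Group Γ] {E K : Type*} [CommRing E] [CommRing K]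
    (s : E →+* K) {n k : ℕ} (ρ : Γ →* Matrix.GeneralLinearGroup (Fin k) E)
    (A : Matrix (Fin n) (Fin n) (MonoidAlgebra ℤ Γ)) :
    (repMatrix ((Matrix.GeneralLinearGroup.map s).comp ρ) A).det = s (repMatrix ρ A).det := by
  rw [RingHom.map_det, repMatrix_eq_mapRep, repMatrix_eq_mapRep]
  change _ = ((mapRep ((Units.coeHom _).comp ρ) A).map s).det
  rw [mapRep_map]
  rfl

/-- The theorem for groups whose finitely generated subgroups are good, over fields. -/
theorem det_of_locally_good_field.{u, w} {Γ : Type u} [Group Γ]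
    (h : ∀ H : Subgroup Γ, H.FG → Good H) {n : ℕ}
    {A B : Matrix (Fin n) (Fin n) (MonoidAlgebra ℤ Γ)} (hAB : A * B = 1) (hBA : B * A = 1) :
    ∃ (γ : Γ) (ε : ℤ), (ε = 1 ∨ ε = -1) ∧ ∀ (E : Type w) [Field E] (k : ℕ)
      (ρ : Γ →* Matrix.GeneralLinearGroup (Fin k) E),
      (repMatrix ρ A).det = (ε : E) ^ k * (ρ γ : Matrix (Fin k) (Fin k) E).det := by
  obtain ⟨H, hH, A', B', hAB', hBA', hA', -⟩ := exists_descent A B hAB hBA
  have : Group.FG H := (Group.fg_iff_subgroup_fg H).mpr hH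
  obtain ⟨γ, ε, hε, hall⟩ := all_fields.{u, 0, w} hAB' hBA'
    (fun N _ _ => rootHyp_of_propT hAB' hBA' (h H hH n A' B' hAB' hBA') N)
  refine ⟨γ, ε, hε, fun E _ k ρ => ?_⟩
  have hA : A = mapMat H.subtype A' := by
    ext i j : 1
    exact (hA' i j).symm
  have h1 := hall E k (((Units.coeHom _).comp ρ).comp H.subtype)
  rw [repMatrix_eq_mapRep, hA, mapRep_mapMat, h1]
  rfl

/-- The theorem for groups whose finitely generated subgroups are good, over reduced commutative
rings. -/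
theorem det_of_locally_good.{u, w} {Γ : Type u} [Group Γ] (h : ∀ H : Subgroup Γ, H.FG → Good H)
    {n : ℕ} {A B : Matrix (Fin n) (Fin n) (MonoidAlgebra ℤ Γ)} (hAB : A * B = 1)
    (hBA : B * A = 1) :
    ∃ (γ : Γ) (ε : ℤ), (ε = 1 ∨ ε = -1) ∧ ∀ (E : Type w) [CommRing E] [IsReduced E] (k : ℕ)
      (ρ : Γ →* Matrix.GeneralLinearGroup (Fin k) E),
      (repMatrix ρ A).det = (ε : E) ^ k * (ρ γ : Matrix (Fin k) (Fin k) E).det := by
  obtain ⟨γ, ε, hε, hall⟩ := det_of_locally_good_field.{u, w} h hAB hBA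
  refine ⟨γ, ε, hε, fun E _ _ k ρ => ?_⟩
  rw [← sub_eq_zero]
  have hK : ∀ (K : Type w) [Field K] (s : E →+* K),
      s ((repMatrix ρ A).det - (ε : E) ^ k * (ρ γ : Matrix (Fin k) (Fin k) E).det) = 0 := by
    intro K _ s
    have h1 := hall K k ((Matrix.GeneralLinearGroup.map s).comp ρ)
    rw [det_repMatrix_map] at h1
    have h2 : (((Matrix.GeneralLinearGroup.map s).comp ρ) γ : Matrix (Fin k) (Fin k) K).det =
        s (ρ γ : Matrix (Fin k) (Fin k) E).det := by
      rw [RingHom.map_det]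
      rfl
    rw [map_sub, map_mul, map_pow, map_intCast, h1, h2, sub_self]
  refine (nilpotent_iff_mem_prime.mpr fun P hP => ?_).eq_zero
  have h3 := hK (FractionRing (E ⧸ P))
    ((algebraMap (E ⧸ P) (FractionRing (E ⧸ P))).comp (Ideal.Quotient.mk P))
  rw [RingHom.comp_apply] at h3
  exact Ideal.Quotient.eq_zero_iff_mem.mp
    ((map_eq_zero_iff _ (IsFractionRing.injective (E ⧸ P) (FractionRing (E ⧸ P)))).mp h3)

end Pool.Agent.Lib.MP_8f66f0_al_Wall
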