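import Mathlib

/-! Definitions of the classes of groups in the theorem on all finite-dimensional
representations. -/

set_option autoImplicit false

namespace Pool.Agent.Lib.MP_8f66f0_al_Wall

/-- `H` embeds in a general linear group over a field of positive characteristic. -/
def IsLinearCharP.{v, u} (H : Type u) [Group H] : Prop :=
  ∃ (F : Type v) (_ : Field F) (p : ℕ) (_ : p.Prime) (_ : CharP F p) (m : ℕ)
    (ρ : H →* Matrix.GeneralLinearGroup (Fin m) F), Function.Injective ρ

/-- `H` embeds in a general linear group over a field in such a way that no nontrivial element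
becomes unipotent. -/
def IsLinearNoUnipotents.{v, u} (H : Type u) [Group H] : Prop :=
  ∃ (F : Type v) (_ : Field F) (m : ℕ) (ρ : H →* Matrix.GeneralLinearGroup (Fin m) F),
    Function.Injective ρ ∧ ∀ g : H, ((ρ g : Matrix (Fin m) (Fin m) F) - 1) ^ m = 0 → g = 1

/-- For every `c ≠ 1` in `H` there is a homomorphism from the centralizer of `c` in `H` to the
integers which does not vanish at `c`. -/
def CentralizersToZ (H : Type*) [Group H] : Prop :=
  ∀ c : H, c ≠ 1 → ∃ lam : Subgroup.centralizer ({c} : Set H) →* Multiplicative ℤ,
    ∀ z : Subgroup.centralizer ({c} : Set H), (z : H) = c → lam z ≠ 1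

end Pool.Agent.Lib.MP_8f66f0_al_Wall
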